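import Pool.Agent.MVF.C012
import Pool.Agent.MVF.C029
import Pool.Agent.MVF.C030
import Pool.Agent.MVF.C036
import Pool.Agent.MVF.C037
import Pool.Agent.MVF.C048
import Pool.Agent.MVF.C055
import Pool.Agent.MVF.C056
import Pool.Agent.MVF.C088
import Pool.Agent.MVF.C089
import Pool.Agent.MVF.C093
import Pool.Agent.MVF.C094
import Pool.Agent.MVF.C104
import Pool.Agent.MVF.C108
import Pool.Agent.MVF.C110
import Pool.Agent.OBM.C01
import Pool.Agent.OBM.C06
import Pool.Agent.OTM.C06

/-! Parts: RI.MAINA, RID.P_ALGR, RID.P_GENA, RID.P_NUS, RID.P_RES, RID.P_SCN, RID.St2, OT.StE, RID.P_SGL, OT.E_ONE, OT.E_RK4, OT.E_STC -/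

section

/-!
# The relative Iwasawa theorem: assembly
-/

open NumberField

namespace Pool.Agent.RI

namespace MAINA

lemma unramInf_bot {F M' M : IntermediateField ℚ ℂ} [FiniteDimensional ℚ M] (h₁ : F ≤ M')
    (h₂ : M' ≤ M) (h : UnramInf (h₁.trans h₂)) : UnramInf h₁ := by
  intro φ hφ x
  let : Algebra M' M := algC h₂
  let : Algebra M' ℂ := φ.toAlgebra
  have : FiniteDimensional M' M := by
    have : IsScalarTower ℚ M' M := IsScalarTower.of_algebraMap_eq (fun _ => rfl)
    exact Module.Finite.of_restrictScalars_finite ℚ M' M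
  have : Algebra.IsAlgebraic M' M := Algebra.IsAlgebraic.of_finite M' M
  let ψ : M →ₐ[M'] ℂ := IsAlgClosed.lift
  have hψ : ∀ y : M', ψ (IntermediateField.inclusion h₂ y) = φ y := fun y => ψ.commutes y
  have := h ψ.toRingHom (fun y hy => by
    have := hφ ⟨(y : ℂ), h₁ hy⟩ hy
    rw [← hψ] at this
    exact this) (IntermediateField.inclusion h₂ x)
  rw [← hψ]
  exact this

lemma ramifies_of {F M' M : IntermediateField ℚ ℂ} [FiniteDimensional ℚ M] (h₁ : F ≤ M')
    (h₂ : M' ≤ M) (P : Ideal (𝓞 F)) (hP : Ramifies h₁ P) : Ramifies (h₁.trans h₂) P := by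
  have : FiniteDimensional ℚ M' := by
    exact FiniteDimensional.of_injective (IntermediateField.inclusion h₂).toLinearMap
      (IntermediateField.inclusion h₂).toRingHom.injective
  have : FiniteDimensional ℚ F := by
    exact FiniteDimensional.of_injective (IntermediateField.inclusion h₁).toLinearMap
      (IntermediateField.inclusion h₁).toRingHom.injective
  let : Algebra F M' := algC h₁
  let : Algebra M' M := algC h₂
  let : Algebra F M := algC (h₁.trans h₂)
  have : IsScalarTower F M' M := towerC h₁ h₂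
  obtain ⟨R', hR', hRP, he⟩ := hP
  obtain ⟨⟨R, hRp, hRo⟩⟩ := Ideal.nonempty_primesOver (S := 𝓞 M) R'
  have := hRo
  refine ⟨R, hRp, ?_, ?_⟩
  · rw [← hRP]
    have h := hRo.over
    rw [h, Ideal.under_under]
  · have h := Ideal.ramificationIdx_tower (R := 𝓞 F) R' R
    rw [h]
    have hpos : 0 < R.ramificationIdx (𝓞 M') := Ideal.ramificationIdx_pos _ _
    intro h1
    exact he (Nat.eq_one_of_mul_eq_one_right h1)

end MAINA

theorem MAINA_thm (hBASE : BASE) (hBCH : BCH) (hCHIEF : CHIEF) (hTSTEP : TSTEP) : MAINA := by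
  have key : ∀ (a p : ℕ) [Fact p.Prime] (F K M : IntermediateField ℚ ℂ)
    [FiniteDimensional ℚ K] [FiniteDimensional ℚ M] (hK : F ≤ K) (hM : F ≤ M),
    IsGalois F (IntermediateField.extendScalars hK) →
    ¬ p ∣ Module.finrank F (IntermediateField.extendScalars hK) →
    IsGalois F (IntermediateField.extendScalars hM) →
    Module.finrank F (IntermediateField.extendScalars hM) = p ^ a →
    UnramInf hM → NonsplitRam hK hM →
    padicValNat p (classNo K) = padicValNat p (classNo F) → RelTrivC p M (K ⊔ M) := by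
    intro a
    induction a with
    | zero =>
      intro p _ F K M _ _ hK hM hGK hp hGM hdeg hU hN hcl
      have hMF : M = F := by
        rw [pow_zero, IntermediateField.finrank_eq_one_iff] at hdeg
        apply le_antisymm _ hM
        intro x hx
        have hx' : x ∈ IntermediateField.extendScalars hM := hx
        rw [hdeg, IntermediateField.mem_bot] at hx'
        obtain ⟨y, rfl⟩ := hx'
        exact y.2
      subst hMF
      rw [sup_eq_left.2 hK]
      exact (hBASE p M K hK hGK hp).1 hcl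
    | succ a ih =>
      intro p _ F K M _ _ hK hM hGK hp hGM hdeg hU hN hcl
      obtain ⟨M', h₁, h₂, hG', hd', hdM⟩ := hCHIEF p a F M hM hGM hdeg
      have : FiniteDimensional ℚ M' := by
        exact FiniteDimensional.of_injective (IntermediateField.inclusion h₂).toLinearMap
          (IntermediateField.inclusion h₂).toRingHom.injective
      have hrec := ih p F K M' hK h₁ hGK hp hG' hd' (MAINA.unramInf_bot h₁ h₂ hU)
        (fun P Q hP hQ hPQ hR => hN P Q hP hQ hPQ (MAINA.ramifies_of h₁ h₂ _ hR)) hcl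
      exact hTSTEP p F K M' M hK h₁ h₂ hGK hp hG' hGM ⟨a + 1, hdeg⟩ hdM hU hN hrec
  intro p a _ F K M _ _ hK hM hGK hp hGM hdeg hU hN hcl
  have h := key a p F K M hK hM hGK hp hGM hdeg hU hN hcl
  have : FiniteDimensional ℚ F := by
    exact FiniteDimensional.of_injective (IntermediateField.inclusion hK).toLinearMap
      (IntermediateField.inclusion hK).toRingHom.injective
  have : FiniteDimensional ℚ ↥(K ⊔ M) := IntermediateField.finiteDimensional_sup K M
  have hb := hBCH.1 F K M M (K ⊔ M) hK le_sup_right (sup_eq_right.2 hM).symm rfl hGK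
  exact (hBASE p M (K ⊔ M) le_sup_right hb.1 (fun hd => hp (hd.trans hb.2))).2 h

end Pool.Agent.RI


end

section

/-!
# Decomposition fields and the growth of class groups: module ALGR
-/

open Finset
open scoped Pointwise

namespace Pool.Agent.RID

namespace ALGR

section

variable {I G : Type} [CommGroup I] [Group G] [MulDistribMulAction G I]

lemma pow_smul_mem {Y : Subgroup I} {g : G} (h : ∀ x ∈ Y, g • x ∈ Y) (k : ℕ) :
    ∀ x ∈ Y, g ^ k • x ∈ Y := by
  induction k with
  | zero => intro x hx; simpa using hx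
  | succ k ih => intro x hx; rw [pow_succ, mul_smul]; exact ih _ (h x hx)

/-- The action of `g` on a stable subgroup. -/
def res (g : G) (X : Subgroup I) (h : ∀ x ∈ X, g • x ∈ X) : X →* X where
  toFun x := ⟨g • (x : I), h x x.2⟩
  map_one' := by ext; simp
  map_mul' x y := by ext; simp [smul_mul']

/-- The action of `g` on the quotient. -/
def gq (g : G) (P X : Subgroup I) (hP : ∀ x ∈ P, g • x ∈ P) (hX : ∀ x ∈ X, g • x ∈ X) :
    X ⧸ P.subgroupOf X →* X ⧸ P.subgroupOf X :=
  QuotientGroup.map (P.subgroupOf X) (P.subgroupOf X) (res g X hX) (by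
    intro x hx
    rw [Subgroup.mem_comap, Subgroup.mem_subgroupOf]
    rw [Subgroup.mem_subgroupOf] at hx
    exact hP _ hx)

/-- The same, additive. -/
def ga (g : G) (P X : Subgroup I) (hP : ∀ x ∈ P, g • x ∈ P) (hX : ∀ x ∈ X, g • x ∈ X) :
    AddMonoid.End (Additive (X ⧸ P.subgroupOf X)) :=
  MonoidHom.toAdditive (gq g P X hP hX)

lemma ga_pow (g : G) (P X : Subgroup I) (hP : ∀ x ∈ P, g • x ∈ P) (hX : ∀ x ∈ X, g • x ∈ X)
    (k : ℕ) (x : X) :
    (ga g P X hP hX ^ k) (Additive.ofMul (x : X ⧸ P.subgroupOf X)) =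
      Additive.ofMul ((⟨g ^ k • (x : I), pow_smul_mem hX k x x.2⟩ : X) :
        X ⧸ P.subgroupOf X) := by
  induction k generalizing x with
  | zero =>
    have : (⟨g ^ 0 • (x : I), pow_smul_mem hX 0 x x.2⟩ : X) = x := by ext; simp
    rw [this]
    rfl
  | succ k ih =>
    have h1 : (ga g P X hP hX ^ (k + 1)) (Additive.ofMul (x : X ⧸ P.subgroupOf X)) =
        (ga g P X hP hX ^ k) (Additive.ofMul ((res g X hX x : X) : X ⧸ P.subgroupOf X)) := by
      rw [pow_succ]
      rfl
    rw [h1, ih]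
    congr 2
    ext
    show g ^ k • (g • (x : I)) = g ^ (k + 1) • (x : I)
    rw [pow_succ, mul_smul]

lemma mem_im {P U X : Subgroup I} (h1 : P ≤ U) (x : X) :
    (x : X ⧸ P.subgroupOf X) ∈ (U.subgroupOf X).map (QuotientGroup.mk' (P.subgroupOf X)) ↔
      (x : I) ∈ U := by
  constructor
  · rintro ⟨y, hy, hxy⟩
    rw [QuotientGroup.mk'_apply, QuotientGroup.eq, Subgroup.mem_subgroupOf] at hxy
    have hy' : (y : I) ∈ U := hy
    have h2 : ((y⁻¹ * x : X) : I) ∈ U := h1 hxy
    have h3 : (y : I) * ((y⁻¹ * x : X) : I) = x := by simp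
    rw [← h3]
    exact mul_mem hy' h2
  · intro hx
    exact ⟨x, hx, rfl⟩

lemma card_im {P U X : Subgroup I} (h1 : P ≤ U) (h2 : U ≤ X) :
    Nat.card ((U.subgroupOf X).map (QuotientGroup.mk' (P.subgroupOf X))) = P.relIndex U := by
  rw [← Subgroup.relIndex_bot_left, ← Subgroup.map_bot (QuotientGroup.mk' (P.subgroupOf X)),
    Subgroup.relIndex_map_map, QuotientGroup.ker_mk', bot_sup_eq]
  have h3 : U.subgroupOf X ⊔ P.subgroupOf X = U.subgroupOf X :=
    sup_eq_left.2 (fun x hx => h1 hx)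
  rw [h3, Subgroup.relIndex_subgroupOf h2]

lemma card_add {P U X : Subgroup I} (h1 : P ≤ U) (h2 : U ≤ X)
    (K : AddSubgroup (Additive (X ⧸ P.subgroupOf X)))
    (h : ∀ x : X, Additive.ofMul (x : X ⧸ P.subgroupOf X) ∈ K ↔ (x : I) ∈ U) :
    Nat.card K = P.relIndex U := by
  rw [← card_im h1 h2]
  apply Nat.card_congr
  refine Equiv.subtypeEquiv Additive.toMul ?_
  intro a
  obtain ⟨x, hx⟩ := QuotientGroup.mk_surjective (Additive.toMul a)
  have ha : a = Additive.ofMul (x : X ⧸ P.subgroupOf X) := by rw [hx]; rfl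
  subst ha
  rw [h x]
  exact (mem_im h1 x).symm

end

end ALGR

open _root_.Pool.Agent.RID.ALGR in
theorem t_ALGR (hALG1 : S_ALG1) (hALG2 : S_ALG2) : S_ALGR := by
  intro p m n _ I G _ _ _ g P X hg hnm hPX hfin hP hX hlt
  have hp := Fact.out (p := p.Prime)
  set γ : AddMonoid.End (Additive (X ⧸ P.subgroupOf X)) := ga g P X hP hX with hγ
  have hind : (P.subgroupOf X).FiniteIndex := ⟨hfin⟩
  have hfinC : Finite (X ⧸ P.subgroupOf X) := Subgroup.finite_quotient_of_finiteIndex
  have hfinA : Finite (Additive (X ⧸ P.subgroupOf X)) := hfinC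
  have hcard : Nat.card (Additive (X ⧸ P.subgroupOf X)) = P.relIndex X := rfl
  have hγ1 : γ ^ (p ^ (m + 1)) = 1 := by
    ext a
    obtain ⟨x, hx⟩ := QuotientGroup.mk_surjective (Additive.toMul a)
    have ha : a = Additive.ofMul (x : X ⧸ P.subgroupOf X) := by rw [hx]; rfl
    subst ha
    rw [hγ, ga_pow]
    have : (⟨g ^ (p ^ (m + 1)) • (x : I), pow_smul_mem hX _ x x.2⟩ : X) = x := by
      ext
      simp [hg]
    rw [this]
    rfl
  have hU1 : P ≤ X ⊓ P.comap (dg (g ^ (p ^ n))) := by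
    intro x hx
    refine Subgroup.mem_inf.2 ⟨hPX hx, ?_⟩
    rw [Subgroup.mem_comap, dg_apply]
    exact div_mem hx (pow_smul_mem hP _ x hx)
  have hker : Nat.card (AddMonoidHom.ker (γ ^ (p ^ n) - 1 : AddMonoid.End _)) =
      P.relIndex (X ⊓ P.comap (dg (g ^ (p ^ n)))) := by
    apply card_add hU1 inf_le_left
    intro x
    have h0 : Additive.ofMul (x : X ⧸ P.subgroupOf X) ∈
        AddMonoidHom.ker (γ ^ (p ^ n) - 1 : AddMonoid.End _) ↔ (γ ^ (p ^ n) - 1 : AddMonoid.End _)
        (Additive.ofMul (x : X ⧸ P.subgroupOf X)) = 0 := Iff.rfl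
    rw [h0]
    have h1 : (γ ^ (p ^ n) - 1 : AddMonoid.End _)
        (Additive.ofMul (x : X ⧸ P.subgroupOf X)) =
        (γ ^ (p ^ n)) (Additive.ofMul (x : X ⧸ P.subgroupOf X)) -
          Additive.ofMul (x : X ⧸ P.subgroupOf X) := rfl
    rw [h1, sub_eq_zero, hγ, ga_pow, Additive.ofMul.injective.eq_iff, QuotientGroup.eq,
      Subgroup.mem_subgroupOf, Subgroup.mem_inf, Subgroup.mem_comap, dg_apply]
    have h2 : (((⟨g ^ (p ^ n) • (x : I), pow_smul_mem hX _ x x.2⟩ : X)⁻¹ * x : X) : I) =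
        (x : I) / g ^ (p ^ n) • (x : I) := by
      simp [div_eq_mul_inv, mul_comm]
    rw [h2]
    simp
  have hran : Nat.card
      (AddMonoidHom.range (∑ j ∈ range p, γ ^ (p ^ m * j) : AddMonoid.End _)) =
      P.relIndex (X.map (ng (g ^ (p ^ m)) p) ⊔ P) := by
    have hng : ∀ x ∈ X, ng (g ^ (p ^ m)) p x ∈ X := by
      intro x hx
      rw [ng_apply]
      refine Subgroup.prod_mem _ fun i _ => ?_
      rw [← pow_mul]
      exact pow_smul_mem hX _ x hx
    have hval : ∀ x : X, (∑ j ∈ range p, γ ^ (p ^ m * j) : AddMonoid.End _)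
        (Additive.ofMul (x : X ⧸ P.subgroupOf X)) =
        Additive.ofMul ((⟨ng (g ^ (p ^ m)) p (x : I), hng x x.2⟩ : X) :
          X ⧸ P.subgroupOf X) := by
      intro x
      have h1 : (∑ j ∈ range p, γ ^ (p ^ m * j) : AddMonoid.End _)
          (Additive.ofMul (x : X ⧸ P.subgroupOf X)) =
          ∑ j ∈ range p, (γ ^ (p ^ m * j)) (Additive.ofMul (x : X ⧸ P.subgroupOf X)) := by
        exact AddMonoidHom.finsetSum_apply _ _ _
      rw [h1]
      have h2 : (⟨ng (g ^ (p ^ m)) p (x : I), hng x x.2⟩ : X) =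
          ∏ j ∈ range p, (⟨g ^ (p ^ m * j) • (x : I), pow_smul_mem hX _ x x.2⟩ : X) := by
        ext
        rw [Subgroup.val_finsetProd]
        simp [ng_apply, pow_mul]
      rw [h2]
      have h3 : (((∏ j ∈ range p,
          (⟨g ^ (p ^ m * j) • (x : I), pow_smul_mem hX _ x x.2⟩ : X)) : X) :
          X ⧸ P.subgroupOf X) = ∏ j ∈ range p,
          (((⟨g ^ (p ^ m * j) • (x : I), pow_smul_mem hX _ x x.2⟩ : X)) :
            X ⧸ P.subgroupOf X) := map_prod (QuotientGroup.mk' (P.subgroupOf X)) _ _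
      rw [h3, ofMul_prod]
      refine Finset.sum_congr rfl fun j _ => ?_
      rw [hγ, ga_pow]
    refine card_add le_sup_right (sup_le ?_ hPX) _ ?_
    · rintro _ ⟨x, hx, rfl⟩
      exact hng x hx
    intro x
    have h0 : Additive.ofMul (x : X ⧸ P.subgroupOf X) ∈
        AddMonoidHom.range (∑ j ∈ range p, γ ^ (p ^ m * j) : AddMonoid.End _) ↔
        ∃ b, (∑ j ∈ range p, γ ^ (p ^ m * j) : AddMonoid.End _) b =
          Additive.ofMul (x : X ⧸ P.subgroupOf X) := Iff.rfl
    rw [h0]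
    constructor
    · rintro ⟨b, hb⟩
      obtain ⟨y, hy⟩ := QuotientGroup.mk_surjective (Additive.toMul b)
      have ha : b = Additive.ofMul (y : X ⧸ P.subgroupOf X) := by rw [hy]; rfl
      subst ha
      rw [hval, Additive.ofMul.injective.eq_iff, QuotientGroup.eq,
        Subgroup.mem_subgroupOf] at hb
      have h4 : (x : I) = ng (g ^ (p ^ m)) p (y : I) *
          (((⟨ng (g ^ (p ^ m)) p (y : I), hng y y.2⟩ : X)⁻¹ * x : X) : I) := by
        simp
      rw [h4]
      exact Subgroup.mul_mem_sup (Subgroup.mem_map_of_mem _ y.2) hb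
    · intro hx
      obtain ⟨a, ha, b, hb, hab⟩ := Subgroup.mem_sup.1 hx
      obtain ⟨y, hy, rfl⟩ := ha
      refine ⟨Additive.ofMul ((⟨y, hy⟩ : X) : X ⧸ P.subgroupOf X), ?_⟩
      rw [hval, Additive.ofMul.injective.eq_iff, QuotientGroup.eq,
        Subgroup.mem_subgroupOf]
      have h4 : (((⟨ng (g ^ (p ^ m)) p y, hng y hy⟩ : X)⁻¹ * x : X) : I) = b := by
        rw [Subgroup.coe_mul, Subgroup.coe_inv, ← hab]
        simp
      rw [h4]
      exact hb
  have hnm' : n ≤ m + 1 := le_trans hnm (Nat.le_succ m)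
  have h1 := hALG1 p (m + 1) n (Additive (X ⧸ P.subgroupOf X)) γ hγ1 hnm'
    (by rw [hker]; exact hlt)
  rw [hker] at h1
  have h2 : p ^ n ≤ p ^ m * (p - 1) := by
    have h3 : p ^ n ≤ p ^ m := Nat.pow_le_pow_right hp.pos hnm
    have h4 : 1 ≤ p - 1 := by have := hp.two_le; omega
    calc p ^ n ≤ p ^ m := h3
      _ = p ^ m * 1 := (mul_one _).symm
      _ ≤ p ^ m * (p - 1) := Nat.mul_le_mul_left _ h4
  have h5 := hALG2 p m (Additive (X ⧸ P.subgroupOf X)) γ hγ1
    (lt_of_le_of_lt h1 (lt_of_lt_of_le hlt h2))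
  rw [hran, hcard] at h5
  exact h5.trans (Nat.add_le_add_left h1 _)

end Pool.Agent.RID


end

section

/-!
# Decomposition fields and the growth of class groups: the subgroup generated by fixed elements
-/

open Finset

namespace Pool.Agent.RID

namespace GENA

/-- If `ν i b = b ^ k i` for some `i ∈ l` then `pr b = 1`. -/
lemma pr_eq_one {κ X : Type} [CommGroup X] (l : List κ) (k : κ → ℕ) (ν : κ → X →* X)
    (h : ∀ i ∈ l, ∀ j ∈ l, ∀ x, ν i (ν j x) = ν j (ν i x)) {b : X} {i : κ} (hi : i ∈ l)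
    (hb : ν i b = b ^ k i) : pr l k ν b = 1 := by
  induction l with
  | nil => simp at hi
  | cons j l ih =>
    have ih' := ih fun a ha c hc => h a (by simp [ha]) c (by simp [hc])
    rw [pr_cons]
    rcases List.mem_cons.1 hi with rfl | hi
    · rw [comm_pr l k ν (ν i) (fun a ha x => h i (by simp) a (by simp [ha]) x) b, hb, map_pow,
        div_self']
    · rw [ih' hi, one_pow, map_one, div_one]

/-- A finite index of exponent prime to `p` is prime to `p`. -/
lemma val_zero (p : ℕ) [Fact p.Prime] {I : Type} [CommGroup I] (H K : Subgroup I) (w : ℕ)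
    (hw : w.Coprime p) (h0 : H.relIndex K ≠ 0) (h : ∀ x ∈ K, x ^ w ∈ H) :
    padicValNat p (H.relIndex K) = 0 := by
  rw [padicValNat.eq_zero_iff]
  right
  right
  intro hd
  have e : H.relIndex K = Nat.card (K ⧸ H.subgroupOf K) := rfl
  rw [e] at hd h0
  have hf : Finite (K ⧸ H.subgroupOf K) := Nat.finite_of_card_ne_zero h0
  obtain ⟨x, hx⟩ := exists_prime_orderOf_dvd_card' p hd
  obtain ⟨y, rfl⟩ := QuotientGroup.mk_surjective x
  have h1 : (QuotientGroup.mk y : K ⧸ H.subgroupOf K) ^ w = 1 := by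
    rw [← QuotientGroup.mk_pow, QuotientGroup.eq_one_iff, Subgroup.mem_subgroupOf]
    have h2 := h y y.2
    simpa using h2
  have h2 := orderOf_dvd_of_pow_eq_one h1
  rw [hx] at h2
  have h3 : p ∣ 1 := by
    have h4 := Nat.dvd_gcd h2 (dvd_refl p)
    rwa [Nat.Coprime.gcd_eq_one hw] at h4
  exact (Fact.out : p.Prime).one_lt.ne' (Nat.dvd_one.1 h3)

end GENA

theorem t_GENA : S_GENA := by
  intro p _ I κ _ l k ν P B S hcop hQ hP hfin hνB hB hS
  have hw := wt_coprime l k hcop
  have hP0 : P.index ≠ 0 := by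
    have : P.FiniteIndex := Subgroup.finiteIndex_of_finite_quotient
    exact this.index_ne_zero
  have hPB : P ≤ B := hB ▸ le_sup_left
  have hPX : P ≤ partM l ν P := fun x hx i hi => hP i hi x hx
  set f := pr l k ν with hf
  have hBK : B ≤ P.comap f := by
    rw [hB, sup_le_iff, Subgroup.closure_le]
    refine ⟨fun x hx => pr_mem_stable l k ν P hP hx, fun b hb => ?_⟩
    obtain ⟨i, hi, hb'⟩ := hS b hb
    have h1 : f b = 1 := GENA.pr_eq_one l k ν hQ.2 hi hb'
    show f b ∈ P
    rw [h1]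
    exact one_mem _
  have hK0 : (P.comap f).index ≠ 0 := by
    have h1 := Subgroup.relIndex_mul_index (hPB.trans hBK)
    intro h2
    rw [h2, mul_zero] at h1
    exact hP0 h1.symm
  have hBK0 : B.relIndex (P.comap f) ≠ 0 := by
    have h1 := Subgroup.relIndex_mul_index hPB
    have h2 := Subgroup.relIndex_mul_index hBK
    intro h3
    rw [h3, zero_mul] at h2
    rw [← h2, mul_zero] at h1
    exact hP0 h1.symm
  have v1 : padicValNat p (B.relIndex (P.comap f)) = 0 := by
    refine GENA.val_zero p B _ (wt l k) hw hBK0 fun x hx => ?_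
    have h1 : pr l k ν x / x ^ wt l k ∈ B :=
      pr_partM l k ν B (fun i hi x _ => hνB i hi x) (fun i hi => hνB i hi x)
    have h2 : pr l k ν x ∈ B := hPB hx
    have h3 := div_mem h2 h1
    rwa [div_div_cancel] at h3
  have hfX : f.range ≤ partM l ν P := by
    rintro _ ⟨x, rfl⟩ i hi
    have h1 := mem_part.1 (pr_mem l k ν hQ x) i hi
    show ν i (pr l k ν x) ∈ P
    rw [h1]
    exact one_mem _
  have hsup : f.range ⊔ P ≤ partM l ν P := sup_le hfX hPX
  have e1 := Subgroup.relIndex_mul_relIndex P (f.range ⊔ P) (partM l ν P) le_sup_right hsup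
  have e2 : P.relIndex (f.range ⊔ P) = P.relIndex f.range := by
    rw [Subgroup.relIndex_sup_right]
  have hPX0 : P.relIndex (partM l ν P) ≠ 0 := by
    have h1 := Subgroup.relIndex_mul_index hPX
    intro h2
    rw [h2, zero_mul] at h1
    exact hP0 h1.symm
  have h3 : P.relIndex (f.range ⊔ P) ≠ 0 := left_ne_zero_of_mul (e1 ▸ hPX0)
  have h4 : (f.range ⊔ P).relIndex (partM l ν P) ≠ 0 := right_ne_zero_of_mul (e1 ▸ hPX0)
  have v2 : padicValNat p ((f.range ⊔ P).relIndex (partM l ν P)) = 0 := by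
    refine GENA.val_zero p _ _ (wt l k) hw h4 fun x hx => ?_
    have h5 : pr l k ν x / x ^ wt l k ∈ P := pr_partM l k ν P hP hx
    have h6 : pr l k ν x ∈ f.range ⊔ P := (le_sup_left : f.range ≤ _) ⟨x, rfl⟩
    have h7 := div_mem h6 ((le_sup_right : P ≤ f.range ⊔ P) h5)
    rwa [div_div_cancel] at h7
  rw [← Subgroup.relIndex_mul_index hBK, padicValNat.mul hBK0 hK0, v1, zero_add,
    Subgroup.index_comap, ← e2, ← e1, padicValNat.mul h3 h4, v2, add_zero]

end Pool.Agent.RID


end

section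

/-!
# Module NUS: basic facts on the norms
-/

open NumberField Finset IsDedekindDomain
open scoped nonZeroDivisors Pointwise

namespace Pool.Agent.RID

open Pool.Agent.RI

namespace NUS

section
variable {G X : Type} [Group G] [Finite G] [CommGroup X] [MulDistribMulAction G X]

lemma smul_left (N : Subgroup G) (x : X) (τ : G) (hτ : τ ∈ N) : τ • nuS N x = nuS N x := by
  classical
  letI := Fintype.ofFinite N
  rw [nuS_apply, Finset.smul_prod']
  refine Fintype.prod_equiv (Equiv.mulLeft (⟨τ, hτ⟩ : N)) _ _ fun σ => ?_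
  rw [smul_smul]
  rfl

lemma smul_right (N : Subgroup G) (x : X) (τ : G) (hτ : τ ∈ N) : nuS N (τ • x) = nuS N x := by
  classical
  letI := Fintype.ofFinite N
  rw [nuS_apply, nuS_apply]
  refine Fintype.prod_equiv (Equiv.mulRight (⟨τ, hτ⟩ : N)) _ _ fun σ => ?_
  rw [smul_smul]
  rfl

lemma sq (N : Subgroup G) (x : X) : nuS N (nuS N x) = nuS N x ^ Nat.card N := by
  classical
  letI := Fintype.ofFinite N
  rw [nuS_apply N (nuS N x)]
  rw [Finset.prod_congr rfl fun (σ : N) _ => smul_left N x σ σ.2]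
  rw [Finset.prod_const, Finset.card_univ, Nat.card_eq_fintype_card]

lemma equiv (N : Subgroup G) (x : X) (τ : G) (hN : N.Normal) : τ • nuS N x = nuS N (τ • x) := by
  classical
  letI := Fintype.ofFinite N
  rw [nuS_apply, nuS_apply, Finset.smul_prod']
  refine Fintype.prod_equiv (MulAut.conjNormal (H := N) τ).toEquiv _ _ fun σ => ?_
  rw [smul_smul, smul_smul]
  congr 1
  simp [MulAut.conjNormal_apply]

lemma comm (N N' : Subgroup G) (x : X) (hN : N.Normal) :
    nuS N (nuS N' x) = nuS N' (nuS N x) := by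
  classical
  letI := Fintype.ofFinite N'
  rw [nuS_apply N' x, nuS_apply N' (nuS N x), map_prod]
  exact Finset.prod_congr rfl fun σ _ => (equiv N x (σ : G) hN).symm

end

end NUS

theorem t_NUS : S_NUS := by
  refine ⟨?_, ?_, ?_, ?_, ?_, ?_⟩
  · intro G X _ _ _ _ N x
    exact NUS.sq N x
  · intro G X _ _ _ _ N x τ hτ
    exact ⟨NUS.smul_left N x τ hτ, NUS.smul_right N x τ hτ⟩
  · intro G X _ _ _ _ N x τ hN
    exact NUS.equiv N x τ hN
  · intro G X _ _ _ _ N N' x hN
    exact NUS.comm N N' x hN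
  · intro F L _ _ _ _ _ N x
    classical
    letI := Fintype.ofFinite N
    rw [nuS_apply, nuS_apply, map_prod]
    exact Finset.prod_congr rfl fun σ _ => (smul_prin _ _).symm
  · intro F L κ _ _ _ _ _ l N hN
    have hpr : ∀ (M : Subgroup (L ≃ₐ[F] L)) (x : Lˣ), prin (nuS M x) = nuS M (prin x) := by
      intro M x
      classical
      letI := Fintype.ofFinite M
      rw [nuS_apply, nuS_apply, map_prod]
      exact Finset.prod_congr rfl fun σ _ => (smul_prin _ _).symm
    refine ⟨⟨fun i _ x => NUS.sq _ x, fun i hi j _ x => NUS.comm _ _ x (hN i hi)⟩,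
      ⟨fun i _ x => NUS.sq _ x, fun i hi j _ x => NUS.comm _ _ x (hN i hi)⟩, ?_, ?_⟩
    · rintro _ ⟨x, rfl⟩
      intro i _
      exact ⟨nuS (N i) x, hpr (N i) x⟩
    · intro σ x hx i hi
      obtain ⟨y, hy⟩ := hx i hi
      refine ⟨σ • y, ?_⟩
      change prin (σ • y) = nuS (N i) (σ • x)
      rw [← NUS.equiv _ _ _ (hN i hi)]
      have : σ • prin y = prin (σ • y) := smul_prin _ _
      rw [← this, hy]

end Pool.Agent.RID


end

section

/-!
# Decomposition fields: norms for corresponding subgroups and extension (RES)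
-/

open NumberField Finset
open scoped nonZeroDivisors Pointwise

namespace Pool.Agent.RID

open Pool.Agent.RI

namespace RES

/-- Reindexing of a product of conjugates. -/
lemma reindex {G H X Y : Type} [Group G] [Finite G] [Group H] [Finite H] [CommGroup X]
    [CommGroup Y] [MulDistribMulAction G X] [MulDistribMulAction H Y] (N : Subgroup G)
    (N' : Subgroup H) (f : Y →* X) (e : N' ≃ N)
    (h : ∀ (σ : N') (y : Y), f ((σ : H) • y) = ((e σ : N) : G) • f y) (y : Y) :
    f (nuS N' y) = nuS N (f y) := by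
  classical
  letI := Fintype.ofFinite N
  letI := Fintype.ofFinite N'
  rw [nuS_apply, nuS_apply, map_prod]
  refine Fintype.prod_equiv e _ _ fun σ => h σ y

end RES

theorem t_RES : S_RES := by
  intro F K L _ _ _ _ _ _ _ _ _ _ N' N hm
  obtain ⟨e, he⟩ := hm
  constructor
  · intro c
    refine RES.reindex N N' (ext K L) e (fun σ y => ?_) c
    exact EXTACT_thm F K F L ((e σ : N) : L ≃ₐ[F] L) (σ : K ≃ₐ[F] K) (fun x => he σ x) y
  · intro x
    refine RES.reindex N N' (Units.map (algebraMap K L : K →* L)) e (fun σ y => ?_) x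
    apply Units.ext
    exact he σ (y : K)

end Pool.Agent.RID


end

section

/-!
# Decomposition fields: the groups `Gal(K M / E M)`
-/

open NumberField
open scoped nonZeroDivisors Pointwise

namespace Pool.Agent.RID

open Pool.Agent.RI Pool.Agent.RI.TSTEP

namespace SCN

/-- Automorphisms preserve Galois subfields. -/
theorem stable {F D L : IntermediateField ℚ ℂ} (h : F ≤ L) (hD : F ≤ D) (hDL : D ≤ L)
    (hg : IsGalois F (IntermediateField.extendScalars hD)) :
    letI := algC h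
    ∀ (τ : L ≃ₐ[F] L) (x : L), (x : ℂ) ∈ D → ((τ x : L) : ℂ) ∈ D := by
  letI a1 := algC h
  letI a2 := algC hD
  letI a3 := algC hDL
  have t1 : IsScalarTower F D L := towerC hD hDL
  have : IsGalois F D := (isGalois_algC hD).2 hg
  intro τ x hx
  have h1 := AlgEquiv.restrictNormal_commutes τ D ⟨(x : ℂ), hx⟩
  have h2 : algebraMap D L ⟨(x : ℂ), hx⟩ = x := rfl
  rw [h2] at h1
  rw [← h1]
  exact (τ.restrictNormal D ⟨(x : ℂ), hx⟩).2

/-- An automorphism of `K M` that fixes `K` and `M` is trivial. -/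
theorem eq_one {F K M : IntermediateField ℚ ℂ} (h : F ≤ K ⊔ M) :
    letI := algC h
    ∀ (τ : ↥(K ⊔ M) ≃ₐ[F] ↥(K ⊔ M)), (∀ x : ↥(K ⊔ M), (x : ℂ) ∈ K → τ x = x) →
      (∀ x : ↥(K ⊔ M), (x : ℂ) ∈ M → τ x = x) → τ = 1 := by
  letI a1 := algC h
  intro τ h1 h2
  let T : IntermediateField ℚ ℂ :=
    { carrier := {z | ∃ hz : z ∈ K ⊔ M, τ (⟨z, hz⟩ : ↥(K ⊔ M)) = ⟨z, hz⟩}
      mul_mem' := by
        rintro a b ⟨ha, ha'⟩ ⟨hb, hb'⟩
        refine ⟨mul_mem ha hb, ?_⟩
        have e : (⟨a * b, mul_mem ha hb⟩ : ↥(K ⊔ M)) = ⟨a, ha⟩ * ⟨b, hb⟩ := rfl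
        rw [e, map_mul, ha', hb']
      add_mem' := by
        rintro a b ⟨ha, ha'⟩ ⟨hb, hb'⟩
        refine ⟨add_mem ha hb, ?_⟩
        have e : (⟨a + b, add_mem ha hb⟩ : ↥(K ⊔ M)) = ⟨a, ha⟩ + ⟨b, hb⟩ := rfl
        rw [e, map_add, ha', hb']
      algebraMap_mem' := by
        intro r
        refine ⟨algebraMap_mem _ r, ?_⟩
        exact h1 _ (algebraMap_mem K r)
      inv_mem' := by
        rintro a ⟨ha, ha'⟩
        refine ⟨inv_mem ha, ?_⟩
        have e : (⟨a⁻¹, inv_mem ha⟩ : ↥(K ⊔ M)) = (⟨a, ha⟩ : ↥(K ⊔ M))⁻¹ := rfl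
        rw [e, map_inv₀, ha'] }
  have hT : K ⊔ M ≤ T := by
    apply sup_le
    · intro a ha
      exact ⟨le_sup_left (a := K) ha, h1 _ ha⟩
    · intro b hb
      exact ⟨le_sup_right (a := K) hb, h2 _ hb⟩
  ext x
  obtain ⟨hx, hx'⟩ := hT x.2
  show ((τ x : ↥(K ⊔ M)) : ℂ) = x
  rw [show τ x = x from hx']

/-- The order of `NC`. -/
theorem card_NC {F D L : IntermediateField ℚ ℂ} [FiniteDimensional ℚ L] (h : F ≤ L)
    (hD : F ≤ D) (hDL : D ≤ L) (hg : IsGalois D (IntermediateField.extendScalars hDL)) :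
    letI := algC h
    Nat.card (NC h D) = Module.finrank D (IntermediateField.extendScalars hDL) := by
  letI a1 := algC h
  letI a2 := algC hD
  letI a3 := algC hDL
  have t1 : IsScalarTower F D L := towerC hD hDL
  have hg' : IsGalois D L := (isGalois_algC hDL).2 hg
  have fdD : FiniteDimensional ℚ D := fd_of_le hDL
  have fdL : FiniteDimensional D (IntermediateField.extendScalars hDL) := BCH.fin_ext hDL
  have fdL' : FiniteDimensional D L :=
    Module.Finite.equiv (extEquiv hDL).toLinearEquiv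
  let e : NC h D ≃ (L ≃ₐ[D] L) :=
    { toFun := fun σ => { (σ : L ≃ₐ[F] L) with
        commutes' := fun y => σ.2 (algebraMap D L y) y.2 }
      invFun := fun σ => ⟨σ.restrictScalars F, fun x hx => σ.commutes ⟨(x : ℂ), hx⟩⟩
      left_inv := fun σ => rfl
      right_inv := fun σ => rfl }
  rw [Nat.card_congr e, IsGalois.card_aut_eq_finrank D L]
  exact finrank_algC hDL

end SCN

theorem t_SCN : S_SCN := by
  intro p _ F K M fdK fdM l hCD h
  letI a1 := algC h
  intro E hE
  obtain ⟨hBCH1, hBCH2⟩ := BCH_thm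
  obtain ⟨hFE, hEK, gE⟩ := hCD.mem E hE
  have hK := hCD.hK
  have hM := hCD.hM
  have gK := hCD.gK
  have gM := hCD.gM
  have fdE : FiniteDimensional ℚ E := fd_of_le hEK
  have fdF : FiniteDimensional ℚ F := fd_of_le hK
  have hFD : F ≤ E ⊔ M := hFE.trans le_sup_left
  have hDL : E ⊔ M ≤ K ⊔ M := sup_le_sup_right hEK M
  have gD : IsGalois F (IntermediateField.extendScalars hFD) := hBCH2 F E M hFE hM hFD gE gM
  refine ⟨⟨?_⟩, ?_, ?_⟩
  · intro σ hσ τ x hx
    have h1 : ((τ⁻¹ x : ↥(K ⊔ M)) : ℂ) ∈ E ⊔ M := SCN.stable h hFD hDL gD τ⁻¹ x hx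
    rw [AlgEquiv.mul_apply, AlgEquiv.mul_apply, hσ _ h1, ← AlgEquiv.mul_apply, mul_inv_cancel,
      AlgEquiv.one_apply]
  · have gEK : IsGalois E (IntermediateField.extendScalars hEK) := by
      letI a2 := algC hFE
      letI a3 := algC hEK
      letI a4 := algC hK
      have t1 : IsScalarTower F E K := towerC hFE hEK
      have : IsGalois F K := (isGalois_algC hK).2 gK
      have : IsGalois E K := IsGalois.tower_top_of_isGalois F E K
      exact (isGalois_algC hEK).1 this
    obtain ⟨g1, g2⟩ := hBCH1 E K M (E ⊔ M) (K ⊔ M) hEK hDL rfl rfl gEK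
    rw [SCN.card_NC h hFD hDL g1]
    have h2 : Module.finrank F (IntermediateField.extendScalars hFE) *
        Module.finrank E (IntermediateField.extendScalars hEK) =
        Module.finrank F (IntermediateField.extendScalars hK) := CHIEF.finrank_mul hFE hEK
    have h3 : (Module.finrank F (IntermediateField.extendScalars hK)).Coprime p :=
      ((Nat.Prime.coprime_iff_not_dvd (Fact.out : p.Prime)).2 hCD.copK).symm
    exact Nat.Coprime.coprime_dvd_left (g2.trans (Dvd.intro_left _ h2)) h3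
  · intro g hg σ hσ
    have h1 : (g * σ)⁻¹ * (σ * g) = 1 := by
      apply SCN.eq_one h
      · intro x hx
        have h2 : ((σ x : ↥(K ⊔ M)) : ℂ) ∈ K := SCN.stable h hK le_sup_left gK σ x hx
        rw [AlgEquiv.mul_apply, AlgEquiv.mul_apply, hg x hx]
        have h3 : (g * σ) x = σ x := by rw [AlgEquiv.mul_apply, hg _ h2]
        rw [← h3, ← AlgEquiv.mul_apply, inv_mul_cancel, AlgEquiv.one_apply]
      · intro x hx
        have h2 : ((g x : ↥(K ⊔ M)) : ℂ) ∈ M := SCN.stable h hM le_sup_right gM g x hx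
        have h4 : σ (g x) = g x := hσ _ (le_sup_right (a := E) h2)
        have h5 : σ x = x := hσ _ (le_sup_right (a := E) hx)
        rw [AlgEquiv.mul_apply, AlgEquiv.mul_apply, h4]
        have h3 : (g * σ) x = g x := by rw [AlgEquiv.mul_apply, h5]
        rw [← h3, ← AlgEquiv.mul_apply, inv_mul_cancel, AlgEquiv.one_apply]
    exact (inv_mul_eq_one.mp h1).symm

end Pool.Agent.RID


end

section

/-!
# Decomposition fields and the growth of class groups: a further statement
-/

open NumberField Finset IsDedekindDomain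
open scoped nonZeroDivisors Pointwise

namespace Pool.Agent.RID

open Pool.Agent.RI

/-- SGL: `e(M)` for the set `{F}`.
Proof. `D = F ⊔ M = M`, `L = K ⊔ M` is Galois over `M` of degree dividing `[K : F]` (`BCH_thm`), prime to `p`.
`fromSub L {M}` is the image of `j : Cl(M) → Cl(L)`, `c ↦ c 𝓞_L` (generators are images; every class of `Cl(M)` is the
class of an integral ideal), and the kernel of `j` is killed by `[L : M]` (norm, `nm_ext` in `Pool/Agent/RI/CL.lean`,
`ext_injective`; or in terms of `J`, `prin`, `ext`), so `v_p |fromSub| = v_p h(M)`, and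
`h(L) = index * |fromSub|`. -/
def S_SGL : Prop := ∀ (p : ℕ) [Fact p.Prime] (F K M : IntermediateField ℚ ℂ)
    [FiniteDimensional ℚ K] [FiniteDimensional ℚ M] (hK : F ≤ K) (_ : F ≤ M),
    IsGalois F (IntermediateField.extendScalars hK) →
    ¬ p ∣ Module.finrank F (IntermediateField.extendScalars hK) →
    eOf p K M {F} + padicValNat p (classNo M) = padicValNat p (classNo (K ⊔ M))

end Pool.Agent.RID


end

section

/-!
# OT (Theorem T+, problem MP_b78433_nt), block E (helper60): extensions of `p`-power degree, relative version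

AIM (`Se_PEX`): `K/F` Galois of degree prime to `p`, `M/F` Galois of `p`-power degree, `F` totally complex. If `v_p h(K B_n) ≤ v_p h(F B_n) + poly(n)`
then `v_p h(K M B_n) ≤ v_p h(M B_n) + poly(n)` (`B_n` the layers of the cyclotomic `ℤ_p`-extension of `ℚ`).

Every `def Se_X : Prop` is the statement of a module; it is proved as `theorem te_X (h : Se_Y) .. : Se_X` in `Pool/Agent/OT/E_X.lean`, namespace `Pool.Agent.OTE` (private
lemmas in `Pool.Agent.OTE.X`), where the `Se_Y` are the statements named after USES (or fewer). Files import originals (RI, RID, MU3, OB, MUX, ..), never MVF.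
PROVED and usable without hypotheses (how to plug them: `Pool/Agent/RID/Final.lean`): all `RID.t_X` (`RID/P_X.lean`): `t_CYC`, `t_RES`, `t_NUS`, `t_HERBQ (t_HQ1) (t_HQ3 ..)`, `t_RK1`, `t_RK2`, `t_RK3`, `t_ALG2`, `t_SCN`,
`t_SCM`, `t_SCI`, `t_NRM`, `t_GCC`, `t_SGL`, `t_GENA`; `MU3.n_..` (`MU3/N_*.lean`), `MU3.u_..` (`MU3/PAll.lean`); `CHIEF_thm`, `BCH_thm`, `LAY_thm`, `INF_thm`, `RAMB_thm` of RI.
-/

set_option autoImplicit false

open NumberField IsDedekindDomain Finset
open scoped nonZeroDivisors Pointwise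

namespace Pool.Agent.OTE

open _root_.Pool.Agent.RI _root_.Pool.Agent.RID _root_.Pool.Agent.MU3 _root_.MU3

/-! ## One cyclic step -/

/-- `RID.AD` without the field `inv`. -/
structure AD0 (p q : ℕ) {A I A' I' G κ : Type} [CommGroup A] [CommGroup I] [CommGroup A']
    [CommGroup I'] [Group G] [MulDistribMulAction G A] [MulDistribMulAction G I] (l : List κ)
    (k : κ → ℕ) (νA : κ → A →* A) (νI : κ → I →* I) (νA' : κ → A' →* A') (νI' : κ → I' →* I')
    (dv : A →* I) (dv' : A' →* I') (ι : A' →* A) (ε : I' →* I) (g : G) : Prop where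
  cop : ∀ i ∈ l, (k i).Coprime p
  qA : QP l k νA
  qI : QP l k νI
  gq : g ^ q = 1
  dvg : ∀ x, dv (g • x) = g • dv x
  gA : ∀ i ∈ l, ∀ x, g • νA i x = νA i (g • x)
  gI : ∀ i ∈ l, ∀ x, g • νI i x = νI i (g • x)
  dvν : ∀ i ∈ l, ∀ x, dv (νA i x) = νI i (dv x)
  sq : ∀ x, ε (dv' x) = dv (ι x)
  εν : ∀ i ∈ l, ∀ x, ε (νI' i x) = νI i (ε x)
  ιν : ∀ i ∈ l, ∀ x, ι (νA' i x) = νA i (ι x)
  εinj : Function.Injective ε
  gε : ∀ x, g • ε x = ε x
  gι : ∀ x, g • ι x = ι x
  h90 : ∀ x : A, ng g q x = 1 → ∃ y, x = y / g • y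
  fixA : ∀ x : A, g • x = x → ∃ y, ι y = x
  fin : Finite (I ⧸ dv.range)
  fin' : Finite (I' ⧸ dv'.range)

/-- (ABR) the ambiguous classes, abstract form, with ramification.

PROOF (models: `RID/P_ABS1.lean`, `RID/P_ABS2.lean`, almost the same proof). Names: `P = dv.range`, `P' = dv'.range`, `E = dv.ker ⊓ part l νA`, `w = wt l k`, `pr = pr l k ν`, `U⁺ = partM l νI P ⊓ P.comap (dg g)`, `N₀ = E.map (ng g q)`, `B₀ = E ⊓ (dg g).ker`, `B₁ = E.map (dg g)`, `Z₁ = E ⊓ (ng g q).ker`,
`V = part l νI ⊓ (dg g).ker`, `X = (part l νI').map ε ≤ V`, `W = (part l νI' ⊓ P').map ε ≤ V ⊓ P`.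
(1) as in ABS1: `Γ`, `Γ₀`, `U₀`: `[U⁺ : U₀]` divides `[B₀ : N₀]`, `P ≤ U₀`, `V ≤ U₀` (for `b ∈ V` take `x = 1`), and for `b ∈ U₀`: `b ^ (w w) ∈ V ⊔ P` (the element `b₁ = y ^ w / dv y₁` is in `V`; no `inv` needed). So `v_p [U⁺ : P] ≤ v_p [B₀ : N₀] + v_p [V ⊔ P : P]`, `[V ⊔ P : P] = [V : V ⊓ P]`.
(2) `[V : V ⊓ P] [V ⊓ P : W] = [V : W] = [V : X] [X : W]` and `[X : W] = [part l νI' : part l νI' ⊓ P']` (`ε` injective) divides `[partM l νI' P' : P']` (`part l νI' ≤ partM l νI' P'`; `P' ≤ partM l νI' P'`: `νI' i (dv' a)` is `dv' (νA' i a)` by `εinj`).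
(3) `v_p [Z₁ : B₁] ≤ v_p [V ⊓ P : W]`: as in ABS2 with `Λ` = the set of the `(u, b)`, `u ∈ Z₁`, `b ∈ V ⊓ P`, such that there is `y ∈ part l νA` with `u ^ w = dg g y`, `dv y = b`: onto `Z₁` (`h90`, `y = pr y₀`), and if `b ∈ W`, `b = ε (dv' a) = dv (ι a)`, then `y = ι a v`, `dv v = 1`, `u ^ w = dg g v`, `u ^ (w w) = dg g (pr v) ∈ B₁`.
All indices are finite and not `0` (`fin`, `fin'`, the hypotheses). -/
def Se_ABR : Prop := ∀ (p q : ℕ) [Fact p.Prime] (A I A' I' G κ : Type) [CommGroup A]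
    [CommGroup I] [CommGroup A'] [CommGroup I'] [Group G] [MulDistribMulAction G A]
    [MulDistribMulAction G I] (l : List κ) (k : κ → ℕ) (νA : κ → A →* A) (νI : κ → I →* I)
    (νA' : κ → A' →* A') (νI' : κ → I' →* I') (dv : A →* I) (dv' : A' →* I') (ι : A' →* A)
    (ε : I' →* I) (g : G), AD0 p q l k νA νI νA' νI' dv dv' ι ε g →
    ((dv.ker ⊓ part l νA).map (ng g q)).relIndex (dv.ker ⊓ part l νA ⊓ (dg g).ker) ≠ 0 →
    ((dv.ker ⊓ part l νA).map (dg g)).relIndex (dv.ker ⊓ part l νA ⊓ (ng g q).ker) ≠ 0 →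
    ((part l νI').map ε).relIndex (part l νI ⊓ (dg g : I →* I).ker) ≠ 0 →
    padicValNat p (dv.range.relIndex (partM l νI dv.range ⊓ dv.range.comap (dg g))) +
      padicValNat p
        (((dv.ker ⊓ part l νA).map (dg g)).relIndex (dv.ker ⊓ part l νA ⊓ (ng g q).ker)) ≤
      padicValNat p
        (((dv.ker ⊓ part l νA).map (ng g q)).relIndex (dv.ker ⊓ part l νA ⊓ (dg g).ker)) +
      padicValNat p (dv'.range.relIndex (partM l νI' dv'.range)) +
      padicValNat p (((part l νI').map ε).relIndex (part l νI ⊓ (dg g : I →* I).ker))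

/-- `RID.Sys` without the field `ram`. -/
structure Sy0 (p : ℕ) (F K L : Type) {κ : Type} [Field F] [NumberField F] [Field K]
    [NumberField K] [Field L] [NumberField L] [Algebra F K] [Algebra F L] [Algebra K L]
    [IsScalarTower F K L] (l : List κ) (N' : κ → Subgroup (K ≃ₐ[F] K))
    (N : κ → Subgroup (L ≃ₐ[F] L)) (g : L ≃ₐ[F] L) (a : ℕ) : Prop where
  galK : IsGalois F K
  galL : IsGalois F L
  ne : l ≠ []
  cyc : CycExt F K L g (p ^ a)
  nrm : ∀ i ∈ l, (N i).Normal
  nrm' : ∀ i ∈ l, (N' i).Normal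
  cop : ∀ i ∈ l, (Nat.card (N i)).Coprime p
  com : ∀ i ∈ l, ∀ σ ∈ N i, σ * g = g * σ
  mat : ∀ i ∈ l, Match (N' i) (N i)
  inf : Nat.card (InfinitePlace L) = p ^ a * Nat.card (InfinitePlace K)

/-- (RK4) `RID.S_RK4` for `Sy0`.

PROOF. Copy `RID/P_RK4.lean`: the field `ram` is not used there. -/
def Se_RK4 : Prop := ∀ (p a : ℕ) [Fact p.Prime] (F K L κ : Type) [Field F] [NumberField F]
    [Field K] [NumberField K] [Field L] [NumberField L] [Algebra F K] [Algebra F L]
    [Algebra K L] [IsScalarTower F K L] (l : List κ) (N' : κ → Subgroup (K ≃ₐ[F] K))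
    (N : κ → Subgroup (L ≃ₐ[F] L)) (g : L ≃ₐ[F] L), Sy0 p F K L l N' N g a → ∀ i ≤ a,
    Module.finrank ℤ (Additive (WU l N (Subgroup.zpowers (g ^ (p ^ i))))) =
      p ^ i * Module.finrank ℤ (Additive (WU l N (Subgroup.zpowers g)))

/-- (STC) the relative Chevalley inequality.

USES ABR, RK4. PROOF. As `RID/P_STEPC.lean` (`mkAD` without `inv`; HERBQ gives `[B₀ : N₀] = [Z₁ : B₁] ≠ 0`), with ABR. The last term: `(part l νI').map (ext K L) = part l νI ⊓ (ext K L).range` (`RES`, `ext_injective`), so its index in `part l νI ⊓ (dg g).ker` is the index of `(ext K L).range` in that group, which divides (or is at most, and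
not `0`) the index in `(dg g).ker`, which is `≤ (p^a)^|S|` and not `0` by `N_AMBI` (`MU3/N_AMBI.lean`); so its `v_p` is at most `a |S|`. -/
def Se_STC : Prop := ∀ (p a : ℕ) [Fact p.Prime] (F K L κ : Type) [Field F] [NumberField F]
    [Field K] [NumberField K] [Field L] [NumberField L] [Algebra F K] [Algebra F L]
    [Algebra K L] [IsScalarTower F K L] (l : List κ) (N' : κ → Subgroup (K ≃ₐ[F] K))
    (N : κ → Subgroup (L ≃ₐ[F] L)) (g : L ≃ₐ[F] L), Sy0 p F K L l N' N g a →
    ∀ S : Finset (HeightOneSpectrum (𝓞 K)),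
    (∀ w : HeightOneSpectrum (𝓞 L), w.asIdeal.ramificationIdx (𝓞 K) ≠ 1 →
      ∃ v ∈ S, w.asIdeal.under (𝓞 K) = v.asIdeal) →
    padicValNat p ((prin : Lˣ →* J L).range.relIndex
      (XsJ l N ⊓ (prin : Lˣ →* J L).range.comap (dg g))) ≤
    padicValNat p ((prin : Kˣ →* J K).range.relIndex (XsJ l N')) + a * S.card

/-- `v_p |X / P|`, `P` the principal ideals. -/
noncomputable def vX (p : ℕ) (L : Type) [Field L] [NumberField L] (X : Subgroup (J L)) : ℕ :=
  padicValNat p ((_root_.MU3.PI L).relIndex X)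

/-- `v_p |(X / P)[p]|`. -/
noncomputable def rX (p : ℕ) (L : Type) [Field L] [NumberField L] (X : Subgroup (J L)) : ℕ :=
  padicValNat p (Nat.card {c : J L ⧸ _root_.MU3.PI L // (∃ b ∈ X, (b : J L ⧸ _root_.MU3.PI L) = c) ∧
    c ^ p = 1})

/-- (RNK) the rank of `X / P` and the ambiguous classes.

PROOF. `N_NIL` (`MU3/N_NIL.lean`), `l = p`, for the group `A = X / P` (additive), `γ` induced by `g`; model: `MU3/P_RKA.lean`, `MU3/N_NILR.lean` (there `X = ⊤`), and `ALGR.ga` in `RID/P_ALGR.lean` for a quotient `X / P`. `(γ - 1)^p = p h(γ)` up to sign as `γ^p = 1`. -/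
def Se_RNK : Prop := ∀ (p : ℕ) [Fact p.Prime] (F L : Type) [Field F] [Field L]
    [NumberField L] [Algebra F L] (g : L ≃ₐ[F] L) (X : Subgroup (J L)), g ^ p = 1 →
    _root_.MU3.PI L ≤ X → (∀ x ∈ X, g • x ∈ X) →
    rX p L X ≤ p * padicValNat p ((_root_.MU3.PI L).relIndex (X ⊓ (_root_.MU3.PI L).comap (dg g)))

/-- (STP) one step of a tower for `X / P`.

PROOF. `t_ALG2` for `A = X / P`; model: the second half of `RID/P_ALGR.lean` (`t_ALGR`; `ALGR.ga` and the lemmas there), without ALG1. -/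
def Se_STP : Prop := ∀ (p m : ℕ) [Fact p.Prime] (F L : Type) [Field F] [Field L]
    [NumberField L] [Algebra F L] (g : L ≃ₐ[F] L) (X : Subgroup (J L)),
    g ^ (p ^ (m + 1)) = 1 → _root_.MU3.PI L ≤ X → (∀ x ∈ X, g • x ∈ X) →
    rX p L X < p ^ m * (p - 1) →
    vX p L X ≤ padicValNat p ((_root_.MU3.PI L).relIndex
      (X.map (ng (g ^ (p ^ m)) p) ⊔ _root_.MU3.PI L)) + rX p L X

/-! ## Subfields of `ℂ` -/

/-- `K/F` Galois of degree prime to `p`, `M/F` Galois of `p`-power degree, `F` totally complex. -/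
structure C0 (p : ℕ) (F K M : IntermediateField ℚ ℂ) : Prop where
  hK : F ≤ K
  hM : F ≤ M
  gK : IsGalois F (IntermediateField.extendScalars hK)
  copK : ¬ p ∣ Module.finrank F (IntermediateField.extendScalars hK)
  gM : IsGalois F (IntermediateField.extendScalars hM)
  degM : ∃ a : ℕ, Module.finrank F (IntermediateField.extendScalars hM) = p ^ a
  tc : TotCx F

/-- the ideals of `K M` whose norm to `M` is principal -/
noncomputable def XF (F K M : IntermediateField ℚ ℂ) [FiniteDimensional ℚ F]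
    [FiniteDimensional ℚ ↥(K ⊔ M)] (h : F ≤ K ⊔ M) : Subgroup (J ↥(K ⊔ M)) :=
  letI := algC h
  XsJ [F] (fun E => NC h (E ⊔ M))

/-- (SY0) the situation of one step.

PROOF. `CD p F K M [F, K]` holds: `ram` is clear because `K ∈ [F, K]` (`E = K`: `OnlyAbove le_rfl P`), `inf` from `TotCx F` (an embedding of `M` which is real on `F` does not exist), `mem`: `F`, `K`. So `t_SCN`, `t_SCM t_SCN`, `t_SCI`, `t_CDR` give everything for `E = F ∈ [F, K]`, as in `RID/P_SYSC.lean`. -/
def Se_SY0 : Prop := ∀ (p a : ℕ) [Fact p.Prime] (F K M' M : IntermediateField ℚ ℂ)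
    [FiniteDimensional ℚ F] [FiniteDimensional ℚ K] [FiniteDimensional ℚ M']
    [FiniteDimensional ℚ M], C0 p F K M →
    ∀ (h₁ : F ≤ M'), M' ≤ M → IsGalois F (IntermediateField.extendScalars h₁) →
    ∀ (h : F ≤ K ⊔ M') (h' : K ⊔ M' ≤ K ⊔ M),
    letI := algC h
    letI := algC h'
    letI := algC (h.trans h')
    letI := towerC h h'
    ∀ g : ↥(K ⊔ M) ≃ₐ[F] ↥(K ⊔ M), CycExt F ↥(K ⊔ M') ↥(K ⊔ M) g (p ^ a) →
      Sy0 p F ↥(K ⊔ M') ↥(K ⊔ M) [F] (fun E => NC h (E ⊔ M'))
        (fun E => NC (h.trans h') (E ⊔ M)) g a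

/-- (IDX) the class numbers.

PROOF. Either `t_SGL` (`eOf p K M {F} + v_p h(M) = v_p h(K M)`) and the proof of `t_GENC` (`RID/P_GENC.lean`; the field `ram` of `CD` is not needed; or use that lemma for `l = [F]` after copying it), or directly: `A = J L ⧸ PI L`, `L = K M`, the endomorphism induced by the norm to `M` (`CL.nm M L`, which is `nuS (NC h (F ⊔ M))`, `F ⊔ M = M`; see
`P_GENC`), kernel `XF / P`, image = the image of `Cl(M)` up to groups of order prime to `p` (`CL.nm_mem`, `CL.nm_ext`; `ext` is injective on the `p`-part because `[L : M]` is prime to `p`); compare `OB/F_RIX.lean`. `L/M` is Galois of degree dividing `[K : F]` (`BCH_thm`). -/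
def Se_IDX : Prop := ∀ (p : ℕ) [Fact p.Prime] (F K M : IntermediateField ℚ ℂ)
    [FiniteDimensional ℚ F] [FiniteDimensional ℚ K] [FiniteDimensional ℚ M], C0 p F K M →
    ∀ h : F ≤ K ⊔ M,
    vX p ↥(K ⊔ M) (XF F K M h) + padicValNat p (classNo M) = padicValNat p (classNo (K ⊔ M))

/-- (RKL) the ranks at the layers, `[M : M'] = p`.

USES STC, RNK, SY0, IDX. PROOF. Model: `MU3/P_RKE.lean` (`P_RKE`). `t` from `P_BAD`, `P_NPL` (for `F := K M'`, `L := K M`; `MU3.u_..`). Fix `n`, `M'_n = M' ⊔ B n ≤ M_n = M ⊔ B n`, both Galois over `F` of `p`-power degree (`BCH_thm`; `B n / ℚ` Galois of degree `p^n`, `LAY_thm`); `[K M_n : K M'_n]` is `1` or `p` (it divides `p`: `BCH_thm`). Degree `1`: `K M_n = K M'_n`, so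
`M_n = M'_n` (the degrees over `F` are `[K : F] [M_n : F]`, `BCH_thm`/coprime degrees), `rX ≤ vX` and IDX. Degree `p`: a generator `g` of `Gal(K M_n / K M'_n)`, as an automorphism over `F`, `CycExt .. g (p ^ 1)`; SY0, STC with `a = 1`, `S` = the primes of `K M'_n` which contain some bad prime number; RNK with `X = XF` (stable: `NUS`); IDX for `M'_n`. -/
def Se_RKL : Prop := ∀ (p : ℕ) [Fact p.Prime] (F K M' M : IntermediateField ℚ ℂ)
    [FiniteDimensional ℚ F] [FiniteDimensional ℚ K] [FiniteDimensional ℚ M']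
    [FiniteDimensional ℚ M] (B : ℕ → IntermediateField ℚ ℂ) [∀ n, FiniteDimensional ℚ (B n)],
    C0 p F K M → ∀ (h₁ : F ≤ M') (h₂ : M' ≤ M), IsGalois F (IntermediateField.extendScalars h₁) →
    Module.finrank M' (IntermediateField.extendScalars h₂) = p → (∀ n, IsLayer p n (B n)) →
    ∃ t : ℕ, ∀ (n : ℕ) (h : F ≤ K ⊔ (M ⊔ B n)),
      rX p ↥(K ⊔ (M ⊔ B n)) (XF F K (M ⊔ B n) h) + p * padicValNat p (classNo (M' ⊔ B n)) ≤
        p * (padicValNat p (classNo (K ⊔ (M' ⊔ B n))) + t)

/-- (TWR) one step of the tower over `K M`.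

USES STP, IDX. PROOF. Models: `MU3/P_TOW.lean`, `MU3/P_LST.lean` (`P_TOW`, `P_LST` for the field `K M`: `K ⊔ (M ⊔ B n) = (K ⊔ M) ⊔ B n`, `sup_assoc`), `RID/P_NRM.lean` (`S_NRM`: for `b ∈ XsJ l N` there is `c ∈ XsJ l N'` with `ext c = ng g q b`), `OB/F_RST.lean`. `[K M : ℚ] ≤ [K : ℚ] [M : ℚ]`. If `K M B_(n+1) ≠ K M B_n`: `g` (over `K M`, restrict to `F`) of order
`p^(m+1)`, `p^n ≤ p^m [K M : ℚ]`, `g^(p^m)` generates `Gal(K M B_(n+1) / K M B_n)`; the hypothesis gives `rX < p^m (p - 1)`; STP; SY0 (only the part `Match`, `com`) for `M' := M ⊔ B n`, `M := M ⊔ B (n+1)` and `t_NRM` give that `X.map (ng (g^(p^m)) p) ⊔ P` is contained in `(XF ..).map ext ⊔ P`, so the first term of STP is at most `vX` for `n`; IDX for both. If the fields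
`K M B_n`, `K M B_(n+1)` are equal, then so are `M B_n`, `M B_(n+1)` (degrees over `F`). -/
def Se_TWR : Prop := ∀ (p : ℕ) [Fact p.Prime] (F K M : IntermediateField ℚ ℂ)
    [FiniteDimensional ℚ F] [FiniteDimensional ℚ K] [FiniteDimensional ℚ M]
    (B : ℕ → IntermediateField ℚ ℂ) [∀ n, FiniteDimensional ℚ (B n)],
    C0 p F K M → (∀ n, IsLayer p n (B n)) → Monotone B →
    ∀ (n : ℕ) (h : F ≤ K ⊔ (M ⊔ B (n + 1))),
      rX p ↥(K ⊔ (M ⊔ B (n + 1))) (XF F K (M ⊔ B (n + 1)) h) *
        (Module.finrank ℚ K * Module.finrank ℚ M) < p ^ n * (p - 1) →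
      padicValNat p (classNo (K ⊔ (M ⊔ B (n + 1)))) + padicValNat p (classNo (M ⊔ B n)) ≤
        padicValNat p (classNo (K ⊔ (M ⊔ B n))) + padicValNat p (classNo (M ⊔ B (n + 1))) +
          rX p ↥(K ⊔ (M ⊔ B (n + 1))) (XF F K (M ⊔ B (n + 1)) h)

/-- (ONE) an extension of degree `p`.

USES RKL, TWR, IDX. PROOF. `P_REC` (`MU3/P_REC.lean`) with `v n = v_p h(K M B_n) - v_p h(M B_n)` (natural subtraction, `≥ 0` by IDX), `r n = rX ..`, `D = [K : ℚ] [M : ℚ]`: `r n ≤ p (C (n+1)^k + t) ≤ p (C + t) (n + 1)^k`. -/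
def Se_ONE : Prop := ∀ (p : ℕ) [Fact p.Prime] (F K M' M : IntermediateField ℚ ℂ)
    [FiniteDimensional ℚ F] [FiniteDimensional ℚ K] [FiniteDimensional ℚ M']
    [FiniteDimensional ℚ M] (B : ℕ → IntermediateField ℚ ℂ) [∀ n, FiniteDimensional ℚ (B n)],
    C0 p F K M → ∀ (h₁ : F ≤ M') (h₂ : M' ≤ M), IsGalois F (IntermediateField.extendScalars h₁) →
    Module.finrank M' (IntermediateField.extendScalars h₂) = p → (∀ n, IsLayer p n (B n)) →
    Monotone B →
    (∃ C k : ℕ, ∀ n, padicValNat p (classNo (K ⊔ (M' ⊔ B n))) ≤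
      padicValNat p (classNo (M' ⊔ B n)) + C * (n + 1) ^ k) →
    ∃ C k : ℕ, ∀ n, padicValNat p (classNo (K ⊔ (M ⊔ B n))) ≤
      padicValNat p (classNo (M ⊔ B n)) + C * (n + 1) ^ k

/-- (PEX) extensions of `p`-power degree.

USES ONE. PROOF. Induction on the exponent of `[M : F]`, `CHIEF_thm`; model: `MU3/P_PEX.lean`, `RID/P_MAIN1.lean`. `C0 p F K M'` for `M' ≤ M` Galois over `F`: the degree divides `p^a`. Start: `M = F`, `F ⊔ B n`, `K ⊔ (F ⊔ B n) = K ⊔ B n`. -/
def Se_PEX : Prop := ∀ (p : ℕ) [Fact p.Prime] (F K M : IntermediateField ℚ ℂ)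
    [FiniteDimensional ℚ F] [FiniteDimensional ℚ K] [FiniteDimensional ℚ M]
    (B : ℕ → IntermediateField ℚ ℂ) [∀ n, FiniteDimensional ℚ (B n)],
    C0 p F K M → (∀ n, IsLayer p n (B n)) → Monotone B →
    (∃ C k : ℕ, ∀ n, padicValNat p (classNo (K ⊔ B n)) ≤
      padicValNat p (classNo (F ⊔ B n)) + C * (n + 1) ^ k) →
    ∃ C k : ℕ, ∀ n, padicValNat p (classNo (K ⊔ (M ⊔ B n))) ≤
      padicValNat p (classNo (M ⊔ B n)) + C * (n + 1) ^ k

/-! ## The final statement -/

/-- (PPP) the parts of an abelian extension.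

PROOF. `G = Gal(L/k)` finite commutative. `L₁` = the fixed field of the Sylow `p`-subgroup `P` (`MU3.P_SYL`, proved in `MU3/PAll.lean`, gives it), `L_p` = the fixed field of the subgroup `P'` of the elements of order prime to `p` (`|G| = p^a m`: `P'` = the elements killed by `m`; `|G/P'| = p^a`). `P ⊓ P' = ⊥`, so `L₁ ⊔ L_p = L`. -/
def Se_PPP : Prop := ∀ (p : ℕ) [Fact p.Prime] (k L : IntermediateField ℚ ℂ)
    [FiniteDimensional ℚ L] (h : k ≤ L), IsGalois k (IntermediateField.extendScalars h) →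
    (∀ a b : (IntermediateField.extendScalars h) ≃ₐ[k] (IntermediateField.extendScalars h),
      a * b = b * a) →
    ∃ (L₁ Lp : IntermediateField ℚ ℂ) (h₁ : k ≤ L₁) (hp : k ≤ Lp), L₁ ⊔ Lp = L ∧
      IsGalois k (IntermediateField.extendScalars h₁) ∧
      ¬ p ∣ Module.finrank k (IntermediateField.extendScalars h₁) ∧
      IsGalois k (IntermediateField.extendScalars hp) ∧
      ∃ a : ℕ, Module.finrank k (IntermediateField.extendScalars hp) = p ^ a

/-- (CPD) relatively prime degrees.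

PROOF. `A D / A` is Galois of degree dividing `[D : k]` (`BCH_thm`), and it divides `[N : A]`, so it is `1`. -/
def Se_CPD : Prop := ∀ (k A D N : IntermediateField ℚ ℂ) [FiniteDimensional ℚ N] (_ : k ≤ A)
    (hA : A ≤ N) (hD : k ≤ D) (_ : D ≤ N), IsGalois k (IntermediateField.extendScalars hD) →
    (Module.finrank k (IntermediateField.extendScalars hD)).Coprime
      (Module.finrank A (IntermediateField.extendScalars hA)) → D ≤ A

end Pool.Agent.OTE


end

section

/-!
# Decomposition fields and the growth of class groups, module SGL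

The exponent `eOf p K M {F}` is the difference of the exponents of `p` in the class numbers of
`K ⊔ M` and `M`.
-/

open NumberField Finset IsDedekindDomain
open scoped nonZeroDivisors Pointwise

namespace Pool.Agent.RID

open Pool.Agent.RI

namespace SGL

/-- Counting: if the kernel of `e : C → A` is killed by a number prime to `p`. -/
lemma count (p : ℕ) [hp : Fact p.Prime] (A C : Type) [CommGroup A] [CommGroup C] [Finite A]
    [Finite C] (e : C →* A) (d : ℕ) (hd : d.Coprime p) (h : ∀ c, e c = 1 → c ^ d = 1) :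
    padicValNat p e.range.index + padicValNat p (Nat.card C) = padicValNat p (Nat.card A) := by
  have c1 : ¬ p ∣ Nat.card e.ker := by
    rw [CL.not_dvd_card_iff]
    rintro ⟨b, hb⟩
    exact ⟨d, hd, Subtype.ext (h b hb)⟩
  have e2 : Nat.card C = Nat.card e.ker * Nat.card e.range := by
    rw [← Subgroup.index_ker, Subgroup.card_mul_index]
  have pos : ∀ (X : Type) [Finite X] [Nonempty X], Nat.card X ≠ 0 := fun X _ _ =>
    Nat.card_ne_zero.2 ⟨inferInstance, inferInstance⟩
  rw [e2, padicValNat.mul (pos _) (pos _), padicValNat.eq_zero_of_not_dvd c1, zero_add,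
    ← Subgroup.card_mul_index e.range, padicValNat.mul (pos _) Subgroup.index_ne_zero_of_finite,
    add_comm]

section number

variable (F K : Type) [Field F] [NumberField F] [Field K] [NumberField K] [Algebra F K]

/-- The extension of an integral ideal. -/
lemma ext_mk0 (I : (Ideal (𝓞 F))⁰) :
    ext F K (FractionalIdeal.mk0 F I) =
      FractionalIdeal.mk0 K (ClassGroup.extendedIdeal (𝓞 F) (𝓞 K) I) := by
  apply Units.ext
  show FractionalIdeal.extendedHom K (𝓞 K) ((I : Ideal (𝓞 F)) : FractionalIdeal (𝓞 F)⁰ F) = _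
  rw [FractionalIdeal.extendedHom_coeIdeal_eq_map, FractionalIdeal.coe_mk0]

/-- The classes that become principal in `K` are killed by `[K : F]`. -/
lemma ker_pow [IsGalois F K] (c : ClassGroup (𝓞 F))
    (h : ClassGroup.extendedHom (𝓞 F) (𝓞 K) c = 1) : c ^ Module.finrank F K = 1 := by
  obtain ⟨I, rfl⟩ := ClassGroup.mk0_surjective c
  rw [ClassGroup.extendedHom_mk0] at h
  have h1 := congrArg (ClassGroup.equiv K) h
  rw [ClassGroup.equiv_mk0, map_one, QuotientGroup.mk'_apply, QuotientGroup.eq_one_iff] at h1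
  obtain ⟨x, hx⟩ := h1
  apply (ClassGroup.equiv F).injective
  rw [map_pow, ClassGroup.equiv_mk0, map_one, ← map_pow, QuotientGroup.mk'_apply,
    QuotientGroup.eq_one_iff]
  refine ⟨Units.map (Algebra.norm F : K →* F) x, ?_⟩
  apply ext_injective F K
  have h2 : CL.nm F K (prin x) = ext F K (prin (Units.map (Algebra.norm F : K →* F) x)) :=
    CL.nm_prin x
  rw [← h2, hx, ← ext_mk0, CL.nm_ext, map_pow]

end number

/-- The index of the subgroup of the classes that come from `M`. -/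
theorem index (p : ℕ) [hp : Fact p.Prime] (M L : IntermediateField ℚ ℂ)
    [FiniteDimensional ℚ M] [FiniteDimensional ℚ L] (h : M ≤ L)
    (hg : IsGalois M (IntermediateField.extendScalars h))
    (hd : ¬ p ∣ Module.finrank M (IntermediateField.extendScalars h)) :
    padicValNat p (fromSub L {M}).index + padicValNat p (classNo M) =
      padicValNat p (classNo L) := by
  let _ := algC h
  have : IsGalois M L := (isGalois_algC h).2 hg
  have hd' : (Module.finrank M L).Coprime p := by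
    rw [Nat.coprime_comm, Nat.Prime.coprime_iff_not_dvd hp.1]
    rwa [← finrank_algC h] at hd
  have hr : fromSub L {M} = (ClassGroup.extendedHom (𝓞 M) (𝓞 L)).range := by
    apply le_antisymm
    · unfold fromSub
      rw [Subgroup.closure_le]
      rintro c ⟨E, hE, h', I, I', hI, rfl⟩
      rw [Set.mem_singleton_iff] at hE
      subst hE
      have hI0 : I ∈ (Ideal (𝓞 E))⁰ := by
        apply mem_nonZeroDivisors_of_ne_zero
        rintro rfl
        apply nonZeroDivisors.coe_ne_zero I'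
        rw [hI]
        exact Ideal.map_bot
      refine ⟨ClassGroup.mk0 ⟨I, hI0⟩, ?_⟩
      rw [ClassGroup.extendedHom_mk0]
      congr 1
      apply Subtype.ext
      rw [hI]
      rfl
    · rintro _ ⟨x, rfl⟩
      obtain ⟨I, rfl⟩ := ClassGroup.mk0_surjective x
      apply Subgroup.subset_closure
      refine ⟨M, rfl, h, I, ClassGroup.extendedIdeal (𝓞 M) (𝓞 L) I, rfl, ?_⟩
      rw [ClassGroup.extendedHom_mk0]
  rw [hr]
  exact count p _ _ _ (Module.finrank M L) hd' (ker_pow M L)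

end SGL

/-- Module SGL. -/
theorem t_SGL : S_SGL := by
  intro p hp F K M _ _ hK hM hg hd
  have hML : M ≤ K ⊔ M := le_sup_right
  obtain ⟨h1, h2⟩ := BCH_thm.1 F K M M (K ⊔ M) hK hML (sup_eq_right.2 hM).symm rfl hg
  have hS : {D | ∃ E ∈ ({F} : Set (IntermediateField ℚ ℂ)), D = E ⊔ M} = {M} := by
    ext D
    simp only [Set.mem_ofPred_eq, Set.mem_singleton_iff, exists_eq_left, sup_eq_right.2 hM]
  unfold eOf
  rw [hS]
  exact SGL.index p M (K ⊔ M) hML h1 fun h => hd (h.trans h2)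

end Pool.Agent.RID


end

section

/-!
# OT (Theorem T+), block E, module ONE (helper11): an extension of degree `p`
-/

set_option autoImplicit false

open NumberField IsDedekindDomain Finset
open scoped nonZeroDivisors Pointwise

namespace Pool.Agent.OTE

open _root_.Pool.Agent.RI _root_.Pool.Agent.RID _root_.Pool.Agent.MU3 _root_.MU3

theorem te_ONE (hR : Se_RKL) (hT : Se_TWR) : Se_ONE := by
  intro p hp F K M' M _ _ _ _ B _ hC h₁ h₂ hG hd hB hm hF
  obtain ⟨C, k, hCk⟩ := hF
  obtain ⟨t, ht⟩ := hR p F K M' M B hC h₁ h₂ hG hd hB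
  have hle : ∀ n, F ≤ K ⊔ (M ⊔ B n) := fun n => hC.hK.trans le_sup_left
  obtain ⟨C', hC'⟩ := _root_.MU3.p_REC p (Module.finrank ℚ K * Module.finrank ℚ M)
    (p * (C + t)) k
    (fun n => padicValNat p (classNo (K ⊔ (M ⊔ B n))) - padicValNat p (classNo (M ⊔ B n)))
    (fun n => rX p ↥(K ⊔ (M ⊔ B n)) (XF F K (M ⊔ B n) (hle n)))
    (by
      intro n
      have h4 : rX p ↥(K ⊔ (M ⊔ B n)) (XF F K (M ⊔ B n) (hle n)) +
          p * padicValNat p (classNo (M' ⊔ B n)) ≤
          p * (padicValNat p (classNo (K ⊔ (M' ⊔ B n))) + t) := ht n (hle n)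
      have h5 : 1 ≤ (n + 1) ^ k := Nat.one_le_pow _ _ (Nat.succ_pos n)
      have h6 := hCk n
      have h7 : t ≤ t * (n + 1) ^ k := Nat.le_mul_of_pos_right _ h5
      have h8 : p * (padicValNat p (classNo (K ⊔ (M' ⊔ B n))) + t) ≤
          p * padicValNat p (classNo (M' ⊔ B n)) + p * ((C + t) * (n + 1) ^ k) := by
        rw [← mul_add]
        apply Nat.mul_le_mul_left
        rw [add_mul]
        omega
      have h9 : p * ((C + t) * (n + 1) ^ k) = p * (C + t) * (n + 1) ^ k := (mul_assoc _ _ _).symm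
      show rX p ↥(K ⊔ (M ⊔ B n)) (XF F K (M ⊔ B n) (hle n)) ≤ _
      omega)
    (by
      intro n hn
      have h1 := hT p F K M B hC hB hm n (hle (n + 1)) hn
      show padicValNat p (classNo (K ⊔ (M ⊔ B (n + 1)))) - padicValNat p (classNo (M ⊔ B (n + 1))) ≤
        padicValNat p (classNo (K ⊔ (M ⊔ B n))) - padicValNat p (classNo (M ⊔ B n)) +
          rX p ↥(K ⊔ (M ⊔ B (n + 1))) (XF F K (M ⊔ B (n + 1)) (hle (n + 1)))
      omega)
  refine ⟨C', k + 1, fun n => ?_⟩
  have h1 : padicValNat p (classNo (K ⊔ (M ⊔ B n))) - padicValNat p (classNo (M ⊔ B n)) ≤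
    C' * (n + 1) ^ (k + 1) := hC' n
  omega

end Pool.Agent.OTE


end

section

/-!
# OT, block E, module RK4 (helper84): the ranks of the relative units
-/

set_option autoImplicit false

open NumberField IsDedekindDomain Finset
open scoped nonZeroDivisors Pointwise

namespace Pool.Agent.OTE

open _root_.Pool.Agent.RI _root_.Pool.Agent.RID _root_.Pool.Agent.MU3 _root_.MU3

namespace RK4

/-- `1` for the empty list, `0` otherwise. -/
def dl {κ : Type} : List κ → ℕ
  | [] => 1
  | _ :: _ => 0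

lemma coprime_sup {G : Type} [Group G] [Finite G] {p : ℕ} {H N : Subgroup G} (hN : N.Normal)
    (hH : (Nat.card H).Coprime p) (hNp : (Nat.card N).Coprime p) :
    (Nat.card (H ⊔ N : Subgroup G)).Coprime p := by
  have h1 : Nat.card N * N.relIndex (H ⊔ N) = Nat.card (H ⊔ N : Subgroup G) := by
    have h2 := Subgroup.relIndex_mul_relIndex (⊥ : Subgroup G) N (H ⊔ N) bot_le le_sup_right
    rwa [Subgroup.relIndex_bot_left, Subgroup.relIndex_bot_left] at h2
  have h3 : N.relIndex (H ⊔ N) = N.relIndex H := by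
    exact Subgroup.relIndex_sup_right H N
  have h4 : N.relIndex H ∣ Nat.card H := Subgroup.relIndex_dvd_card N H
  rw [← h1, h3]
  exact Nat.Coprime.mul_left hNp (Nat.Coprime.coprime_dvd_left h4 hH)

end RK4

open _root_.Pool.Agent.OTE.RK4 in
theorem te_RK4 : Se_RK4 := by
  intro p a _ F K L κ _ _ _ _ _ _ _ _ _ _ l N' N g hS i hi
  have hRK1 : S_RK1 := t_RK1
  have hRK2 : S_RK2 := t_RK2
  have hRK3 : S_RK3 := t_RK3
  have hCYC : S_CYC := t_CYC
  have := hS.galL
  have hfree := (hCYC F K L g (p ^ a) hS.cyc).2.2.2.2.2.2.2.2.2.2 hS.inf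
  have key : ∀ l' : List κ, (∀ j ∈ l', j ∈ l) → ∀ H : Subgroup (L ≃ₐ[F] L),
      (Nat.card H).Coprime p → (∀ h ∈ H, h * g = g * h) →
      Module.finrank ℤ (Additive (WU l' N (H ⊔ Subgroup.zpowers (g ^ (p ^ i))))) + dl l'
        = p ^ i * (Module.finrank ℤ (Additive (WU l' N (H ⊔ Subgroup.zpowers g))) + dl l') := by
    intro l'
    induction l' with
    | nil =>
      intro _ H hH hcom
      have h1 := hRK1 F L κ N (H ⊔ Subgroup.zpowers (g ^ (p ^ i)))
      have h2 := hRK1 F L κ N (H ⊔ Subgroup.zpowers g)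
      have h3 := hRK2 p a (L ≃ₐ[F] L) (InfinitePlace L) g H hS.cyc.ord hH hcom hfree i hi
      simp only [dl]
      rw [h1, h2, h3]
    | cons j l'' ih =>
      intro hmem H hH hcom
      have hj : j ∈ l := hmem j (by simp)
      have hmem' : ∀ j' ∈ l'', j' ∈ l := fun j' hj' => hmem j' (by simp [hj'])
      have hnrm : ∀ j' ∈ j :: l'', (N j').Normal := fun j' hj' => hS.nrm j' (hmem j' hj')
      have e1 := ih hmem' H hH hcom
      have hcom' : ∀ h ∈ H ⊔ N j, h * g = g * h := by
        intro h hh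
        have h1 : H ⊔ N j ≤ Subgroup.centralizer {g} := by
          refine sup_le ?_ ?_
          · intro x hx
            rw [Subgroup.mem_centralizer_singleton_iff]
            exact hcom x hx
          · intro x hx
            rw [Subgroup.mem_centralizer_singleton_iff]
            exact hS.com j hj x hx
        have h2 := h1 hh
        rw [Subgroup.mem_centralizer_singleton_iff] at h2
        exact h2
      have e2 := ih hmem' (H ⊔ N j) (coprime_sup (hS.nrm j hj) hH (hS.cop j hj)) hcom'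
      have r1 := (hRK3 F L κ l'' j N (H ⊔ Subgroup.zpowers (g ^ (p ^ i))) hnrm).2
      have r2 := (hRK3 F L κ l'' j N (H ⊔ Subgroup.zpowers g) hnrm).2
      rw [sup_right_comm] at r1 r2
      simp only [dl, add_zero]
      set A := Module.finrank ℤ (Additive (WU (j :: l'') N (H ⊔ Subgroup.zpowers (g ^ (p ^ i)))))
      set A0 := Module.finrank ℤ (Additive (WU (j :: l'') N (H ⊔ Subgroup.zpowers g)))
      set B := Module.finrank ℤ (Additive (WU l'' N (H ⊔ N j ⊔ Subgroup.zpowers (g ^ (p ^ i)))))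
      set B0 := Module.finrank ℤ (Additive (WU l'' N (H ⊔ N j ⊔ Subgroup.zpowers g)))
      set C := Module.finrank ℤ (Additive (WU l'' N (H ⊔ Subgroup.zpowers (g ^ (p ^ i)))))
      set C0 := Module.finrank ℤ (Additive (WU l'' N (H ⊔ Subgroup.zpowers g)))
      have h5 : A + B + dl l'' = p ^ i * A0 + (B + dl l'') := by
        rw [e2, r1, e1, ← r2]; ring
      omega
  have h0 := key l (fun _ h => h) ⊥ (by simp) (by
    intro h hh
    rw [Subgroup.mem_bot] at hh
    rw [hh, one_mul, mul_one])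
  rw [bot_sup_eq, bot_sup_eq] at h0
  have hdl : dl l = 0 := by
    have := hS.ne
    cases l with
    | nil => exact absurd rfl this
    | cons _ _ => rfl
  rw [hdl, add_zero, add_zero] at h0
  exact h0

end Pool.Agent.OTE


end

section

/-!
# OT, block E, module STC (helper84): the relative Chevalley inequality
-/

set_option autoImplicit false

open NumberField IsDedekindDomain Finset
open scoped nonZeroDivisors Pointwise

namespace Pool.Agent.OTE

open _root_.Pool.Agent.RI _root_.Pool.Agent.RID _root_.Pool.Agent.MU3 _root_.MU3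

namespace STC

section

variable {F K L κ : Type} [Field F] [NumberField F] [Field K] [NumberField K] [Field L]
  [NumberField L] [Algebra F K] [Algebra F L] [Algebra K L] [IsScalarTower F K L]

/-- The abstract situation for one step. -/
theorem mkAD {p a : ℕ} (l : List κ) (N' : κ → Subgroup (K ≃ₐ[F] K))
    (N : κ → Subgroup (L ≃ₐ[F] L)) (g : L ≃ₐ[F] L) (hS : Sy0 p F K L l N' N g a) :
    AD0 p (p ^ a) l (fun i => Nat.card (N i)) (fun i => (nuS (N i) : Lˣ →* Lˣ))
      (fun i => (nuS (N i) : J L →* J L)) (fun i => (nuS (N' i) : Kˣ →* Kˣ))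
      (fun i => (nuS (N' i) : J K →* J K)) (prin : Lˣ →* J L) (prin : Kˣ →* J K)
      (Units.map (algebraMap K L : K →* L)) (ext K L) g := by
  obtain ⟨_, _, _, c4, c5, _, _, _, c9, c10, _⟩ := t_CYC F K L g (p ^ a) hS.cyc
  obtain ⟨_, _, n3, _, n5, n6⟩ := t_NUS
  obtain ⟨q1, q2, _, _⟩ := n6 F L κ l N hS.nrm
  exact
    { cop := hS.cop
      qA := q1
      qI := q2
      gq := by rw [← hS.cyc.ord]; exact pow_orderOf_eq_one g
      dvg := fun x => (smul_prin g x).symm
      gA := fun i hi x => n3 _ _ (N i) x g (hS.nrm i hi)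
      gI := fun i hi x => n3 _ _ (N i) x g (hS.nrm i hi)
      dvν := fun i _ x => n5 F L (N i) x
      sq := fun x => ext_prin K L x
      εν := fun i hi x => (t_RES F K L (N' i) (N i) (hS.mat i hi)).1 x
      ιν := fun i hi x => (t_RES F K L (N' i) (N i) (hS.mat i hi)).2 x
      εinj := ext_injective K L
      gε := c9
      gι := c10
      h90 := c4
      fixA := c5
      fin := CL.finite_quot L
      fin' := CL.finite_quot K }

/-- The relative units. -/
theorem ker_part (l : List κ) (N : κ → Subgroup (L ≃ₐ[F] L)) :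
    (prin : Lˣ →* J L).ker ⊓ part l (fun i => (nuS (N i) : Lˣ →* Lˣ)) = WU l N ⊥ := by
  ext u
  constructor
  · rintro ⟨h1, h2⟩
    refine ⟨h1, ?_, h2⟩
    intro σ hσ
    rw [Subgroup.mem_bot] at hσ
    rw [hσ, one_smul]
  · rintro ⟨h1, _, h2⟩
    exact ⟨h1, h2⟩

/-- The relative units fixed by an automorphism. -/
theorem ker_fix (l : List κ) (N : κ → Subgroup (L ≃ₐ[F] L)) (h : L ≃ₐ[F] L) :
    (prin : Lˣ →* J L).ker ⊓ part l (fun i => (nuS (N i) : Lˣ →* Lˣ)) ⊓ (dg h : Lˣ →* Lˣ).ker =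
      WU l N (Subgroup.zpowers h) := by
  ext u
  constructor
  · rintro ⟨⟨h1, h2⟩, h3⟩
    have h3' : h • u = u := (mem_dg_ker h u).1 h3
    refine ⟨h1, ?_, h2⟩
    intro σ hσ
    have h4 : Subgroup.zpowers h ≤ MulAction.stabilizer (L ≃ₐ[F] L) u := by
      rw [Subgroup.zpowers_le]
      exact h3'
    exact h4 hσ
  · rintro ⟨h1, h3, h2⟩
    exact ⟨⟨h1, h2⟩, (mem_dg_ker h u).2 (h3 h (Subgroup.mem_zpowers h))⟩

/-- The relative ideals which come from `K`. -/
theorem map_part (l : List κ) (N' : κ → Subgroup (K ≃ₐ[F] K)) (N : κ → Subgroup (L ≃ₐ[F] L))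
    (hm : ∀ i ∈ l, Match (N' i) (N i)) :
    (part l (fun i => (nuS (N' i) : J K →* J K))).map (ext K L) =
      part l (fun i => (nuS (N i) : J L →* J L)) ⊓ (ext K L).range := by
  ext b
  constructor
  · rintro ⟨c, hc, rfl⟩
    refine ⟨?_, c, rfl⟩
    show ext K L c ∈ part l (fun i => (nuS (N i) : J L →* J L))
    rw [mem_part]
    intro i hi
    have h1 := mem_part.1 (show c ∈ part l (fun i => (nuS (N' i) : J K →* J K)) from hc) i hi
    rw [← (t_RES F K L (N' i) (N i) (hm i hi)).1 c, h1, map_one]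
  · rintro ⟨h1, c, rfl⟩
    refine ⟨c, ?_, rfl⟩
    show c ∈ part l (fun i => (nuS (N' i) : J K →* J K))
    rw [mem_part]
    intro i hi
    have h2 := mem_part.1
      (show ext K L c ∈ part l (fun i => (nuS (N i) : J L →* J L)) from h1) i hi
    apply ext_injective K L
    rw [(t_RES F K L (N' i) (N i) (hm i hi)).1 c, h2, map_one]

theorem padic_le (p : ℕ) [hp : Fact p.Prime] {m s : ℕ} (h0 : m ≠ 0) (h : m ≤ p ^ s) :
    padicValNat p m ≤ s := by
  have h1 : p ^ padicValNat p m ≤ m := Nat.le_of_dvd (Nat.pos_of_ne_zero h0) pow_padicValNat_dvd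
  exact (Nat.pow_le_pow_iff_right hp.out.one_lt).1 (h1.trans h)

end

end STC

open _root_.Pool.Agent.OTE.STC in
theorem te_STC (hABR : Se_ABR) : Se_STC := by
  intro p a hp F K L κ _ _ _ _ _ _ _ _ _ _ l N' N g hS S hSr
  have hAD := mkAD l N' N g hS
  have hgal := hS.galL
  obtain ⟨i₀, hi₀⟩ := List.exists_mem_of_ne_nil l hS.ne
  have hFG : ((prin : Lˣ →* J L).ker ⊓ part l (fun i => (nuS (N i) : Lˣ →* Lˣ))).FG := by
    rw [ker_part]
    refine (t_RK3 F L κ l i₀ N ⊥ ?_).1
    intro j hj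
    rcases List.mem_cons.1 hj with rfl | hj
    · exact hS.nrm _ hi₀
    · exact hS.nrm j hj
  have hst : ∀ u ∈ (prin : Lˣ →* J L).ker ⊓ part l (fun i => (nuS (N i) : Lˣ →* Lˣ)),
      g • u ∈ (prin : Lˣ →* J L).ker ⊓ part l (fun i => (nuS (N i) : Lˣ →* Lˣ)) := by
    rintro u ⟨h1, h2⟩
    have h1' : prin u = 1 := h1
    have h2' := mem_part.1 (show u ∈ part l (fun i => (nuS (N i) : Lˣ →* Lˣ)) from h2)
    refine ⟨?_, ?_⟩
    · show prin (g • u) = 1
      rw [hAD.dvg, h1', smul_one]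
    · show g • u ∈ part l (fun i => (nuS (N i) : Lˣ →* Lˣ))
      rw [mem_part]
      intro i hi
      have h3 := hAD.gA i hi u
      rw [h2' i hi, smul_one] at h3
      exact h3.symm
  have hrk : ∀ i ≤ a, Module.finrank ℤ (Additive ↥((prin : Lˣ →* J L).ker ⊓
      part l (fun i => (nuS (N i) : Lˣ →* Lˣ)) ⊓ (dg (g ^ (p ^ i)) : Lˣ →* Lˣ).ker)) =
      p ^ i * Module.finrank ℤ (Additive ↥((prin : Lˣ →* J L).ker ⊓
      part l (fun i => (nuS (N i) : Lˣ →* Lˣ)) ⊓ (dg g : Lˣ →* Lˣ).ker)) := by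
    intro i hi
    rw [ker_fix, ker_fix]
    exact te_RK4 p a F K L κ l N' N g hS i hi
  obtain ⟨hne, heq⟩ := t_HERBQ t_HQ1 (t_HQ3 t_HQ1 t_HQ2) p a Lˣ (L ≃ₐ[F] L) g _ hAD.gq hFG hst hrk
  -- the ideals
  obtain ⟨k4, k5⟩ := n_AMBI F K L g (p ^ a) hS.cyc S hSr
  have hle : part l (fun i => (nuS (N i) : J L →* J L)) ⊓ (dg g : J L →* J L).ker ≤
      (dg g : J L →* J L).ker := inf_le_right
  have hXV : (ext K L).range ≤ (dg g : J L →* J L).ker := by
    rintro _ ⟨c, rfl⟩
    rw [mem_dg_ker]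
    exact hAD.gε c
  have e1 : ((part l (fun i => (nuS (N' i) : J K →* J K))).map (ext K L)).relIndex
      (part l (fun i => (nuS (N i) : J L →* J L)) ⊓ (dg g : J L →* J L).ker) =
      (ext K L).range.relIndex
        (part l (fun i => (nuS (N i) : J L →* J L)) ⊓ (dg g : J L →* J L).ker) := by
    rw [map_part l N' N hS.mat, ← Subgroup.inf_relIndex_right (ext K L).range]
    congr 1
    apply le_antisymm
    · exact le_inf inf_le_right (le_inf inf_le_left (inf_le_right.trans hXV))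
    · exact le_inf (inf_le_right.trans inf_le_left) inf_le_left
  have k6 : (ext K L).range.relIndex
      (part l (fun i => (nuS (N i) : J L →* J L)) ⊓ (dg g : J L →* J L).ker) ≠ 0 := fun h =>
    k4 (Subgroup.relIndex_eq_zero_of_le_right hle h)
  have k7 := Subgroup.relIndex_le_of_le_right hle k4
  have b3 : padicValNat p (((part l (fun i => (nuS (N' i) : J K →* J K))).map (ext K L)).relIndex
      (part l (fun i => (nuS (N i) : J L →* J L)) ⊓ (dg g : J L →* J L).ker)) ≤ a * S.card := by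
    rw [e1]
    apply padic_le p k6
    rw [pow_mul]
    exact k7.trans k5
  have h1 := hABR p (p ^ a) _ _ _ _ _ _ _ _ _ _ _ _ _ _ _ _ _ hAD hne (heq ▸ hne) (by
    rw [e1]
    exact k6)
  rw [← heq] at h1
  have h3 : padicValNat p ((prin : Lˣ →* J L).range.relIndex
      (partM l (fun i => (nuS (N i) : J L →* J L)) (prin : Lˣ →* J L).range ⊓
        (prin : Lˣ →* J L).range.comap (dg g))) ≤
      padicValNat p ((prin : Kˣ →* J K).range.relIndex
        (partM l (fun i => (nuS (N' i) : J K →* J K)) (prin : Kˣ →* J K).range)) + a * S.card := by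
    omega
  exact h3

end Pool.Agent.OTE


end
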