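import Pool.Agent.MVF.C029
import Pool.Agent.MVF.C030
import Pool.Agent.MVF.C048
import Pool.Agent.MVF.C089
import Pool.Agent.MVF.C104
import Pool.Agent.OUM.C01

/-! Parts: RID.P_ABS2, OT.E_ABR3, OT.E_PEX, OT.E_RKL, OT.E_ABR -/

section

/-!
# The capitulation kernel (abstract counting)
-/

open NumberField Finset IsDedekindDomain
open scoped nonZeroDivisors Pointwise

namespace Pool.Agent.RID

open Pool.Agent.RI

namespace ABS2

lemma rel_dvd_right {X : Type} [CommGroup X] {H K L : Subgroup X} (hHL : H ≤ L) (hKL : K ≤ L) :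
    H.relIndex K ∣ H.relIndex L := by
  have h1 : H.relIndex (H ⊔ K) = H.relIndex K := Subgroup.relIndex_sup_left K H
  rw [← h1, ← Subgroup.relIndex_mul_relIndex H (H ⊔ K) L le_sup_left (sup_le hHL hKL)]
  exact Dvd.intro _ rfl

lemma map_dvd {X Y : Type} [CommGroup X] [CommGroup Y] (f : X →* Y) (H K : Subgroup X) :
    (H.map f).relIndex (K.map f) ∣ H.relIndex K := by
  rw [← Subgroup.relIndex_comap]
  exact Subgroup.relIndex_dvd_of_le_left K (Subgroup.le_comap_map f H)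

lemma padic_zero (p : ℕ) [hp : Fact p.Prime] {X : Type} [CommGroup X] {H K : Subgroup X} {n : ℕ}
    (hn : n.Coprime p) (h : ∀ x ∈ K, x ^ n ∈ H) : padicValNat p (H.relIndex K) = 0 := by
  by_cases h0 : H.relIndex K = 0
  · rw [h0, padicValNat.zero]
  · refine padicValNat.eq_zero_of_not_dvd fun hd => ?_
    have hcard : Nat.card (K ⧸ H.subgroupOf K) = H.relIndex K := rfl
    have hfin : Finite (K ⧸ H.subgroupOf K) := Nat.finite_of_card_ne_zero (by rw [hcard]; exact h0)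
    rw [← hcard] at hd
    obtain ⟨x, hx⟩ := exists_prime_orderOf_dvd_card' p hd
    have hx1 : x ^ n = 1 := by
      induction x using QuotientGroup.induction_on with
      | H y =>
        rw [← QuotientGroup.mk_pow, QuotientGroup.eq_one_iff, Subgroup.mem_subgroupOf]
        exact h _ y.2
    have h1 : p ∣ n := by
      rw [← hx]
      exact orderOf_dvd_of_pow_eq_one hx1
    have h2 : p ∣ 1 := by
      rw [← hn]
      exact Nat.dvd_gcd h1 dvd_rfl
    exact hp.out.one_lt.ne' (Nat.dvd_one.1 h2)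

lemma padic_mono (p : ℕ) [Fact p.Prime] {a b : ℕ} (hb : b ≠ 0) (h : a ∣ b) :
    padicValNat p a ≤ padicValNat p b :=
  (padicValNat_dvd_iff_le hb).1 (pow_padicValNat_dvd.trans h)

lemma ng_dg {G X : Type} [Group G] [CommGroup X] [MulDistribMulAction G X] (g : G) (q : ℕ)
    (hg : g ^ q = 1) (x : X) : ng g q (dg g x) = 1 := by
  rw [ng_apply]
  have h : ∀ n : ℕ, ∏ i ∈ range n, g ^ i • dg g x = x / g ^ n • x := by
    intro n
    induction n with
    | zero => simp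
    | succ n ih =>
      rw [prod_range_succ, ih, dg_apply, smul_div', ← mul_smul, ← pow_succ,
        div_mul_div_cancel]
  rw [h, hg, one_smul, div_self']

end ABS2

open _root_.Pool.Agent.RID.ABS2

theorem t_ABS2 : S_ABS2 := by
  intro p q hp A I A' I' G κ _ _ _ _ _ _ _ l k νA νI νA' νI' dv dv' ι ε g had h0
  obtain ⟨cop, qA, qI, gq, dvg, gA, gI, dvν, sq, εν, ιν, εinj, gε, gι, h90, fixA, inv, fin, fin'⟩ :=
    had
  set E := dv.ker ⊓ part l νA with hE
  set Z₁ := E ⊓ (ng g q : A →* A).ker with hZ₁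
  set B₁ := E.map (dg g : A →* A) with hB₁
  set P := dv.range with hP
  set P' := dv'.range with hP'
  set X' := partM l νI' P' with hX'
  set K₀ := X' ⊓ P.comap ε with hK₀
  set w := wt l k with hw
  have hwp : w.Coprime p := wt_coprime l k cop
  -- stability
  have hst : ∀ i ∈ l, ∀ a, νI' i (dv' a) = dv' (νA' i a) := by
    intro i hi a
    apply εinj
    rw [εν i hi, sq, ← dvν i hi, sq, ιν i hi]
  have hPX : P' ≤ X' := by
    rintro _ ⟨a, rfl⟩
    rw [hX', mem_partM]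
    intro i hi
    rw [hst i hi]
    exact ⟨_, rfl⟩
  have hPK : P' ≤ K₀ := by
    refine le_inf hPX ?_
    rintro _ ⟨a, rfl⟩
    rw [Subgroup.mem_comap, sq]
    exact ⟨_, rfl⟩
  have hKX : K₀ ≤ X' := inf_le_left
  have hn1 : P'.relIndex X' ≠ 0 := by
    have h1 : P'.index ≠ 0 := by
      have : Finite (I' ⧸ P') := fin'
      exact Subgroup.index_ne_zero_of_finite
    exact fun h => h1 (by
      have := Subgroup.relIndex_dvd_index_of_normal P' X'
      rw [h] at this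
      exact Nat.eq_zero_of_zero_dvd this)
  have hmul := Subgroup.relIndex_mul_relIndex P' K₀ X' hPK hKX
  have hn2 : P'.relIndex K₀ ≠ 0 := fun h => hn1 (by rw [← hmul, h, zero_mul])
  have hn3 : K₀.relIndex X' ≠ 0 := fun h => hn1 (by rw [← hmul, h, mul_zero])
  have hKU : K₀.relIndex X' = P.relIndex (X'.map ε ⊔ P) := by
    rw [Subgroup.relIndex_sup_right, ← Subgroup.relIndex_comap, hK₀, Subgroup.inf_relIndex_left]
  -- commutation with `dg g`
  have hdgν : ∀ i ∈ l, ∀ x, (dg g : A →* A) (νA i x) = νA i (dg g x) := by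
    intro i hi x
    rw [dg_apply, dg_apply, map_div, gA i hi]
  have hdv_dg : ∀ x, dv (dg g x) = dg g (dv x) := by
    intro x
    rw [dg_apply, dg_apply, map_div, dvg]
  have hBZ : B₁ ≤ Z₁ := by
    rintro _ ⟨u, hu, rfl⟩
    have hu1 : dv u = 1 := hu.1
    have hu2 := mem_part.1 hu.2
    refine ⟨⟨?_, ?_⟩, ?_⟩
    · change dv (dg g u) = 1
      rw [hdv_dg, hu1, map_one]
    · refine mem_part.2 fun i hi => ?_
      rw [← hdgν i hi, hu2 i hi, map_one]
    · exact ng_dg g q gq u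
  -- the correspondence
  let Λ : Subgroup (A × I') :=
    { carrier := {z | z.1 ∈ Z₁ ∧ z.2 ∈ K₀ ∧ ∃ y ∈ part l νA, z.1 ^ w = dg g y ∧ dv y = ε z.2}
      mul_mem' := by
        rintro ⟨a, b⟩ ⟨c, d⟩ ⟨h1, h2, y, hy, h3, h4⟩ ⟨h1', h2', y', hy', h3', h4'⟩
        refine ⟨mul_mem h1 h1', mul_mem h2 h2', y * y', mul_mem hy hy', ?_, ?_⟩
        · change (a * c) ^ w = _
          rw [mul_pow, map_mul]
          exact congrArg₂ (· * ·) h3 h3'
        · change _ = ε (b * d)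
          rw [map_mul, map_mul]
          exact congrArg₂ (· * ·) h4 h4'
      one_mem' := ⟨one_mem _, one_mem _, 1, one_mem _, by simp, by simp⟩
      inv_mem' := by
        rintro ⟨a, b⟩ ⟨h1, h2, y, hy, h3, h4⟩
        refine ⟨inv_mem h1, inv_mem h2, y⁻¹, inv_mem hy, ?_, ?_⟩
        · change (a⁻¹) ^ w = _
          rw [inv_pow, map_inv]
          exact congrArg _ h3
        · change _ = ε (b⁻¹)
          rw [map_inv, map_inv]
          exact congrArg _ h4 }
  have hΛ : ∀ a b, (a, b) ∈ Λ ↔ a ∈ Z₁ ∧ b ∈ K₀ ∧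
      ∃ y ∈ part l νA, a ^ w = dg g y ∧ dv y = ε b := fun a b => Iff.rfl
  have hΛ1 : Λ.map (MonoidHom.fst A I') = Z₁ := by
    apply le_antisymm
    · rintro _ ⟨⟨a, b⟩, h, rfl⟩
      exact h.1
    · intro u hu
      obtain ⟨⟨hu1, hu2⟩, hu3⟩ := hu
      obtain ⟨y₀, hy₀⟩ := h90 u hu3
      have hy₀' : u = dg g y₀ := hy₀
      have huw : u ^ w = dg g (pr l k νA y₀) := by
        rw [hw, ← pr_part l k νA hu2, comm_pr l k νA (dg g) hdgν, ← hy₀']
      have hy := pr_mem l k νA qA y₀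
      have hfix : g • dv (pr l k νA y₀) = dv (pr l k νA y₀) := by
        rw [← mem_dg_ker, MonoidHom.mem_ker, ← hdv_dg, ← huw, map_pow]
        have : dv u = 1 := hu1
        rw [this, one_pow]
      have hpart : dv (pr l k νA y₀) ∈ part l νI := by
        refine mem_part.2 fun i hi => ?_
        rw [← dvν i hi, mem_part.1 hy i hi, map_one]
      obtain ⟨c, hc⟩ := inv _ hpart hfix
      have hνc : ∀ i ∈ l, νI' i c = 1 := by
        intro i hi
        apply εinj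
        rw [εν i hi, hc, mem_part.1 hpart i hi, map_one]
      refine ⟨(u, c), ⟨⟨⟨hu1, hu2⟩, hu3⟩, ⟨?_, ?_⟩, pr l k νA y₀, hy, huw, hc.symm⟩, rfl⟩
      · refine mem_partM.2 fun i hi => ?_
        rw [hνc i hi]
        exact one_mem _
      · exact ⟨_, hc.symm⟩
  have hΛ2 : Λ.map (MonoidHom.snd A I') ≤ K₀ := by
    rintro _ ⟨⟨a, b⟩, h, rfl⟩
    exact h.2.1
  set Λ₀ := P'.comap (MonoidHom.snd A I') ⊓ Λ with hΛ₀
  have hr : Λ₀.relIndex Λ = P'.relIndex (Λ.map (MonoidHom.snd A I')) := by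
    rw [hΛ₀, Subgroup.inf_relIndex_right, Subgroup.relIndex_comap]
  set Z₀ := Λ₀.map (MonoidHom.fst A I') with hZ₀
  have hZ₀1 : Z₀ ≤ Z₁ := by
    rw [← hΛ1]
    exact Subgroup.map_mono inf_le_right
  have hd1 : Z₀.relIndex Z₁ ∣ P'.relIndex K₀ := by
    have h1 : Z₀.relIndex Z₁ ∣ Λ₀.relIndex Λ := by
      rw [← hΛ1]
      exact map_dvd _ _ _
    rw [hr] at h1
    exact h1.trans (rel_dvd_right hPK hΛ2)
  have hkill : ∀ u ∈ Z₀, u ^ (w * w) ∈ B₁ := by
    rintro _ ⟨⟨u, c⟩, ⟨h1, h2⟩, rfl⟩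
    obtain ⟨⟨⟨hu1, hu2⟩, hu3⟩, -, y, hy, huy, hyc⟩ := h2
    obtain ⟨a, ha⟩ := h1
    have ha' : dv' a = c := ha
    change u ^ (w * w) ∈ B₁
    have hv1 : dv (y / ι a) = 1 := by
      rw [map_div, ← sq, ha', div_eq_one]
      exact hyc
    have hv2 : (dg g : A →* A) (y / ι a) = u ^ w := by
      have h3 : (dg g : A →* A) (ι a) = 1 := by
        rw [dg_apply, gι, div_self']
      rw [map_div, h3, div_one]
      exact huy.symm
    refine ⟨pr l k νA (y / ι a), ⟨?_, pr_mem l k νA qA _⟩, ?_⟩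
    · change dv (pr l k νA (y / ι a)) = 1
      rw [pr_map l k νA νI dv dvν, hv1, map_one]
    · rw [comm_pr l k νA (dg g) hdgν, hv2, pr_part l k νA (pow_mem hu2 w), ← hw, ← pow_mul]
  set S := Z₀ ⊔ B₁ with hS
  have hS0 : padicValNat p (B₁.relIndex S) = 0 := by
    refine padic_zero p (n := w * w) (Nat.Coprime.mul_left hwp hwp) fun x hx => ?_
    rw [hS, Subgroup.mem_sup] at hx
    obtain ⟨a, ha, b, hb, rfl⟩ := hx
    rw [mul_pow]
    exact mul_mem (hkill a ha) (pow_mem hb _)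
  have hSZ := Subgroup.relIndex_mul_relIndex B₁ S Z₁ le_sup_right (sup_le hZ₀1 hBZ)
  have hS1 : B₁.relIndex S ≠ 0 := fun h => h0 (by rw [← hSZ, h, zero_mul])
  have hS2 : S.relIndex Z₁ ≠ 0 := fun h => h0 (by rw [← hSZ, h, mul_zero])
  have hclaim : padicValNat p (B₁.relIndex Z₁) ≤ padicValNat p (P'.relIndex K₀) := by
    rw [← hSZ, padicValNat.mul hS1 hS2, hS0, zero_add]
    refine padic_mono p hn2 (dvd_trans ?_ hd1)
    exact Subgroup.relIndex_dvd_of_le_left Z₁ le_sup_left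
  rw [← hKU, ← hmul, padicValNat.mul hn2 hn3]
  exact Nat.add_le_add_right hclaim _

end Pool.Agent.RID


end

section

/-!
# OT, block E (helper3): part (3) of `ABR`, the capitulation kernel
-/

set_option autoImplicit false

open NumberField Finset IsDedekindDomain
open scoped nonZeroDivisors Pointwise

namespace Pool.Agent.OTE.ABR3

open _root_.Pool.Agent.RI _root_.Pool.Agent.RID _root_.Pool.Agent.RID.ABS2

theorem abr3 (p q : ℕ) [Fact p.Prime] {A I A' I' G κ : Type} [CommGroup A]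
    [CommGroup I] [CommGroup A'] [CommGroup I'] [Group G] [MulDistribMulAction G A]
    [MulDistribMulAction G I] (l : List κ) (k : κ → ℕ) (νA : κ → A →* A) (νI : κ → I →* I)
    (νA' : κ → A' →* A') (νI' : κ → I' →* I') (dv : A →* I) (dv' : A' →* I') (ι : A' →* A)
    (ε : I' →* I) (g : G) (had : AD0 p q l k νA νI νA' νI' dv dv' ι ε g)
    (h0 : ((dv.ker ⊓ part l νA).map (dg g)).relIndex (dv.ker ⊓ part l νA ⊓ (ng g q).ker) ≠ 0)
    (hne : ((part l νI' ⊓ dv'.range).map ε).relIndex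
      (part l νI ⊓ (dg g : I →* I).ker ⊓ dv.range) ≠ 0) :
    padicValNat p
        (((dv.ker ⊓ part l νA).map (dg g)).relIndex (dv.ker ⊓ part l νA ⊓ (ng g q).ker)) ≤
      padicValNat p (((part l νI' ⊓ dv'.range).map ε).relIndex
        (part l νI ⊓ (dg g : I →* I).ker ⊓ dv.range)) := by
  obtain ⟨cop, qA, qI, gq, dvg, gA, gI, dvν, sq, εν, ιν, εinj, gε, gι, h90, fixA, fin, fin'⟩ :=
    had
  set E := dv.ker ⊓ part l νA with hE
  set Z₁ := E ⊓ (ng g q : A →* A).ker with hZ₁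
  set B₁ := E.map (dg g : A →* A) with hB₁
  set P := dv.range with hP
  set P' := dv'.range with hP'
  set V := part l νI ⊓ (dg g : I →* I).ker with hV
  set W := (part l νI' ⊓ P').map ε with hW
  set w := wt l k with hw
  have hwp : w.Coprime p := wt_coprime l k cop
  have hWV : W ≤ V ⊓ P := by
    rintro _ ⟨c, ⟨hc1, a, rfl⟩, rfl⟩
    refine ⟨⟨?_, ?_⟩, ?_⟩
    · refine mem_part.2 fun i hi => ?_
      rw [← εν i hi, mem_part.1 hc1 i hi, map_one]
    · exact (mem_dg_ker g _).2 (gε _)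
    · rw [sq]
      exact ⟨_, rfl⟩
  -- commutation with `dg g`
  have hdgν : ∀ i ∈ l, ∀ x, (dg g : A →* A) (νA i x) = νA i (dg g x) := by
    intro i hi x
    rw [dg_apply, dg_apply, map_div, gA i hi]
  have hdv_dg : ∀ x, dv (dg g x) = dg g (dv x) := by
    intro x
    rw [dg_apply, dg_apply, map_div, dvg]
  have hBZ : B₁ ≤ Z₁ := by
    rintro _ ⟨u, hu, rfl⟩
    have hu1 : dv u = 1 := hu.1
    have hu2 := mem_part.1 hu.2
    refine ⟨⟨?_, ?_⟩, ?_⟩
    · change dv (dg g u) = 1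
      rw [hdv_dg, hu1, map_one]
    · refine mem_part.2 fun i hi => ?_
      rw [← hdgν i hi, hu2 i hi, map_one]
    · exact ng_dg g q gq u
  -- the correspondence
  let Λ : Subgroup (A × I) :=
    { carrier := {z | z.1 ∈ Z₁ ∧ z.2 ∈ V ⊓ P ∧ ∃ y ∈ part l νA, z.1 ^ w = dg g y ∧ dv y = z.2}
      mul_mem' := by
        rintro ⟨a, b⟩ ⟨c, d⟩ ⟨h1, h2, y, hy, h3, h4⟩ ⟨h1', h2', y', hy', h3', h4'⟩
        refine ⟨mul_mem h1 h1', mul_mem h2 h2', y * y', mul_mem hy hy', ?_, ?_⟩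
        · change (a * c) ^ w = _
          rw [mul_pow, map_mul]
          exact congrArg₂ (· * ·) h3 h3'
        · change _ = b * d
          rw [map_mul]
          exact congrArg₂ (· * ·) h4 h4'
      one_mem' := ⟨one_mem _, one_mem _, 1, one_mem _, by simp, by simp⟩
      inv_mem' := by
        rintro ⟨a, b⟩ ⟨h1, h2, y, hy, h3, h4⟩
        refine ⟨inv_mem h1, inv_mem h2, y⁻¹, inv_mem hy, ?_, ?_⟩
        · change (a⁻¹) ^ w = _
          rw [inv_pow, map_inv]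
          exact congrArg _ h3
        · change _ = b⁻¹
          rw [map_inv]
          exact congrArg _ h4 }
  have hΛ1 : Λ.map (MonoidHom.fst A I) = Z₁ := by
    apply le_antisymm
    · rintro _ ⟨⟨a, b⟩, h, rfl⟩
      exact h.1
    · intro u hu
      obtain ⟨⟨hu1, hu2⟩, hu3⟩ := hu
      obtain ⟨y₀, hy₀⟩ := h90 u hu3
      have hy₀' : u = dg g y₀ := hy₀
      have huw : u ^ w = dg g (pr l k νA y₀) := by
        rw [hw, ← pr_part l k νA hu2, comm_pr l k νA (dg g) hdgν, ← hy₀']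
      have hy := pr_mem l k νA qA y₀
      have hfix : dv (pr l k νA y₀) ∈ (dg g : I →* I).ker := by
        rw [MonoidHom.mem_ker, ← hdv_dg, ← huw, map_pow]
        have : dv u = 1 := hu1
        rw [this, one_pow]
      have hpart : dv (pr l k νA y₀) ∈ part l νI := by
        refine mem_part.2 fun i hi => ?_
        rw [← dvν i hi, mem_part.1 hy i hi, map_one]
      exact ⟨(u, dv (pr l k νA y₀)), ⟨⟨⟨hu1, hu2⟩, hu3⟩, ⟨⟨hpart, hfix⟩, ⟨_, rfl⟩⟩,
        pr l k νA y₀, hy, huw, rfl⟩, rfl⟩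
  have hΛ2 : Λ.map (MonoidHom.snd A I) ≤ V ⊓ P := by
    rintro _ ⟨⟨a, b⟩, h, rfl⟩
    exact h.2.1
  set Λ₀ := W.comap (MonoidHom.snd A I) ⊓ Λ with hΛ₀
  have hr : Λ₀.relIndex Λ = W.relIndex (Λ.map (MonoidHom.snd A I)) := by
    rw [hΛ₀, Subgroup.inf_relIndex_right, Subgroup.relIndex_comap]
  set Z₀ := Λ₀.map (MonoidHom.fst A I) with hZ₀
  have hZ₀1 : Z₀ ≤ Z₁ := by
    rw [← hΛ1]
    exact Subgroup.map_mono inf_le_right
  have hd1 : Z₀.relIndex Z₁ ∣ W.relIndex (V ⊓ P) := by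
    have h1 : Z₀.relIndex Z₁ ∣ Λ₀.relIndex Λ := by
      rw [← hΛ1]
      exact map_dvd _ _ _
    rw [hr] at h1
    exact h1.trans (rel_dvd_right hWV hΛ2)
  have hkill : ∀ u ∈ Z₀, u ^ (w * w) ∈ B₁ := by
    rintro _ ⟨⟨u, c⟩, ⟨h1, h2⟩, rfl⟩
    obtain ⟨⟨⟨hu1, hu2⟩, hu3⟩, -, y, hy, huy, hyc⟩ := h2
    obtain ⟨_, ⟨-, a, rfl⟩, ha⟩ := h1
    have ha' : ε (dv' a) = c := ha
    change u ^ (w * w) ∈ B₁
    have hv1 : dv (y / ι a) = 1 := by
      rw [map_div, ← sq, ha', div_eq_one]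
      exact hyc
    have hv2 : (dg g : A →* A) (y / ι a) = u ^ w := by
      have h3 : (dg g : A →* A) (ι a) = 1 := by
        rw [dg_apply, gι, div_self']
      rw [map_div, h3, div_one]
      exact huy.symm
    refine ⟨pr l k νA (y / ι a), ⟨?_, pr_mem l k νA qA _⟩, ?_⟩
    · change dv (pr l k νA (y / ι a)) = 1
      rw [pr_map l k νA νI dv dvν, hv1, map_one]
    · rw [comm_pr l k νA (dg g) hdgν, hv2, pr_part l k νA (pow_mem hu2 w), ← hw, ← pow_mul]
  set S := Z₀ ⊔ B₁ with hS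
  have hS0 : padicValNat p (B₁.relIndex S) = 0 := by
    refine padic_zero p (n := w * w) (Nat.Coprime.mul_left hwp hwp) fun x hx => ?_
    rw [hS, Subgroup.mem_sup] at hx
    obtain ⟨a, ha, b, hb, rfl⟩ := hx
    rw [mul_pow]
    exact mul_mem (hkill a ha) (pow_mem hb _)
  have hSZ := Subgroup.relIndex_mul_relIndex B₁ S Z₁ le_sup_right (sup_le hZ₀1 hBZ)
  have hS1 : B₁.relIndex S ≠ 0 := fun h => h0 (by rw [← hSZ, h, zero_mul])
  have hS2 : S.relIndex Z₁ ≠ 0 := fun h => h0 (by rw [← hSZ, h, mul_zero])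
  rw [← hSZ, padicValNat.mul hS1 hS2, hS0, zero_add]
  refine padic_mono p hne (dvd_trans ?_ hd1)
  exact Subgroup.relIndex_dvd_of_le_left Z₁ le_sup_left

end Pool.Agent.OTE.ABR3


end

section

/-!
# OT (Theorem T+), block E, module PEX (helper11): extensions of `p`-power degree
-/

set_option autoImplicit false

open NumberField IsDedekindDomain Finset
open scoped nonZeroDivisors Pointwise

namespace Pool.Agent.OTE

open _root_.Pool.Agent.RI _root_.Pool.Agent.RID _root_.Pool.Agent.MU3 _root_.MU3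

namespace PEX

/-- An extension of degree one is trivial. -/
lemma eq_of_one {F M : IntermediateField ℚ ℂ} (hM : F ≤ M)
    (hdeg : Module.finrank F (IntermediateField.extendScalars hM) = 1) : M = F := by
  rw [IntermediateField.finrank_eq_one_iff] at hdeg
  apply le_antisymm _ hM
  intro x hx
  have hx' : x ∈ IntermediateField.extendScalars hM := hx
  rw [hdeg, IntermediateField.mem_bot] at hx'
  obtain ⟨y, rfl⟩ := hx'
  exact y.2

lemma key (hO : Se_ONE) : ∀ (a p : ℕ) [Fact p.Prime] (F K M : IntermediateField ℚ ℂ)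
    [FiniteDimensional ℚ F] [FiniteDimensional ℚ K] [FiniteDimensional ℚ M]
    (B : ℕ → IntermediateField ℚ ℂ) [∀ n, FiniteDimensional ℚ (B n)] (hM : F ≤ M),
    Module.finrank F (IntermediateField.extendScalars hM) = p ^ a →
    C0 p F K M → (∀ n, IsLayer p n (B n)) → Monotone B →
    (∃ C k : ℕ, ∀ n, padicValNat p (classNo (K ⊔ B n)) ≤
      padicValNat p (classNo (F ⊔ B n)) + C * (n + 1) ^ k) →
    ∃ C k : ℕ, ∀ n, padicValNat p (classNo (K ⊔ (M ⊔ B n))) ≤
      padicValNat p (classNo (M ⊔ B n)) + C * (n + 1) ^ k := by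
  intro a
  induction a with
  | zero =>
    intro p _ F K M _ _ _ B _ hM hdeg hC _ _ h0
    have hMF : M = F := eq_of_one hM (by rw [hdeg, pow_zero])
    subst hMF
    have h1 : ∀ n, K ⊔ (M ⊔ B n) = K ⊔ B n := fun n => by
      rw [← sup_assoc, sup_eq_left.2 hC.hK]
    simpa only [h1] using h0
  | succ a ih =>
    intro p hp F K M _ _ _ B _ hM hdeg hC hB hm h0
    obtain ⟨M', h₁, h₂, hG', hd', hdM⟩ := CHIEF_thm p a F M hM hC.gM hdeg
    have hfd : FiniteDimensional ℚ M' := by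
      exact FiniteDimensional.of_injective (IntermediateField.inclusion h₂).toLinearMap
        (IntermediateField.inclusion h₂).toRingHom.injective
    have hC' : C0 p F K M' := ⟨hC.hK, h₁, hC.gK, hC.copK, hG', ⟨a, hd'⟩, hC.tc⟩
    exact hO p F K M' M B hC h₁ h₂ hG' hdM hB hm (ih p F K M' B h₁ hd' hC' hB hm h0)

end PEX

theorem te_PEX (hO : Se_ONE) : Se_PEX := by
  intro p _ F K M _ _ _ B _ hC hB hm h0
  obtain ⟨a, ha⟩ := hC.degM
  exact PEX.key hO a p F K M B hC.hM ha hC hB hm h0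

end Pool.Agent.OTE


end

section

/-!
# OT (Theorem T+), block E, module RKL (helper79): the ranks at the layers; model: `MU3/PX_RKE.lean`
-/

set_option autoImplicit false

open NumberField IsDedekindDomain Finset
open scoped nonZeroDivisors Pointwise

namespace Pool.Agent.OTE

open _root_.Pool.Agent.RI _root_.Pool.Agent.RID _root_.Pool.Agent.MU3 _root_.MU3

namespace RKL

theorem gal_layer (p n : ℕ) [Fact p.Prime] (E B : IntermediateField ℚ ℂ) [FiniteDimensional ℚ E]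
    (hB : IsLayer p n B) :
    IsGalois E (IntermediateField.extendScalars (le_sup_left : E ≤ E ⊔ B)) ∧
      ∃ a : ℕ, Module.finrank E (IntermediateField.extendScalars (le_sup_left : E ≤ E ⊔ B)) =
        p ^ a := by
  obtain ⟨hfB, hGB, hreal⟩ := LAY_thm p n B hB
  obtain ⟨hdeg, -, m, hBm⟩ := hB
  have hbot : IsGalois ↥(⊥ : IntermediateField ℚ ℂ)
      (IntermediateField.extendScalars (bot_le : (⊥ : IntermediateField ℚ ℂ) ≤ B)) := by
    let e : B ≃ₐ[ℚ] (IntermediateField.extendScalars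
        (bot_le : (⊥ : IntermediateField ℚ ℂ) ≤ B)) :=
      { toFun := fun x => ⟨x.1, x.2⟩
        invFun := fun x => ⟨x.1, x.2⟩
        left_inv := fun _ => rfl
        right_inv := fun _ => rfl
        map_mul' := fun _ _ => rfl
        map_add' := fun _ _ => rfl
        commutes' := fun _ => rfl }
    have : IsGalois ℚ (IntermediateField.extendScalars
        (bot_le : (⊥ : IntermediateField ℚ ℂ) ≤ B)) := IsGalois.of_algEquiv e
    exact IsGalois.tower_top_of_isGalois ℚ _ _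
  have hbd : Module.finrank ↥(⊥ : IntermediateField ℚ ℂ)
      (IntermediateField.extendScalars (bot_le : (⊥ : IntermediateField ℚ ℂ) ≤ B)) = p ^ n := by
    rw [← hdeg]
    let e : B ≃ₗ[ℚ] (IntermediateField.extendScalars
        (bot_le : (⊥ : IntermediateField ℚ ℂ) ≤ B)) :=
      { toFun := fun x => ⟨x.1, x.2⟩
        invFun := fun x => ⟨x.1, x.2⟩
        left_inv := fun _ => rfl
        right_inv := fun _ => rfl
        map_add' := fun _ _ => rfl
        map_smul' := fun _ _ => rfl }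
    rw [e.finrank_eq, ← Module.finrank_mul_finrank ℚ ↥(⊥ : IntermediateField ℚ ℂ)
      (IntermediateField.extendScalars (bot_le : (⊥ : IntermediateField ℚ ℂ) ≤ B)),
      IntermediateField.finrank_bot, one_mul]
  have h1 := BCH_thm.1 ⊥ B E E (E ⊔ B) bot_le le_sup_left (bot_sup_eq E).symm (sup_comm E B) hbot
  rw [hbd] at h1
  obtain ⟨a, -, ha⟩ := (Nat.dvd_prime_pow (Fact.out : p.Prime)).1 h1.2
  exact ⟨h1.1, a, ha⟩

theorem gal_congr {F X Y : IntermediateField ℚ ℂ} (e : X = Y) (h : F ≤ X) (h' : F ≤ Y)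
    (hG : IsGalois F (IntermediateField.extendScalars h)) :
    IsGalois F (IntermediateField.extendScalars h') := by
  subst e
  exact hG

theorem tower {A B C : IntermediateField ℚ ℂ} (h : A ≤ B) (h' : B ≤ C) [FiniteDimensional ℚ C] :
    Module.finrank A (IntermediateField.extendScalars h) *
      Module.finrank B (IntermediateField.extendScalars h') =
      Module.finrank A (IntermediateField.extendScalars (h.trans h')) := by
  have : FiniteDimensional ℚ B := TSTEP.fd_of_le h'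
  have : FiniteDimensional ℚ A := TSTEP.fd_of_le (h.trans h')
  let _ := algC h
  let _ := algC h'
  let _ := algC (h.trans h')
  have : IsScalarTower A B C := towerC h h'
  rw [← finrank_algC h, ← finrank_algC h', ← finrank_algC (h.trans h')]
  exact Module.finrank_mul_finrank A B C

theorem c0_layer {p n : ℕ} [Fact p.Prime] {F K M B : IntermediateField ℚ ℂ}
    [FiniteDimensional ℚ F] [FiniteDimensional ℚ M] [FiniteDimensional ℚ B] (hC : C0 p F K M)
    (hB : IsLayer p n B) : C0 p F K (M ⊔ B) := by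
  have hM : F ≤ M ⊔ B := hC.hM.trans le_sup_left
  obtain ⟨g1, -⟩ := gal_layer p n F B hB
  obtain ⟨-, b, hb⟩ := gal_layer p n M B hB
  obtain ⟨a, ha⟩ := hC.degM
  have fdFB : FiniteDimensional ℚ ↥(F ⊔ B) := IntermediateField.finiteDimensional_sup F B
  have fdMB : FiniteDimensional ℚ ↥(M ⊔ B) := IntermediateField.finiteDimensional_sup M B
  have e1 : M ⊔ (F ⊔ B) = M ⊔ B := by
    rw [← sup_assoc, sup_eq_left.2 hC.hM]
  refine ⟨hC.hK, hM, hC.gK, hC.copK, ?_, ⟨a + b, ?_⟩, hC.tc⟩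
  · exact gal_congr e1 (hC.hM.trans le_sup_left) hM
      (BCH_thm.2 F M (F ⊔ B) hC.hM le_sup_left (hC.hM.trans le_sup_left) hC.gM g1)
  · rw [← tower hC.hM (le_sup_left : M ≤ M ⊔ B), ha, hb, pow_add]

theorem c0_sub {p : ℕ} [Fact p.Prime] {F K M' M : IntermediateField ℚ ℂ} [FiniteDimensional ℚ M]
    (hC : C0 p F K M) (h₁ : F ≤ M') (h₂ : M' ≤ M)
    (hG : IsGalois F (IntermediateField.extendScalars h₁)) : C0 p F K M' := by
  obtain ⟨a, ha⟩ := hC.degM
  refine ⟨hC.hK, h₁, hC.gK, hC.copK, hG, ?_, hC.tc⟩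
  have h3 : Module.finrank F (IntermediateField.extendScalars h₁) ∣ p ^ a := by
    rw [← ha]
    exact Dvd.intro _ (tower h₁ h₂)
  obtain ⟨b, -, hb⟩ := (Nat.dvd_prime_pow (Fact.out : p.Prime)).1 h3
  exact ⟨b, hb⟩

theorem gal_top {A B C : IntermediateField ℚ ℂ} (h : A ≤ B) (h' : B ≤ C)
    (hG : IsGalois A (IntermediateField.extendScalars (h.trans h'))) :
    IsGalois B (IntermediateField.extendScalars h') := by
  let _ := algC h
  let _ := algC h'
  let _ := algC (h.trans h')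
  have : IsScalarTower A B C := towerC h h'
  have : IsGalois A C := (isGalois_algC (h.trans h')).2 hG
  exact (isGalois_algC h').1 (IsGalois.tower_top_of_isGalois A B C)

theorem rX_le_vX (p : ℕ) [Fact p.Prime] (L : Type) [Field L] [NumberField L]
    (X : Subgroup (J L)) : rX p L X ≤ vX p L X := by
  have hfin : Finite (J L ⧸ (prin (K := L)).range) := CL.finite_quot L
  have hfin' : Finite (J L ⧸ _root_.MU3.PI L) := hfin
  have hcomm : ∀ a b : J L ⧸ _root_.MU3.PI L, a * b = b * a := by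
    intro a b
    obtain ⟨x, rfl⟩ := QuotientGroup.mk_surjective a
    obtain ⟨y, rfl⟩ := QuotientGroup.mk_surjective b
    rw [← QuotientGroup.mk_mul, ← QuotientGroup.mk_mul, mul_comm]
  let S : Subgroup (J L ⧸ _root_.MU3.PI L) :=
    { carrier := {c | (∃ b ∈ X, (b : J L ⧸ _root_.MU3.PI L) = c) ∧ c ^ p = 1}
      one_mem' := ⟨⟨1, X.one_mem, rfl⟩, one_pow p⟩
      mul_mem' := by
        rintro a b ⟨⟨x, hx, rfl⟩, ha⟩ ⟨⟨y, hy, rfl⟩, hb⟩
        refine ⟨⟨x * y, X.mul_mem hx hy, rfl⟩, ?_⟩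
        rw [(show Commute (x : J L ⧸ _root_.MU3.PI L) y from hcomm _ _).mul_pow, ha, hb, mul_one]
      inv_mem' := by
        rintro a ⟨⟨x, hx, rfl⟩, ha⟩
        refine ⟨⟨x⁻¹, X.inv_mem hx, rfl⟩, ?_⟩
        rw [inv_pow, ha, inv_one] }
  have hS : S ≤ X.map (QuotientGroup.mk' (_root_.MU3.PI L)) := by
    rintro c ⟨⟨b, hb, rfl⟩, -⟩
    exact ⟨b, hb, rfl⟩
  have e1 : (_root_.MU3.PI L).relIndex X =
      Nat.card (X.map (QuotientGroup.mk' (_root_.MU3.PI L))) := by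
    rw [← Subgroup.relIndex_ker, QuotientGroup.ker_mk']
  unfold rX vX
  rw [e1]
  exact RKE.val_le Nat.card_pos.ne' (Subgroup.card_dvd_of_le hS)

/-- a generator over the smaller field -/
theorem gen {p : ℕ} [Fact p.Prime] {F K L : Type} [Field F] [Field K] [NumberField K] [Field L]
    [NumberField L] [Algebra F K] [Algebra F L] [Algebra K L] [IsScalarTower F K L]
    [IsGalois K L] (hd : Module.finrank K L = p) :
    ∃ g : L ≃ₐ[F] L, g ^ p = 1 ∧ CycExt F K L g (p ^ 1) := by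
  have hcard : Nat.card (L ≃ₐ[K] L) = p := by
    rw [IsGalois.card_aut_eq_finrank, hd]
  have hcyc : IsCyclic (L ≃ₐ[K] L) := isCyclic_of_prime_card hcard
  obtain ⟨g, hg⟩ := hcyc.exists_generator
  have hord : orderOf g = p := by
    rw [orderOf_eq_card_of_forall_mem_zpowers hg, hcard]
  have hinj : Function.Injective (AlgEquiv.restrictScalarsHom F : (L ≃ₐ[K] L) →* (L ≃ₐ[F] L)) :=
    AlgEquiv.restrictScalars_injective F
  have hord' : orderOf (AlgEquiv.restrictScalarsHom F g : L ≃ₐ[F] L) = p := by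
    rw [orderOf_injective _ hinj, hord]
  refine ⟨AlgEquiv.restrictScalarsHom F g, ?_, ?_⟩
  · have := pow_orderOf_eq_one (AlgEquiv.restrictScalarsHom F g : L ≃ₐ[F] L)
    rwa [hord'] at this
  · refine ⟨by rw [hord', pow_one], fun x => ⟨fun hx => ?_, ?_⟩⟩
    · have h3 : ∀ σ : L ≃ₐ[K] L, σ x = x := by
        intro σ
        have h4 : Subgroup.zpowers g ≤ MulAction.stabilizer (L ≃ₐ[K] L) x := by
          rw [Subgroup.zpowers_le]
          exact hx
        exact h4 (hg σ)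
      exact (IsGalois.mem_range_algebraMap_iff_fixed x).2 h3
    · rintro ⟨y, rfl⟩
      exact g.commutes y

/-- the bad primes of a layer -/
theorem bad (h5 : P_NPL) (h6 : P_BAD) (p : ℕ) [Fact p.Prime] (E N : IntermediateField ℚ ℂ)
    [FiniteDimensional ℚ E] [FiniteDimensional ℚ N] (hEN : E ≤ N)
    (B : ℕ → IntermediateField ℚ ℂ) [∀ n, FiniteDimensional ℚ (B n)]
    (hG : IsGalois E (IntermediateField.extendScalars hEN)) (hlay : ∀ n, IsLayer p n (B n)) :
    ∃ t : ℕ, ∀ (n : ℕ) (En Nn : IntermediateField ℚ ℂ) [FiniteDimensional ℚ En]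
      [FiniteDimensional ℚ Nn] (h : En ≤ Nn), En = E ⊔ B n → Nn = N ⊔ B n →
      letI := algC h
      ∃ S : Finset (HeightOneSpectrum (𝓞 En)), S.card ≤ t ∧
        ∀ w : HeightOneSpectrum (𝓞 Nn), w.asIdeal.ramificationIdx (𝓞 En) ≠ 1 →
          ∃ v ∈ S, w.asIdeal.under (𝓞 En) = v.asIdeal := by
  classical
  let aEN : Algebra E N := algC hEN
  obtain ⟨T, hT, hTram⟩ := h6 E N
  have hex : ∀ ℓ : ℕ, ∃ t : ℕ, ℓ ∈ T → ∀ n, ∀ _ : FiniteDimensional ℚ ↥(E ⊔ B n),
      Nat.card {v : HeightOneSpectrum (𝓞 ↥(E ⊔ B n)) // (ℓ : 𝓞 ↥(E ⊔ B n)) ∈ v.asIdeal} ≤ t ∧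
      Finite {v : HeightOneSpectrum (𝓞 ↥(E ⊔ B n)) // (ℓ : 𝓞 ↥(E ⊔ B n)) ∈ v.asIdeal} := by
    intro ℓ
    by_cases hℓ : ℓ ∈ T
    · obtain ⟨t, ht⟩ := h5 p ℓ E B (hT ℓ hℓ) hlay
      exact ⟨t, fun _ => ht⟩
    · exact ⟨0, fun h => absurd h hℓ⟩
  choose tt htt using hex
  refine ⟨∑ ℓ ∈ T, tt ℓ, fun n En Nn fdEn fdNn h hE hN => ?_⟩
  subst hE
  subst hN
  have hEE : E ≤ E ⊔ B n := le_sup_left
  have hNN : N ≤ N ⊔ B n := le_sup_left
  have gal' : IsGalois ↥(E ⊔ B n) (IntermediateField.extendScalars h) :=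
    (BCH_thm.1 E N (B n) (E ⊔ B n) (N ⊔ B n) hEN h rfl rfl hG).1
  let a1 : Algebra E ↥(E ⊔ B n) := algC hEE
  let a2 : Algebra N ↥(N ⊔ B n) := algC hNN
  let a3 : Algebra ↥(E ⊔ B n) ↥(N ⊔ B n) := algC h
  let a4 : Algebra E ↥(N ⊔ B n) := algC (hEN.trans hNN)
  have t1 : IsScalarTower E ↥(E ⊔ B n) ↥(N ⊔ B n) := towerC hEE h
  have t2 : IsScalarTower E N ↥(N ⊔ B n) := towerC hEN hNN
  have g1 : IsGalois E N := (isGalois_algC hEN).2 hG
  have g2 : IsGalois ↥(E ⊔ B n) ↥(N ⊔ B n) := (isGalois_algC h).2 gal'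
  have hadj : IntermediateField.adjoin ↥(E ⊔ B n) (Set.range (algebraMap N ↥(N ⊔ B n))) = ⊤ :=
    TSTEP.adjoin_top (A := N) (B := E ⊔ B n) (C := N ⊔ B n)
      (le_antisymm (sup_le le_sup_left (le_sup_right.trans le_sup_right))
        (sup_le hNN h)) h hNN
  have hfin : ∀ ℓ ∈ T, {v : HeightOneSpectrum (𝓞 ↥(E ⊔ B n)) |
      (ℓ : 𝓞 ↥(E ⊔ B n)) ∈ v.asIdeal}.Finite := fun ℓ hℓ => (htt ℓ hℓ n fdEn).2
  set S : Finset (HeightOneSpectrum (𝓞 ↥(E ⊔ B n))) :=
    T.attach.biUnion (fun ℓ => (hfin ℓ.1 ℓ.2).toFinset) with hS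
  refine ⟨S, ?_, ?_⟩
  · refine Finset.card_biUnion_le.trans ?_
    rw [← Finset.sum_attach T tt]
    refine Finset.sum_le_sum fun ℓ _ => ?_
    have e1 := (htt ℓ.1 ℓ.2 n fdEn).1
    have e2 : (hfin ℓ.1 ℓ.2).toFinset.card = Nat.card {v : HeightOneSpectrum (𝓞 ↥(E ⊔ B n)) //
        (ℓ.1 : 𝓞 ↥(E ⊔ B n)) ∈ v.asIdeal} := by
      rw [← Nat.card_eq_card_finite_toFinset]
      rfl
    rw [e2]
    exact e1
  · intro w hw
    have e1 := RAMB_thm E ↥(E ⊔ B n) N ↥(N ⊔ B n) hadj w hw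
    obtain ⟨ℓ, hℓ, hmem⟩ := hTram (RKE.und N ↥(N ⊔ B n) w) e1
    have hmem' : (ℓ : 𝓞 ↥(N ⊔ B n)) ∈ w.asIdeal := by
      have e2 : algebraMap (𝓞 N) (𝓞 ↥(N ⊔ B n)) (ℓ : 𝓞 N) ∈ w.asIdeal := hmem
      rwa [map_natCast] at e2
    refine ⟨RKE.und ↥(E ⊔ B n) ↥(N ⊔ B n) w, ?_, rfl⟩
    rw [hS, Finset.mem_biUnion]
    refine ⟨⟨ℓ, hℓ⟩, Finset.mem_attach _ _, ?_⟩
    rw [Set.Finite.mem_toFinset]
    change algebraMap (𝓞 ↥(E ⊔ B n)) (𝓞 ↥(N ⊔ B n)) (ℓ : 𝓞 ↥(E ⊔ B n)) ∈ w.asIdeal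
    rwa [map_natCast]

theorem eq_of_one {A C : IntermediateField ℚ ℂ} (h : A ≤ C)
    (hd : Module.finrank A (IntermediateField.extendScalars h) = 1) : C = A := by
  have hbot := IntermediateField.finrank_eq_one_iff.1 hd
  refine le_antisymm ?_ h
  intro x hx
  have hx' : x ∈ IntermediateField.extendScalars h := hx
  rw [hbot, IntermediateField.mem_bot] at hx'
  obtain ⟨y, rfl⟩ := hx'
  exact y.2

end RKL

open _root_.Pool.Agent.OTE.RKL in
/-- Module RKL. -/
theorem te_RKL (h1 : Se_STC) (h2 : Se_RNK) (h3 : Se_SY0) (h4 : Se_IDX) (h5 : P_NPL)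
    (h6 : P_BAD) : Se_RKL := by
  intro p _ F K M' M fdF fdK fdM' fdM B fdB hC h₁ h₂ hG hd hlay
  have hpr : p.Prime := Fact.out
  have hC' : C0 p F K M' := c0_sub hC h₁ h₂ hG
  have galM : IsGalois M' (IntermediateField.extendScalars h₂) := gal_top h₁ h₂ hC.gM
  have hEN : K ⊔ M' ≤ K ⊔ M := sup_le_sup_left h₂ K
  have galN := (BCH_thm.1 M' M K (K ⊔ M') (K ⊔ M) h₂ hEN (sup_comm _ _) (sup_comm _ _) galM).1
  obtain ⟨t, ht⟩ := bad h5 h6 p (K ⊔ M') (K ⊔ M) hEN B galN hlay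
  refine ⟨t, fun n h => ?_⟩
  have fMn : FiniteDimensional ℚ ↥(M ⊔ B n) := IntermediateField.finiteDimensional_sup _ _
  have fMn' : FiniteDimensional ℚ ↥(M' ⊔ B n) := IntermediateField.finiteDimensional_sup _ _
  have fNn : FiniteDimensional ℚ ↥(K ⊔ (M ⊔ B n)) := IntermediateField.finiteDimensional_sup _ _
  have fEn : FiniteDimensional ℚ ↥(K ⊔ (M' ⊔ B n)) := IntermediateField.finiteDimensional_sup _ _
  have hMM : M' ⊔ B n ≤ M ⊔ B n := sup_le_sup_right h₂ _
  have h' : K ⊔ (M' ⊔ B n) ≤ K ⊔ (M ⊔ B n) := sup_le_sup_left hMM K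
  have hFE : F ≤ K ⊔ (M' ⊔ B n) := hC.hK.trans le_sup_left
  have hCn : C0 p F K (M ⊔ B n) := c0_layer hC (hlay n)
  have hCn' : C0 p F K (M' ⊔ B n) := c0_layer hC' (hlay n)
  have hFM' : F ≤ M' ⊔ B n := hCn'.hM
  -- the degrees
  have d1 := (BCH_thm.1 M' M (B n) (M' ⊔ B n) (M ⊔ B n) h₂ hMM rfl rfl galM)
  have d2 := (BCH_thm.1 M' M (K ⊔ B n) (K ⊔ (M' ⊔ B n)) (K ⊔ (M ⊔ B n)) h₂ h'
    (by rw [← sup_assoc, ← sup_assoc, sup_comm M' K])
    (by rw [← sup_assoc, ← sup_assoc, sup_comm M K]) galM)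
  rw [hd] at d1 d2
  have i1 := h4 p F K (M' ⊔ B n) hCn' hFE
  have i2 := h4 p F K (M ⊔ B n) hCn h
  rcases (Nat.dvd_prime hpr).1 d2.2 with hd2 | hd2
  · -- the fields are equal
    have heq : K ⊔ (M ⊔ B n) = K ⊔ (M' ⊔ B n) := eq_of_one h' hd2
    have hMK : M ⊔ B n ≤ K ⊔ (M' ⊔ B n) := by
      rw [← heq]
      exact le_sup_right
    have d3 := tower hMM hMK
    have d4 := (BCH_thm.1 F K (M' ⊔ B n) (M' ⊔ B n) (K ⊔ (M' ⊔ B n)) hC.hK
      (hMM.trans hMK) (sup_eq_right.2 hFM').symm rfl hC.gK).2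
    have hdM : Module.finrank ↥(M' ⊔ B n) (IntermediateField.extendScalars hMM) = 1 := by
      rcases (Nat.dvd_prime hpr).1 d1.2 with e | e
      · exact e
      · exfalso
        apply hC.copK
        refine dvd_trans ?_ d4
        rw [← e]
        exact Dvd.intro _ d3
    have heqM : M ⊔ B n = M' ⊔ B n := eq_of_one hMM hdM
    have e1 := rX_le_vX p ↥(K ⊔ (M ⊔ B n)) (XF F K (M ⊔ B n) h)
    have e2 : padicValNat p (classNo (M' ⊔ B n)) = padicValNat p (classNo (M ⊔ B n)) := by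
      rw [heqM]
    have e3 : padicValNat p (classNo (K ⊔ (M' ⊔ B n))) =
        padicValNat p (classNo (K ⊔ (M ⊔ B n))) := by
      rw [heqM]
    rw [e2, e3, ← i2]
    calc rX p ↥(K ⊔ (M ⊔ B n)) (XF F K (M ⊔ B n) h) + p * padicValNat p (classNo (M ⊔ B n))
        ≤ p * vX p ↥(K ⊔ (M ⊔ B n)) (XF F K (M ⊔ B n) h) +
          p * padicValNat p (classNo (M ⊔ B n)) :=
          Nat.add_le_add_right (e1.trans (Nat.le_mul_of_pos_left _ hpr.pos)) _
      _ = p * (vX p ↥(K ⊔ (M ⊔ B n)) (XF F K (M ⊔ B n) h) +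
          padicValNat p (classNo (M ⊔ B n))) := by ring
      _ ≤ _ := Nat.mul_le_mul_left p (Nat.le_add_right _ _)
  · obtain ⟨S, hS1, hS2⟩ := ht n (K ⊔ (M' ⊔ B n)) (K ⊔ (M ⊔ B n)) h'
      (sup_assoc _ _ _).symm (sup_assoc _ _ _).symm
    let aK : Algebra F ↥(K ⊔ (M' ⊔ B n)) := algC hFE
    let aKL : Algebra ↥(K ⊔ (M' ⊔ B n)) ↥(K ⊔ (M ⊔ B n)) := algC h'
    let aL : Algebra F ↥(K ⊔ (M ⊔ B n)) := algC (hFE.trans h')
    have tow : IsScalarTower F ↥(K ⊔ (M' ⊔ B n)) ↥(K ⊔ (M ⊔ B n)) := towerC hFE h'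
    have galL : IsGalois ↥(K ⊔ (M' ⊔ B n)) ↥(K ⊔ (M ⊔ B n)) := (isGalois_algC h').2 d2.1
    have dL : Module.finrank ↥(K ⊔ (M' ⊔ B n)) ↥(K ⊔ (M ⊔ B n)) = p :=
      (finrank_algC h').trans hd2
    obtain ⟨g, hgp, hgc⟩ := gen (F := F) dL
    have hsy := h3 p 1 F K (M' ⊔ B n) (M ⊔ B n) hCn hFM' hMM hCn'.gM hFE h' g hgc
    have hst := h1 p 1 F ↥(K ⊔ (M' ⊔ B n)) ↥(K ⊔ (M ⊔ B n)) (IntermediateField ℚ ℂ) [F] _ _ g
      hsy S hS2
    obtain ⟨-, -, -, -, -, n6⟩ := t_NUS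
    obtain ⟨-, -, q3, q4⟩ := n6 F ↥(K ⊔ (M ⊔ B n)) (IntermediateField ℚ ℂ) [F] _ hsy.nrm
    have hrk := h2 p F ↥(K ⊔ (M ⊔ B n)) g (XF F K (M ⊔ B n) h) hgp q3 (q4 g)
    rw [one_mul] at hst
    have e1 : padicValNat p ((_root_.MU3.PI ↥(K ⊔ (M ⊔ B n))).relIndex
        (XF F K (M ⊔ B n) h ⊓ (_root_.MU3.PI ↥(K ⊔ (M ⊔ B n))).comap (dg g))) ≤
        vX p ↥(K ⊔ (M' ⊔ B n)) (XF F K (M' ⊔ B n) hFE) + S.card := hst
    calc rX p ↥(K ⊔ (M ⊔ B n)) (XF F K (M ⊔ B n) h) + p * padicValNat p (classNo (M' ⊔ B n))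
        ≤ p * (vX p ↥(K ⊔ (M' ⊔ B n)) (XF F K (M' ⊔ B n) hFE) + t) +
          p * padicValNat p (classNo (M' ⊔ B n)) :=
          Nat.add_le_add_right (hrk.trans (Nat.mul_le_mul_left p
            (e1.trans (Nat.add_le_add_left hS1 _)))) _
      _ = p * ((vX p ↥(K ⊔ (M' ⊔ B n)) (XF F K (M' ⊔ B n) hFE) +
          padicValNat p (classNo (M' ⊔ B n))) + t) := by ring
      _ = _ := by rw [i1]

end Pool.Agent.OTE


end

section

/-!
# OT, block E (helper3): `ABR`, the ambiguous classes, abstract form, with ramification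
-/

set_option autoImplicit false

open NumberField Finset IsDedekindDomain
open scoped nonZeroDivisors Pointwise

namespace Pool.Agent.OTE

open _root_.Pool.Agent.RI _root_.Pool.Agent.RID

namespace ABR

open _root_.Pool.Agent.RID.ABS1

/-- part (1) -/
theorem abr1 (p q : ℕ) [Fact p.Prime] {A I A' I' G κ : Type} [CommGroup A]
    [CommGroup I] [CommGroup A'] [CommGroup I'] [Group G] [MulDistribMulAction G A]
    [MulDistribMulAction G I] (l : List κ) (k : κ → ℕ) (νA : κ → A →* A) (νI : κ → I →* I)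
    (νA' : κ → A' →* A') (νI' : κ → I' →* I') (dv : A →* I) (dv' : A' →* I') (ι : A' →* A)
    (ε : I' →* I) (g : G) (had : AD0 p q l k νA νI νA' νI' dv dv' ι ε g)
    (h0 : ((dv.ker ⊓ part l νA).map (ng g q)).relIndex (dv.ker ⊓ part l νA ⊓ (dg g).ker) ≠ 0) :
    padicValNat p (dv.range.relIndex (partM l νI dv.range ⊓ dv.range.comap (dg g))) ≤
      padicValNat p
        (((dv.ker ⊓ part l νA).map (ng g q)).relIndex (dv.ker ⊓ part l νA ⊓ (dg g).ker)) +
      padicValNat p (dv.range.relIndex (part l νI ⊓ (dg g : I →* I).ker ⊔ dv.range)) := by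
  obtain ⟨cop, qA, qI, gq, dvg, gA, gI, dvν, sq, εν, ιν, εinj, gε, gι, h90, fixA, fin, fin'⟩ :=
    had
  set E := dv.ker ⊓ part l νA with hE
  set N₀ := E.map (ng g q : A →* A) with hN₀
  set B₀ := E ⊓ (dg g : A →* A).ker with hB₀
  set P := dv.range with hP
  set V := part l νI ⊓ (dg g : I →* I).ker with hV
  set Up := partM l νI P ⊓ P.comap (dg g : I →* I) with hUp
  set U := V ⊔ P with hU
  set w := wt l k with hw
  have hwp : w.Coprime p := wt_coprime l k cop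
  have hdgA : ∀ i ∈ l, ∀ x, (dg g : A →* A) (νA i x) = νA i (dg g x) := by
    intro i hi x
    rw [dg_apply, dg_apply, map_div, gA i hi]
  have hdgI : ∀ i ∈ l, ∀ x, (dg g : I →* I) (νI i x) = νI i (dg g x) := by
    intro i hi x
    rw [dg_apply, dg_apply, map_div, gI i hi]
  have hdv_dg : ∀ x, dv (dg g x) = dg g (dv x) := by
    intro x
    rw [dg_apply, dg_apply, map_div, dvg]
  have hngA : ∀ i ∈ l, ∀ x, νA i (ng g q x) = ng g q (νA i x) := fun i hi x =>
    ng_comm (νA i) g q (fun y => (gA i hi y).symm) x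
  have hngd : ∀ x, dv (ng g q x) = ng g q (dv x) := fun x => ng_comm dv g q dvg x
  have hstP : ∀ i ∈ l, ∀ x ∈ P, νI i x ∈ P := by
    rintro i hi _ ⟨a, rfl⟩
    rw [← dvν i hi]
    exact ⟨_, rfl⟩
  -- elements of `B₀`
  have hB : ∀ z ∈ part l νA, dv (ng g q z) = 1 → (ng g q : A →* A) z ∈ B₀ := by
    intro z hz hz1
    refine ⟨⟨hz1, mem_part.2 fun i hi => ?_⟩, ?_⟩
    · rw [hngA i hi, mem_part.1 hz i hi, map_one]
    · exact (mem_dg_ker g _).2 (smul_ng g q gq z)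
  have hNB : N₀ ≤ B₀ := by
    rintro _ ⟨u, hu, rfl⟩
    refine hB u hu.2 ?_
    have h1 : dv u = 1 := hu.1
    rw [hngd, h1, map_one]
  -- the correspondence
  let Γ : Subgroup (I × A) :=
    { carrier := {z | z.1 ∈ Up ∧ (dg g : I →* I) z.1 = dv z.2}
      mul_mem' := by
        rintro ⟨a, b⟩ ⟨c, d⟩ ⟨h1, h2⟩ ⟨h1', h2'⟩
        refine ⟨mul_mem h1 h1', ?_⟩
        change (dg g : I →* I) (a * c) = dv (b * d)
        rw [map_mul, map_mul]
        exact congrArg₂ (· * ·) h2 h2'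
      one_mem' := ⟨one_mem _, by simp⟩
      inv_mem' := by
        rintro ⟨a, b⟩ ⟨h1, h2⟩
        refine ⟨inv_mem h1, ?_⟩
        change (dg g : I →* I) (a⁻¹) = dv (b⁻¹)
        rw [map_inv, map_inv]
        exact congrArg _ h2 }
  have hΓ : ∀ a b, (a, b) ∈ Γ ↔ a ∈ Up ∧ (dg g : I →* I) a = dv b := fun a b => Iff.rfl
  let φ : A →* A := (ng g q : A →* A).comp (pr l k νA)
  have hφ : ∀ x, φ x = ng g q (pr l k νA x) := fun x => rfl
  have hyz : ∀ b x, (b, x) ∈ Γ → (dg g : I →* I) (pr l k νI b) = dv (pr l k νA x) := by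
    intro b x h
    rw [comm_pr l k νI (dg g) hdgI, ((hΓ b x).1 h).2, pr_map l k νA νI dv dvν]
  have hφB : ∀ b x, (b, x) ∈ Γ → φ x ∈ B₀ := by
    intro b x h
    rw [hφ]
    refine hB _ (pr_mem l k νA qA x) ?_
    rw [hngd, ← hyz b x h]
    exact ng_dg g q gq _
  have hΓ1 : Γ.map (MonoidHom.fst I A) = Up := by
    apply le_antisymm
    · rintro _ ⟨⟨a, b⟩, h, rfl⟩
      exact h.1
    · intro b hb
      obtain ⟨x, hx⟩ := hb.2
      exact ⟨(b, x), (hΓ b x).2 ⟨hb, hx.symm⟩, rfl⟩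
  let ψ : I × A →* A := φ.comp (MonoidHom.snd I A)
  have hΓ2 : Γ.map ψ ≤ B₀ := by
    rintro _ ⟨⟨a, b⟩, h, rfl⟩
    exact hφB a b h
  set Γ₀ := N₀.comap ψ ⊓ Γ with hΓ₀
  have hr : Γ₀.relIndex Γ = N₀.relIndex (Γ.map ψ) := by
    rw [hΓ₀, Subgroup.inf_relIndex_right, Subgroup.relIndex_comap]
  set U₀ := Γ₀.map (MonoidHom.fst I A) with hU₀
  have hU₀p : U₀ ≤ Up := by
    rw [← hΓ1]
    exact Subgroup.map_mono inf_le_right
  have hd1 : U₀.relIndex Up ∣ N₀.relIndex B₀ := by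
    have h1 : U₀.relIndex Up ∣ Γ₀.relIndex Γ := by
      rw [← hΓ1]
      exact map_dvd _ _ _
    rw [hr] at h1
    exact h1.trans (rel_dvd_right hNB hΓ2)
  have hPU₀ : P ≤ U₀ := by
    rintro _ ⟨a, rfl⟩
    refine ⟨(dv a, dg g a), ⟨?_, (hΓ _ _).2 ⟨⟨?_, ?_⟩, (hdv_dg a).symm⟩⟩, rfl⟩
    · change φ (dg g a) ∈ N₀
      rw [hφ, ← comm_pr l k νA (dg g) hdgA, ng_dg g q gq]
      exact one_mem _
    · exact mem_partM.2 fun i hi => hstP i hi _ ⟨a, rfl⟩
    · exact ⟨dg g a, hdv_dg a⟩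
  have hVU₀ : V ≤ U₀ := by
    intro c hc
    have h1 : (dg g : I →* I) c = 1 := hc.2
    refine ⟨(c, 1), ⟨?_, (hΓ _ _).2 ⟨⟨?_, ?_⟩, ?_⟩⟩, rfl⟩
    · change φ 1 ∈ N₀
      rw [map_one]
      exact one_mem _
    · refine mem_partM.2 fun i hi => ?_
      rw [mem_part.1 hc.1 i hi]
      exact one_mem _
    · change (dg g : I →* I) c ∈ P
      rw [h1]
      exact one_mem _
    · rw [h1, map_one]
  have hUU₀ : U ≤ U₀ := sup_le hVU₀ hPU₀
  have hkill : ∀ b ∈ U₀, b ^ (w * w) ∈ U := by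
    rintro _ ⟨⟨b, x⟩, ⟨h1, h2⟩, rfl⟩
    change b ^ (w * w) ∈ U
    have hb := ((hΓ b x).1 h2).1
    obtain ⟨u, hu, huz⟩ := h1
    have huz' : ng g q u = ng g q (pr l k νA x) := huz
    have hz := pr_mem l k νA qA x
    have hu1 : dv u = 1 := hu.1
    have h3 : ng g q (pr l k νA x / u) = 1 := by
      rw [map_div, huz', div_self']
    obtain ⟨v, hv⟩ := h90 _ h3
    have hv' : pr l k νA x / u = dg g v := hv
    have h4 : (pr l k νA x / u) ^ w = dg g (pr l k νA v) := by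
      rw [hw, ← pr_part l k νA (div_mem hz hu.2), comm_pr l k νA (dg g) hdgA, ← hv']
    have hy₁ := pr_mem l k νA qA v
    have hy := pr_mem l k νI qI b
    have h5 : (dg g : I →* I) (pr l k νI b ^ w / dv (pr l k νA v)) = 1 := by
      rw [map_div, ← hdv_dg, ← h4, map_pow, hyz b x h2, map_pow, map_div, hu1, div_one, div_self']
    have hpart : pr l k νI b ^ w / dv (pr l k νA v) ∈ part l νI := by
      refine div_mem (pow_mem hy w) (mem_part.2 fun i hi => ?_)
      rw [← dvν i hi, mem_part.1 hy₁ i hi, map_one]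
    have h7 : pr l k νI b ^ w ∈ U := by
      have e : pr l k νI b ^ w =
          pr l k νI b ^ w / dv (pr l k νA v) * dv (pr l k νA v) := by
        rw [div_mul_cancel]
      rw [e]
      exact mul_mem (le_sup_left (a := V) (b := P) ⟨hpart, h5⟩)
        (le_sup_right (a := V) (b := P) ⟨_, rfl⟩)
    have h8 : (pr l k νI b / b ^ w) ^ w ∈ U :=
      (le_sup_right : P ≤ V ⊔ P) (pow_mem (pr_partM l k νI P hstP hb.1) w)
    have e : b ^ (w * w) = pr l k νI b ^ w / (pr l k νI b / b ^ w) ^ w := by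
      rw [div_pow, div_div_cancel, pow_mul]
    rw [e]
    exact div_mem h7 h8
  have hv0 : padicValNat p (U.relIndex U₀) = 0 :=
    padic_zero p (n := w * w) (Nat.Coprime.mul_left hwp hwp) hkill
  -- indices
  have hn1 : P.relIndex Up ≠ 0 := by
    have h1 : P.index ≠ 0 := by
      have : Finite (I ⧸ P) := fin
      exact Subgroup.index_ne_zero_of_finite
    exact fun h => h1 (by
      have := Subgroup.relIndex_dvd_index_of_normal P Up
      rw [h] at this
      exact Nat.eq_zero_of_zero_dvd this)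
  have hPU : P ≤ U := le_sup_right
  have hm1 := Subgroup.relIndex_mul_relIndex P U Up hPU (hUU₀.trans hU₀p)
  have hm2 := Subgroup.relIndex_mul_relIndex U U₀ Up hUU₀ hU₀p
  have hn2 : P.relIndex U ≠ 0 := fun h => hn1 (by rw [← hm1, h, zero_mul])
  have hn3 : U.relIndex Up ≠ 0 := fun h => hn1 (by rw [← hm1, h, mul_zero])
  have hn4 : U.relIndex U₀ ≠ 0 := fun h => hn3 (by rw [← hm2, h, zero_mul])
  have hn5 : U₀.relIndex Up ≠ 0 := fun h => hn3 (by rw [← hm2, h, mul_zero])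
  rw [← hm1, padicValNat.mul hn2 hn3, ← hm2, padicValNat.mul hn4 hn5, hv0, zero_add, add_comm]
  exact Nat.add_le_add_right (padic_mono p h0 hd1) _

/-- part (2): indices -/
theorem abr2 (p q : ℕ) [Fact p.Prime] {A I A' I' G κ : Type} [CommGroup A]
    [CommGroup I] [CommGroup A'] [CommGroup I'] [Group G] [MulDistribMulAction G A]
    [MulDistribMulAction G I] (l : List κ) (k : κ → ℕ) (νA : κ → A →* A) (νI : κ → I →* I)
    (νA' : κ → A' →* A') (νI' : κ → I' →* I') (dv : A →* I) (dv' : A' →* I') (ι : A' →* A)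
    (ε : I' →* I) (g : G) (had : AD0 p q l k νA νI νA' νI' dv dv' ι ε g)
    (hX : ((part l νI').map ε).relIndex (part l νI ⊓ (dg g : I →* I).ker) ≠ 0) :
    ((part l νI' ⊓ dv'.range).map ε).relIndex
      (part l νI ⊓ (dg g : I →* I).ker ⊓ dv.range) ≠ 0 ∧
    padicValNat p (dv.range.relIndex (part l νI ⊓ (dg g : I →* I).ker ⊔ dv.range)) +
      padicValNat p (((part l νI' ⊓ dv'.range).map ε).relIndex
        (part l νI ⊓ (dg g : I →* I).ker ⊓ dv.range)) ≤
      padicValNat p (dv'.range.relIndex (partM l νI' dv'.range)) +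
      padicValNat p (((part l νI').map ε).relIndex (part l νI ⊓ (dg g : I →* I).ker)) := by
  obtain ⟨cop, qA, qI, gq, dvg, gA, gI, dvν, sq, εν, ιν, εinj, gε, gι, h90, fixA, fin, fin'⟩ :=
    had
  set P := dv.range with hP
  set P' := dv'.range with hP'
  set V := part l νI ⊓ (dg g : I →* I).ker with hV
  set W := (part l νI' ⊓ P').map ε with hW
  set X := (part l νI').map ε with hXd
  set X' := partM l νI' P' with hX'
  have hst : ∀ i ∈ l, ∀ a, νI' i (dv' a) = dv' (νA' i a) := by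
    intro i hi a
    apply εinj
    rw [εν i hi, sq, ← dvν i hi, sq, ιν i hi]
  have hPX : P' ≤ X' := by
    rintro _ ⟨a, rfl⟩
    rw [hX', mem_partM]
    intro i hi
    rw [hst i hi]
    exact ⟨_, rfl⟩
  have hQX : part l νI' ≤ X' := by
    intro c hc
    refine mem_partM.2 fun i hi => ?_
    rw [mem_part.1 hc i hi]
    exact one_mem _
  have hXV : X ≤ V := by
    rintro _ ⟨c, hc, rfl⟩
    refine ⟨mem_part.2 fun i hi => ?_, (mem_dg_ker g _).2 (gε _)⟩
    rw [← εν i hi, mem_part.1 hc i hi, map_one]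
  have hWX : W ≤ X := Subgroup.map_mono inf_le_left
  have hWP : W ≤ P := by
    rintro _ ⟨c, ⟨-, a, rfl⟩, rfl⟩
    rw [sq]
    exact ⟨_, rfl⟩
  have hWVP : W ≤ V ⊓ P := le_inf (hWX.trans hXV) hWP
  have hn1 : P'.relIndex X' ≠ 0 := by
    have h1 : P'.index ≠ 0 := by
      have : Finite (I' ⧸ P') := fin'
      exact Subgroup.index_ne_zero_of_finite
    exact fun h => h1 (by
      have := Subgroup.relIndex_dvd_index_of_normal P' X'
      rw [h] at this
      exact Nat.eq_zero_of_zero_dvd this)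
  have hWX' : W.relIndex X ∣ P'.relIndex X' := by
    have h1 : W.relIndex X ∣ (part l νI' ⊓ P').relIndex (part l νI') := map_dvd ε _ _
    rw [Subgroup.inf_relIndex_left] at h1
    exact h1.trans (rel_dvd_right hPX hQX)
  have hn2 : W.relIndex X ≠ 0 := fun h => hn1 (by
    rw [h] at hWX'
    exact Nat.eq_zero_of_zero_dvd hWX')
  have hm1 := Subgroup.relIndex_mul_relIndex W X V hWX hXV
  have hm2 := Subgroup.relIndex_mul_relIndex W (V ⊓ P) V hWVP inf_le_left
  have hn3 : W.relIndex V ≠ 0 := by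
    rw [← hm1]
    exact mul_ne_zero hn2 hX
  have hn4 : W.relIndex (V ⊓ P) ≠ 0 := fun h => hn3 (by rw [← hm2, h, zero_mul])
  have hn5 : (V ⊓ P).relIndex V ≠ 0 := fun h => hn3 (by rw [← hm2, h, mul_zero])
  have hVP : P.relIndex (V ⊔ P) = (V ⊓ P).relIndex V := by
    rw [Subgroup.relIndex_sup_right, Subgroup.inf_relIndex_left]
  refine ⟨hn4, ?_⟩
  rw [hVP, ← padicValNat.mul hn5 hn4, mul_comm, hm2, ← hm1, padicValNat.mul hn2 hX]
  exact Nat.add_le_add_right (padic_mono p hn1 hWX') _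

end ABR

open _root_.Pool.Agent.OTE.ABR

theorem te_ABR : Se_ABR := by
  intro p q hp A I A' I' G κ _ _ _ _ _ _ _ l k νA νI νA' νI' dv dv' ι ε g had h0 h1 h2
  obtain ⟨hne, h3⟩ := abr2 p q l k νA νI νA' νI' dv dv' ι ε g had h2
  have h4 := abr1 p q l k νA νI νA' νI' dv dv' ι ε g had h0
  have h5 := ABR3.abr3 p q l k νA νI νA' νI' dv dv' ι ε g had h1 hne
  omega

end Pool.Agent.OTE


end
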