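import Mathlib.GroupTheory.SchurZassenhaus
import Pool.Agent.MVF.C012
import Pool.Agent.MVF.C029
import Pool.Agent.MVF.C030
import Pool.Agent.MVF.C048
import Pool.Agent.MVF.C074
import Pool.Agent.MVF.C103
import Pool.Agent.MVF.C104
import Pool.Agent.OUM.C01

/-! Parts: RID.P_GENC, RID.P_NRM, RID.P_SCI, RID.P_SCM, RID.P_CDR, OT.E_CPD, OT.E_IDX, OT.E_PPP, OT.E_RNK, OT.E_STP, OT.E_SY0, OT.E_TWR -/

section

/-!
# Decomposition fields and the growth of class groups, module GENC
-/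

open NumberField Finset IsDedekindDomain
open scoped nonZeroDivisors Pointwise

namespace Pool.Agent.RID

open Pool.Agent.RI

namespace GENC

/-! ### Norms for subgroups -/

section Norms

set_option linter.unusedSectionVars false

variable {F E L : Type} [Field F] [NumberField F] [Field E] [NumberField E] [Field L]
  [NumberField L] [Algebra F E] [Algebra F L] [Algebra E L] [IsScalarTower F E L]

lemma restrict_smul (τ : L ≃ₐ[E] L) (b : J L) : (τ.restrictScalars F) • b = τ • b := by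
  apply Units.ext
  ext x
  rw [RI.mem_smul, RI.mem_smul]
  rfl

/-- The automorphisms over `E` are the elements of the subgroup `N`. -/
noncomputable def eqv (N : Subgroup (L ≃ₐ[F] L))
    (hN : ∀ σ : L ≃ₐ[F] L, σ ∈ N ↔ ∀ x : E, σ (algebraMap E L x) = algebraMap E L x) :
    (L ≃ₐ[E] L) ≃ N where
  toFun τ := ⟨τ.restrictScalars F, (hN _).2 fun x => τ.commutes x⟩
  invFun σ := { (σ : L ≃ₐ[F] L) with commutes' := (hN _).1 σ.2 }
  left_inv τ := by ext x; rfl
  right_inv σ := by ext x; rfl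

lemma nuS_eq (N : Subgroup (L ≃ₐ[F] L))
    (hN : ∀ σ : L ≃ₐ[F] L, σ ∈ N ↔ ∀ x : E, σ (algebraMap E L x) = algebraMap E L x) (b : J L) :
    nuS N b = CL.nm E L b := by
  classical
  let _ := Fintype.ofFinite N
  rw [nuS_apply, CL.nm_apply]
  refine (Fintype.prod_equiv (eqv N hN) _ _ fun τ => ?_).symm
  exact (restrict_smul τ b).symm

lemma card_eq [IsGalois E L] (N : Subgroup (L ≃ₐ[F] L))
    (hN : ∀ σ : L ≃ₐ[F] L, σ ∈ N ↔ ∀ x : E, σ (algebraMap E L x) = algebraMap E L x) :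
    Nat.card N = Module.finrank E L := by
  rw [← Nat.card_congr (eqv N hN), IsGalois.card_aut_eq_finrank]

end Norms

/-! ### Ideals -/

lemma ext_mk0 {E L : Type} [Field E] [NumberField E] [Field L] [NumberField L] [Algebra E L]
    (I : (Ideal (𝓞 E))⁰) (I' : (Ideal (𝓞 L))⁰)
    (h : (I' : Ideal (𝓞 L)) = (I : Ideal (𝓞 E)).map (algebraMap (𝓞 E) (𝓞 L))) :
    ext E L (FractionalIdeal.mk0 E I) = FractionalIdeal.mk0 L I' := by
  apply Units.ext
  show FractionalIdeal.extendedHom L (𝓞 L) (I : FractionalIdeal (𝓞 E)⁰ E) = _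
  rw [FractionalIdeal.extendedHom_coeIdeal_eq_map, ← h, FractionalIdeal.coe_mk0]

/-- Every fractional ideal is the quotient of an integral one by a principal one. -/
lemma exists_mk0 {E : Type} [Field E] [NumberField E] (c : J E) :
    ∃ (a : Eˣ) (I : (Ideal (𝓞 E))⁰), c = prin a * FractionalIdeal.mk0 E I := by
  obtain ⟨a, I, ha, hc⟩ := FractionalIdeal.exists_eq_spanSingleton_mul
    (c : FractionalIdeal (𝓞 E)⁰ E)
  have ha' : (algebraMap (𝓞 E) E a) ≠ 0 := by simpa using ha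
  have hI : I ≠ 0 := by
    rintro rfl
    apply c.ne_zero
    rw [hc]; simp
  refine ⟨(Units.mk0 _ ha')⁻¹, ⟨I, mem_nonZeroDivisors_of_ne_zero hI⟩, ?_⟩
  rw [map_inv]
  rw [← map_inv]
  apply Units.ext
  rw [hc, Units.val_mul, coe_toPrincipalIdeal]
  simp

/-- The ideals `I 𝓞_L`, `I` an ideal of a field in `S`, as fractional ideals. -/
noncomputable def gens (L : IntermediateField ℚ ℂ) [FiniteDimensional ℚ L]
    (S : Set (IntermediateField ℚ ℂ)) : Set (J L) :=
  {b | ∃ E ∈ S, ∃ (h : E ≤ L) (I : Ideal (𝓞 E)) (I' : (Ideal (𝓞 L))⁰),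
    (I' : Ideal (𝓞 L)) =
      I.map (RingOfIntegers.mapRingHom (IntermediateField.inclusion h : E →+* L)) ∧
    b = FractionalIdeal.mk0 L I'}

lemma index_aux {C I : Type} [CommGroup C] [CommGroup I] (P : Subgroup I) (e : C ≃* I ⧸ P)
    (S : Set C) (T : Set I)
    (h : (e : C → I ⧸ P) '' S = (QuotientGroup.mk' P : I → I ⧸ P) '' T) :
    (Subgroup.closure S).index = (P ⊔ Subgroup.closure T).index := by
  have h1 : (Subgroup.closure S).map (e : C →* I ⧸ P) =
      (Subgroup.closure T).map (QuotientGroup.mk' P) := by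
    rw [MonoidHom.map_closure, MonoidHom.map_closure]
    congr 1
  rw [← Subgroup.index_map_equiv _ e, h1,
    ← Subgroup.index_comap_of_surjective _ (QuotientGroup.mk'_surjective P),
    Subgroup.comap_map_eq, QuotientGroup.ker_mk', sup_comm]

lemma index_fromSub (L : IntermediateField ℚ ℂ) [FiniteDimensional ℚ L]
    (S : Set (IntermediateField ℚ ℂ)) :
    (fromSub L S).index =
      ((prin : (↥L)ˣ →* J L).range ⊔ Subgroup.closure (gens L S)).index := by
  unfold fromSub
  refine index_aux (C := ClassGroup (𝓞 L)) (I := J L) (prin : (↥L)ˣ →* J L).range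
    (ClassGroup.equiv (R := 𝓞 L) L) _ _ ?_
  ext y
  constructor
  · rintro ⟨c, ⟨E, hE, h, I, I', h1, rfl⟩, rfl⟩
    exact ⟨FractionalIdeal.mk0 L I', ⟨E, hE, h, I, I', h1, rfl⟩,
      (ClassGroup.equiv_mk0 (R := 𝓞 L) L I').symm⟩
  · rintro ⟨c, ⟨E, hE, h, I, I', h1, rfl⟩, rfl⟩
    exact ⟨ClassGroup.mk0 I', ⟨E, hE, h, I, I', h1, rfl⟩,
      ClassGroup.equiv_mk0 (R := 𝓞 L) L I'⟩

lemma fd_of_le {E F : IntermediateField ℚ ℂ} (h : E ≤ F) [FiniteDimensional ℚ F] :
    FiniteDimensional ℚ E :=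
  FiniteDimensional.of_injective (IntermediateField.inclusion h).toLinearMap
    (IntermediateField.inclusion h).injective

lemma map_ringHom {E L : IntermediateField ℚ ℂ} (h : E ≤ L) :
    letI := algC h
    algebraMap (𝓞 E) (𝓞 L) =
      RingOfIntegers.mapRingHom (IntermediateField.inclusion h : E →+* L) := by
  let _ := algC h
  ext x
  rfl

/-- Extended ideals are in the subgroup generated by `gens` and the principal ideals. -/
lemma ext_mem (L : IntermediateField ℚ ℂ) [FiniteDimensional ℚ L]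
    (S : Set (IntermediateField ℚ ℂ)) {E : IntermediateField ℚ ℂ} [FiniteDimensional ℚ E]
    (hE : E ∈ S) (h : E ≤ L) (c : J E) :
    letI := algC h
    ext E L c ∈ (prin : (↥L)ˣ →* J L).range ⊔ Subgroup.closure (gens L S) := by
  let _ := algC h
  obtain ⟨a, I, rfl⟩ := exists_mk0 c
  rw [map_mul]
  refine mul_mem ?_ ?_
  · rw [ext_prin]
    exact Subgroup.mem_sup_left ⟨_, rfl⟩
  · have hne : (I : Ideal (𝓞 E)).map (algebraMap (𝓞 E) (𝓞 L)) ≠ 0 := by
      rw [Ne, Ideal.zero_eq_bot, Ideal.map_eq_bot_iff_of_injective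
        (FaithfulSMul.algebraMap_injective (𝓞 E) (𝓞 L))]
      exact nonZeroDivisors.coe_ne_zero I
    rw [ext_mk0 I ⟨_, mem_nonZeroDivisors_of_ne_zero hne⟩ rfl]
    apply Subgroup.mem_sup_right
    apply Subgroup.subset_closure
    exact ⟨E, hE, h, I, ⟨_, mem_nonZeroDivisors_of_ne_zero hne⟩, by rw [← map_ringHom h], rfl⟩

/-- The generators are extended ideals. -/
lemma gens_eq (L : IntermediateField ℚ ℂ) [FiniteDimensional ℚ L]
    (S : Set (IntermediateField ℚ ℂ)) (b : J L) (hb : b ∈ gens L S) :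
    ∃ E ∈ S, ∃ h : E ≤ L, ∀ _ : FiniteDimensional ℚ E,
    letI := algC h
    ∃ c : J E, b = ext E L c := by
  obtain ⟨E, hE, h, I, I', h1, rfl⟩ := hb
  refine ⟨E, hE, h, fun _ => ?_⟩
  let _ := algC h
  have hI : I ≠ 0 := by
    rintro rfl
    apply nonZeroDivisors.coe_ne_zero I'
    rw [h1]
    simp
  refine ⟨FractionalIdeal.mk0 E ⟨I, mem_nonZeroDivisors_of_ne_zero hI⟩, ?_⟩
  rw [ext_mk0 _ I']
  rw [h1, ← map_ringHom h]

/-- The norms for the groups `NC h D`. -/
lemma nuS_NC (L : IntermediateField ℚ ℂ) [FiniteDimensional ℚ L] {F D : IntermediateField ℚ ℂ}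
    [FiniteDimensional ℚ F] (h : F ≤ L) (hFD : F ≤ D) (hD : D ≤ L) (hg : IsGalois F (IntermediateField.extendScalars h)) :
    haveI := fd_of_le hD
    letI := algC h
    letI := algC hD
    (∀ b : J L, ∃ c : J D, nuS (NC h D) b = ext D L c) ∧
      ∀ c : J D, nuS (NC h D) (ext D L c) = ext D L c ^ Nat.card (NC h D) := by
  have _ := fd_of_le hD
  let _ := algC h
  let _ := algC hD
  let _ := algC hFD
  have : IsScalarTower F D L := towerC hFD hD
  have g1 : IsGalois F L := (isGalois_algC h).2 hg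
  have g2 : IsGalois D L := IsGalois.tower_top_of_isGalois F D L
  have hN : ∀ σ : L ≃ₐ[F] L, σ ∈ NC h D ↔
      ∀ x : D, σ (algebraMap D L x) = algebraMap D L x := by
    intro σ
    constructor
    · intro hσ x
      exact hσ (algebraMap D L x) x.2
    · intro hσ x hx
      exact hσ ⟨x, hx⟩
  constructor
  · intro b
    obtain ⟨c, hc⟩ := CL.nm_mem (F := D) b
    exact ⟨c, by rw [nuS_eq (E := D) (NC h D) hN, hc]⟩
  · intro c
    rw [nuS_eq (E := D) (NC h D) hN, CL.nm_ext, card_eq (E := D) (NC h D) hN]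

end GENC

open _root_.Pool.Agent.RID.GENC in
theorem t_GENC (hGENA : S_GENA) (hSCN : S_SCN) (hNUS : S_NUS) : S_GENC := by
  intro p _ F K M fF fK fM l hCD h
  let _ := algC h
  have hL : FiniteDimensional ℚ ↥(K ⊔ M) := inferInstance
  have hg : IsGalois F (IntermediateField.extendScalars h) :=
    BCH_thm.2 F K M hCD.hK hCD.hM h hCD.gK hCD.gM
  obtain ⟨-, -, -, -, hN5, hN6⟩ := hNUS
  have hsc := fun E hE => hSCN p F K M l hCD h E hE
  have hnrm : ∀ E ∈ l, (NC h (E ⊔ M)).Normal := fun E hE => (hsc E hE).1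
  obtain ⟨-, hQ, -, -⟩ := hN6 F ↥(K ⊔ M) (IntermediateField ℚ ℂ) l (fun E => NC h (E ⊔ M)) hnrm
  have hle : ∀ E ∈ l, E ⊔ M ≤ K ⊔ M := by
    intro E hE
    obtain ⟨_, h2, _⟩ := hCD.mem E hE
    exact sup_le_sup_right h2 M
  have key := hGENA p (J ↥(K ⊔ M)) (IntermediateField ℚ ℂ) l
    (fun E => Nat.card (NC h (E ⊔ M))) (fun E => nuS (NC h (E ⊔ M)))
    (prin : (↥(K ⊔ M))ˣ →* J ↥(K ⊔ M)).range
    ((prin : (↥(K ⊔ M))ˣ →* J ↥(K ⊔ M)).range ⊔
      Subgroup.closure (gens (K ⊔ M) {D | ∃ E ∈ {E | E ∈ l}, D = E ⊔ M}))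
    (gens (K ⊔ M) {D | ∃ E ∈ {E | E ∈ l}, D = E ⊔ M})
    (fun E hE => (hsc E hE).2.1) hQ ?_ inferInstance ?_ rfl ?_
  · unfold eOf
    rw [index_fromSub, key]
    rfl
  · rintro E hE _ ⟨x, rfl⟩
    exact ⟨nuS (NC h (E ⊔ M)) x, hN5 F ↥(K ⊔ M) _ x⟩
  · intro E hE x
    have hFD : F ≤ E ⊔ M := hCD.hM.trans le_sup_right
    obtain ⟨c, hc⟩ := (nuS_NC (K ⊔ M) h hFD (hle E hE) hg).1 x
    rw [hc]
    have _ := fd_of_le (hle E hE)
    exact ext_mem (K ⊔ M) {D | ∃ E ∈ {E | E ∈ l}, D = E ⊔ M}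
      (show E ⊔ M ∈ {D | ∃ E ∈ {E | E ∈ l}, D = E ⊔ M} from ⟨E, hE, rfl⟩) (hle E hE) c
  · intro b hb
    obtain ⟨D, ⟨E, hE, rfl⟩, h1, h2⟩ := gens_eq _ _ _ hb
    have hFD : F ≤ E ⊔ M := hCD.hM.trans le_sup_right
    obtain ⟨c, hc⟩ := h2 (fd_of_le (hle E hE))
    exact ⟨E, hE, by rw [hc]; exact (nuS_NC (K ⊔ M) h hFD (hle E hE) hg).2 c⟩

end Pool.Agent.RID


end

section

/-!
# Decomposition fields: the relative norm (NRM)
-/

open NumberField Finset
open scoped nonZeroDivisors Pointwise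

namespace Pool.Agent.RID

open Pool.Agent.RI

namespace NRM

/-- `ng g q` commutes with an operator that commutes with `g`. -/
lemma ng_comm {G X : Type} [Group G] [CommGroup X] [MulDistribMulAction G X] (g : G) (q : ℕ)
    (f : X →* X) (h : ∀ x, g • f x = f (g • x)) (x : X) : f (ng g q x) = ng g q (f x) := by
  have key : ∀ (i : ℕ) (x : X), g ^ i • f x = f (g ^ i • x) := by
    intro i
    induction i with
    | zero => intro x; simp
    | succ i ih => intro x; rw [pow_succ, mul_smul, mul_smul, h, ih]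
  rw [ng_apply, ng_apply, map_prod]
  exact Finset.prod_congr rfl fun i _ => (key i x).symm

/-- `nuS N` commutes with an element that commutes with the elements of `N`. -/
lemma nuS_comm {G X : Type} [Group G] [Finite G] [CommGroup X] [MulDistribMulAction G X]
    (N : Subgroup G) (g : G) (h : ∀ σ ∈ N, σ * g = g * σ) (x : X) :
    g • nuS N x = nuS N (g • x) := by
  classical
  letI := Fintype.ofFinite N
  rw [nuS_apply, nuS_apply, Finset.smul_prod']
  refine Finset.prod_congr rfl fun σ _ => ?_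
  rw [← mul_smul, ← mul_smul, h (σ : G) σ.2]

end NRM

theorem t_NRM (hCYC : S_CYC) (hRES : S_RES) (_hNUS : S_NUS) : S_NRM := by
  intro F K L κ _ _ _ _ _ _ _ _ _ _ l N' N g q hcyc hmat hcom b hb
  obtain ⟨hgal, -, -, -, -, -, hJ, -, -, -, -⟩ := hCYC F K L g q hcyc
  haveI := hgal
  obtain ⟨c, hc⟩ := CL.nm_mem (F := K) (K := L) b
  have hc' : ext K L c = ng g q b := by
    rw [hc, hJ b, CL.nm_apply]
  refine ⟨c, ?_, hc'⟩
  intro i hi
  obtain ⟨x, hx⟩ := hb i hi
  refine ⟨Units.map (Algebra.norm K : L →* K) x, ?_⟩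
  apply ext_injective K L
  have h1 := (hRES F K L (N' i) (N i) (hmat i hi)).1 c
  have h2 : nuS (N i) (ng g q b) = ng g q (nuS (N i) b) :=
    NRM.ng_comm g q (nuS (N i)) (NRM.nuS_comm (N i) g (hcom i hi)) b
  rw [h1, hc', h2]
  have h3 : ng g q (nuS (N i) b) = ng g q (prin x) := congrArg _ hx.symm
  rw [h3, hJ (prin x), ← CL.nm_apply, CL.nm_prin]

end Pool.Agent.RID


end

section

/-!
# Decomposition fields: infinite places
-/

open NumberField IsDedekindDomain
open scoped nonZeroDivisors Pointwise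

namespace Pool.Agent.RID

open Pool.Agent.RI Pool.Agent.RI.TSTEP

theorem t_SCI : S_SCI := by
  intro p _ F K M' M fdK fdM' fdM l hCD h₁ h₂ gM' h'
  obtain ⟨hBCH1, hBCH2⟩ := BCH_thm
  have hK := hCD.hK
  have hur := hCD.inf
  have gM := hCD.gM
  have gK := hCD.gK
  have hK'L : K ⊔ M' ≤ K ⊔ M := h'
  have hML : M ≤ K ⊔ M := le_sup_right
  have hFM : F ≤ M := h₁.trans h₂
  have hFL : F ≤ K ⊔ M := hK.trans le_sup_left
  have hFK' : F ≤ K ⊔ M' := hK.trans le_sup_left
  have fdF : FiniteDimensional ℚ F := fd_of_le hK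
  let aFL : Algebra F ↥(K ⊔ M) := algC hFL
  let aFK' : Algebra F ↥(K ⊔ M') := algC hFK'
  let aK'L : Algebra ↥(K ⊔ M') ↥(K ⊔ M) := algC hK'L
  let aML : Algebra M ↥(K ⊔ M) := algC hML
  have t1 : IsScalarTower F ↥(K ⊔ M') ↥(K ⊔ M) := towerC hFK' hK'L
  have gFL : IsGalois F ↥(K ⊔ M) := (isGalois_algC hFL).2 (hBCH2 F K M hK hFM hFL gK gM)
  have gK'L : IsGalois ↥(K ⊔ M') ↥(K ⊔ M) :=
    IsGalois.tower_top_of_isGalois F ↥(K ⊔ M') ↥(K ⊔ M)
  have hadj : IntermediateField.adjoin ↥(K ⊔ M') (Set.range (algebraMap M ↥(K ⊔ M))) = ⊤ :=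
    adjoin_top (A := M) (B := K ⊔ M') (C := K ⊔ M)
      (le_antisymm (sup_le (le_sup_left.trans le_sup_right) le_sup_left)
        (sup_le le_sup_right hK'L)) hK'L hML
  have hinf1 : Fintype.card (InfinitePlace ↥(K ⊔ M)) =
      Module.finrank ↥(K ⊔ M') ↥(K ⊔ M) * Fintype.card (InfinitePlace ↥(K ⊔ M')) := by
    refine INF_thm ↥(K ⊔ M') ↥(K ⊔ M) (Set.range (algebraMap M ↥(K ⊔ M))) ?_ ?_
    · exact hadj
    · rintro φ hφ _ ⟨s, rfl⟩
      refine hur (φ.comp (algebraMap M ↥(K ⊔ M))) ?_ s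
      intro x hx
      have := hφ ⟨(x : ℂ), (hK.trans le_sup_left) hx⟩
      exact this
  rw [Nat.card_eq_fintype_card, Nat.card_eq_fintype_card]
  exact hinf1

end Pool.Agent.RID


end

section

/-!
# Module SCM: restriction from `K M` to `K M'`
-/

set_option autoImplicit false

open NumberField Finset IsDedekindDomain
open scoped nonZeroDivisors Pointwise

namespace Pool.Agent.RID

open Pool.Agent.RI

namespace SCM

/-- Two endomorphisms of `K ⊔ M` that agree on `K` and on `M` are equal. -/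
lemma agree (K M : IntermediateField ℚ ℂ) (f g : ↥(K ⊔ M) →+* ↥(K ⊔ M))
    (hK : ∀ x : ↥(K ⊔ M), (x : ℂ) ∈ K → f x = g x)
    (hM : ∀ x : ↥(K ⊔ M), (x : ℂ) ∈ M → f x = g x) (x : ↥(K ⊔ M)) : f x = g x := by
  let S : IntermediateField ℚ ℂ :=
    { carrier := {z | ∃ hz : z ∈ K ⊔ M, f ⟨z, hz⟩ = g ⟨z, hz⟩}
      mul_mem' := by
        rintro a b ⟨ha, ha'⟩ ⟨hb, hb'⟩
        refine ⟨mul_mem ha hb, ?_⟩
        have e : (⟨a * b, mul_mem ha hb⟩ : ↥(K ⊔ M)) = ⟨a, ha⟩ * ⟨b, hb⟩ := rfl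
        rw [e, map_mul, map_mul, ha', hb']
      add_mem' := by
        rintro a b ⟨ha, ha'⟩ ⟨hb, hb'⟩
        refine ⟨add_mem ha hb, ?_⟩
        have e : (⟨a + b, add_mem ha hb⟩ : ↥(K ⊔ M)) = ⟨a, ha⟩ + ⟨b, hb⟩ := rfl
        rw [e, map_add, map_add, ha', hb']
      algebraMap_mem' := by
        intro r
        refine ⟨IntermediateField.algebraMap_mem _ r, ?_⟩
        have e : (⟨algebraMap ℚ ℂ r, IntermediateField.algebraMap_mem _ r⟩ : ↥(K ⊔ M)) =
            (algebraMap ℚ ↥(K ⊔ M)) r := rfl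
        rw [e]
        have h1 : f.comp (algebraMap ℚ ↥(K ⊔ M)) = g.comp (algebraMap ℚ ↥(K ⊔ M)) :=
          Subsingleton.elim _ _
        exact congrArg (fun φ : ℚ →+* ↥(K ⊔ M) => φ r) h1
      inv_mem' := by
        rintro a ⟨ha, ha'⟩
        refine ⟨inv_mem ha, ?_⟩
        have e : (⟨a⁻¹, inv_mem ha⟩ : ↥(K ⊔ M)) = (⟨a, ha⟩ : ↥(K ⊔ M))⁻¹ := rfl
        rw [e, map_inv₀, map_inv₀, ha'] }
  have h1 : K ≤ S := fun z hz => ⟨(le_sup_left : K ≤ K ⊔ M) hz, hK ⟨z, _⟩ hz⟩
  have h2 : M ≤ S := fun z hz => ⟨(le_sup_right : M ≤ K ⊔ M) hz, hM ⟨z, _⟩ hz⟩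
  obtain ⟨_, h3⟩ := (sup_le h1 h2) x.2
  exact h3

/-- The order of `NC`. -/
lemma card_NC {F L : IntermediateField ℚ ℂ} (h : F ≤ L) (D : IntermediateField ℚ ℂ)
    (hFD : F ≤ D) (hDL : D ≤ L) [FiniteDimensional ℚ L]
    (hg : IsGalois F (IntermediateField.extendScalars h)) :
    letI := algC h
    Nat.card (NC h D) = IntermediateField.relfinrank D L := by
  let := algC h
  let := algC hDL
  let := algC hFD
  have : IsScalarTower F D L := towerC hFD hDL
  have hgF : IsGalois F L := (isGalois_algC h).2 hg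
  have hgD : IsGalois D L := IsGalois.tower_top_of_isGalois F D L
  have hfin : FiniteDimensional D L := by
    have := BCH.fin_ext hDL
    exact (extEquiv hDL).toLinearEquiv.finiteDimensional
  let e : NC h D ≃ (L ≃ₐ[D] L) :=
    { toFun := fun σ =>
        { (σ : L ≃ₐ[F] L).toRingEquiv with
          commutes' := fun d => σ.2 (algebraMap D L d) d.2 }
      invFun := fun τ => ⟨τ.restrictScalars F, fun x hx => τ.commutes ⟨x, hx⟩⟩
      left_inv := fun σ => rfl
      right_inv := fun τ => rfl }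
  rw [Nat.card_congr e, IsGalois.card_aut_eq_finrank D L,
    IntermediateField.relfinrank_eq_finrank_of_le hDL, finrank_algC hDL]

/-- Divisibility of degrees under base change. -/
lemma bc_dvd (A C E A' C' : IntermediateField ℚ ℂ) [FiniteDimensional ℚ C]
    [FiniteDimensional ℚ E] (h : A ≤ C) (hA : A' = A ⊔ E) (hC : C' = C ⊔ E)
    (hg : IsGalois A (IntermediateField.extendScalars h)) :
    IntermediateField.relfinrank A' C' ∣ IntermediateField.relfinrank A C := by
  have h' : A' ≤ C' := by rw [hA, hC]; exact sup_le_sup_right h E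
  have h1 := (BCH_thm.1 A C E A' C' h h' hA hC hg).2
  rwa [← IntermediateField.relfinrank_eq_finrank_of_le h',
    ← IntermediateField.relfinrank_eq_finrank_of_le h] at h1

/-- The upper part of a Galois extension. -/
lemma gal_top {F D L : IntermediateField ℚ ℂ} (hFD : F ≤ D) (hDL : D ≤ L) (hFL : F ≤ L)
    (hg : IsGalois F (IntermediateField.extendScalars hFL)) :
    IsGalois D (IntermediateField.extendScalars hDL) := by
  let := algC hFD
  let := algC hDL
  let := algC hFL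
  have : IsScalarTower F D L := towerC hFD hDL
  have hgF : IsGalois F L := (isGalois_algC hFL).2 hg
  exact (isGalois_algC hDL).1 (IsGalois.tower_top_of_isGalois F D L)

lemma eqn {p a b c d N s : ℕ} (h : b * a = d * c) (hN : N.Coprime p) (ha : a ∣ N) (hd : d ∣ N)
    (hb : b ∣ p ^ s) (hc : c ∣ p ^ s) : a = d := by
  have h1 : N.Coprime (p ^ s) := hN.pow_right s
  have h2 : a.Coprime c := (h1.coprime_dvd_left ha).coprime_dvd_right hc
  have h3 : d.Coprime b := (h1.coprime_dvd_left hd).coprime_dvd_right hb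
  apply Nat.dvd_antisymm
  · exact h2.dvd_of_dvd_mul_right (h ▸ Dvd.intro_left b rfl)
  · exact h3.dvd_of_dvd_mul_left (h ▸ Dvd.intro c rfl)

end SCM

open _root_.Pool.Agent.RID.SCM

theorem t_SCM (_hSCN : S_SCN) : S_SCM := by
  intro p hp F K M' M _ _ _ l hcd h₁ hM'M hg' h h' E hE
  obtain ⟨hFE, hEK, hgE⟩ := hcd.mem E hE
  have hEM'E : E ⊔ M' ≤ E ⊔ M := sup_le_sup_left hM'M E
  have hE1 : E ⊔ M' ≤ K ⊔ M' := sup_le_sup_right hEK M'
  have hE2 : E ⊔ M ≤ K ⊔ M := sup_le_sup_right hEK M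
  have hgK₁ : IsGalois F (IntermediateField.extendScalars h) :=
    BCH_thm.2 F K M' hcd.hK h₁ h hcd.gK hg'
  have hgL : IsGalois F (IntermediateField.extendScalars (h.trans h')) :=
    BCH_thm.2 F K M hcd.hK hcd.hM (h.trans h') hcd.gK hcd.gM
  have hgKE : IsGalois E (IntermediateField.extendScalars hEK) := gal_top hFE hEK hcd.hK hcd.gK
  have hgMM : IsGalois M' (IntermediateField.extendScalars hM'M) :=
    gal_top h₁ hM'M hcd.hM hcd.gM
  have hfE : FiniteDimensional ℚ E :=
    FiniteDimensional.of_injective (IntermediateField.inclusion hEK).toLinearMap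
      (IntermediateField.inclusion hEK).injective
  -- degrees
  obtain ⟨s, hs⟩ := hcd.degM
  rw [← IntermediateField.relfinrank_eq_finrank_of_le hcd.hM] at hs
  have hN : (IntermediateField.relfinrank F K).Coprime p := by
    rw [Nat.coprime_comm, Nat.Prime.coprime_iff_not_dvd hp.out,
      IntermediateField.relfinrank_eq_finrank_of_le hcd.hK]
    exact hcd.copK
  have hEKF : IntermediateField.relfinrank E K ∣ IntermediateField.relfinrank F K :=
    ⟨_, by rw [mul_comm]; exact (IntermediateField.relfinrank_mul_relfinrank hFE hEK).symm⟩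
  have hMMF : IntermediateField.relfinrank M' M ∣ p ^ s := by
    rw [← hs]
    exact ⟨_, by rw [mul_comm]; exact (IntermediateField.relfinrank_mul_relfinrank h₁ hM'M).symm⟩
  have hmul1 := IntermediateField.relfinrank_mul_relfinrank hEM'E hE2
  have hmul2 := IntermediateField.relfinrank_mul_relfinrank hE1 h'
  have hdeg : IntermediateField.relfinrank (E ⊔ M) (K ⊔ M) =
      IntermediateField.relfinrank (E ⊔ M') (K ⊔ M') :=
    eqn (hmul1.trans hmul2.symm) hN
      ((bc_dvd E K M (E ⊔ M) (K ⊔ M) hEK rfl rfl hgKE).trans hEKF)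
      ((bc_dvd E K M' (E ⊔ M') (K ⊔ M') hEK rfl rfl hgKE).trans hEKF)
      ((bc_dvd M' M E (E ⊔ M') (E ⊔ M) hM'M (sup_comm _ _) (sup_comm _ _) hgMM).trans hMMF)
      ((bc_dvd M' M K (K ⊔ M') (K ⊔ M) hM'M (sup_comm _ _) (sup_comm _ _) hgMM).trans hMMF)
  have hc1 := card_NC h (E ⊔ M') (hFE.trans le_sup_left) hE1 hgK₁
  have hc2 := card_NC (h.trans h') (E ⊔ M) (hFE.trans le_sup_left) hE2 hgL
  -- restriction
  let := algC h
  let := algC h'
  let := algC (h.trans h')
  have : IsScalarTower F ↥(K ⊔ M') ↥(K ⊔ M) := towerC h h'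
  have hgF1 : IsGalois F ↥(K ⊔ M') := (isGalois_algC h).2 hgK₁
  have hgF2 : IsGalois F ↥(K ⊔ M) := (isGalois_algC (h.trans h')).2 hgL
  have hfin1 : FiniteDimensional F ↥(K ⊔ M') := by
    have := BCH.fin_ext h
    exact (extEquiv h).toLinearEquiv.finiteDimensional
  have hfin2 : FiniteDimensional F ↥(K ⊔ M) := by
    have := BCH.fin_ext (h.trans h')
    exact (extEquiv (h.trans h')).toLinearEquiv.finiteDimensional
  have hrc : ∀ (σ : ↥(K ⊔ M) ≃ₐ[F] ↥(K ⊔ M)) (x : ↥(K ⊔ M')),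
      algebraMap ↥(K ⊔ M') ↥(K ⊔ M) (σ.restrictNormal ↥(K ⊔ M') x) =
        σ (algebraMap ↥(K ⊔ M') ↥(K ⊔ M) x) :=
    fun σ x => AlgEquiv.restrictNormal_commutes σ ↥(K ⊔ M') x
  let r : NC (h.trans h') (E ⊔ M) → NC h (E ⊔ M') := fun σ =>
    ⟨(σ : ↥(K ⊔ M) ≃ₐ[F] ↥(K ⊔ M)).restrictNormal ↥(K ⊔ M'), fun x hx => by
      have h1 := hrc σ x
      have h2 : (σ : ↥(K ⊔ M) ≃ₐ[F] ↥(K ⊔ M)) (algebraMap ↥(K ⊔ M') ↥(K ⊔ M) x) =
          algebraMap ↥(K ⊔ M') ↥(K ⊔ M) x := σ.2 _ (hEM'E hx)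
      rw [h2] at h1
      exact (algebraMap ↥(K ⊔ M') ↥(K ⊔ M)).injective h1⟩
  have hrinj : Function.Injective r := by
    intro σ τ hστ
    have h0 : (σ : ↥(K ⊔ M) ≃ₐ[F] ↥(K ⊔ M)).restrictNormal ↥(K ⊔ M') =
        (τ : ↥(K ⊔ M) ≃ₐ[F] ↥(K ⊔ M)).restrictNormal ↥(K ⊔ M') := congrArg Subtype.val hστ
    apply Subtype.ext
    apply AlgEquiv.ext
    intro x
    refine agree K M ((σ : ↥(K ⊔ M) ≃ₐ[F] ↥(K ⊔ M)) : ↥(K ⊔ M) →+* ↥(K ⊔ M))
      ((τ : ↥(K ⊔ M) ≃ₐ[F] ↥(K ⊔ M)) : ↥(K ⊔ M) →+* ↥(K ⊔ M)) ?_ ?_ x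
    · intro y hy
      have h1 := hrc σ ⟨y, (le_sup_left : K ≤ K ⊔ M') hy⟩
      have h2 := hrc τ ⟨y, (le_sup_left : K ≤ K ⊔ M') hy⟩
      rw [h0, h2] at h1
      exact h1.symm
    · intro y hy
      exact (σ.2 y ((le_sup_right : M ≤ E ⊔ M) hy)).trans
        (τ.2 y ((le_sup_right : M ≤ E ⊔ M) hy)).symm
  have hcard : Nat.card (NC h (E ⊔ M')) = Nat.card (NC (h.trans h') (E ⊔ M)) := by
    rw [hc1, hc2, hdeg]
  have hbij : Function.Bijective r := by
    have hf1 : Finite (NC h (E ⊔ M')) := inferInstance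
    exact (Nat.bijective_iff_injective_and_card r).2 ⟨hrinj, hcard.symm⟩
  refine ⟨(Equiv.ofBijective r hbij).symm, fun σ x => ?_⟩
  have h1 := hrc ((Equiv.ofBijective r hbij).symm σ : NC (h.trans h') (E ⊔ M)) x
  have h2 : r ((Equiv.ofBijective r hbij).symm σ) = σ :=
    (Equiv.ofBijective r hbij).apply_symm_apply σ
  have h3 := congrArg Subtype.val h2
  rw [← h1]
  exact congrArg (fun φ : ↥(K ⊔ M') ≃ₐ[F] ↥(K ⊔ M') =>
    algebraMap ↥(K ⊔ M') ↥(K ⊔ M) (φ x)) h3.symm

end Pool.Agent.RID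


end

section

/-!
# Decomposition fields and the growth of class groups: the module CDR
-/

open NumberField Finset IsDedekindDomain
open scoped nonZeroDivisors Pointwise

namespace Pool.Agent.RID

open Pool.Agent.RI

namespace CDR

/-- The degree of an intermediate field divides the degree. -/
lemma finrank_dvd {F M' M : IntermediateField ℚ ℂ} [FiniteDimensional ℚ M] (h₁ : F ≤ M')
    (h₂ : M' ≤ M) :
    Module.finrank F (IntermediateField.extendScalars h₁) ∣
      Module.finrank F (IntermediateField.extendScalars (h₁.trans h₂)) := by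
  have hf1 := finrank_algC h₁
  have hf2 := finrank_algC (h₁.trans h₂)
  rw [← hf1, ← hf2]
  let : Algebra F M' := algC h₁
  let : Algebra M' M := algC h₂
  let : Algebra F M := algC (h₁.trans h₂)
  have : IsScalarTower F M' M := towerC h₁ h₂
  exact ⟨_, (Module.finrank_mul_finrank F M' M).symm⟩

end CDR

theorem t_CDR : S_CDR := by
  intro p hp F K M' M _ _ _ l hCD h₁ h₂ hG
  obtain ⟨hK, hM, gK, copK, gM, ⟨a, ha⟩, ne, mem, inf, ram⟩ := hCD
  refine ⟨hK, h₁, gK, copK, hG, ?_, ne, mem, MAINA.unramInf_bot h₁ h₂ inf, ?_⟩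
  · have h := CDR.finrank_dvd h₁ h₂
    have h' : Module.finrank F (IntermediateField.extendScalars h₁) ∣ p ^ a := by
      rw [← ha]; exact h
    obtain ⟨b, -, hb⟩ := (Nat.dvd_prime_pow hp.out).1 h'
    exact ⟨b, hb⟩
  · intro P hP hR
    exact ram P hP (MAINA.ramifies_of h₁ h₂ _ hR)

end Pool.Agent.RID


end

section

/-!
# OT (Theorem T+), block E: `CPD`, relatively prime degrees
-/

set_option autoImplicit false

open NumberField IsDedekindDomain Finset
open scoped nonZeroDivisors Pointwise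

namespace Pool.Agent.OTE

open _root_.Pool.Agent.RI _root_.Pool.Agent.RID _root_.Pool.Agent.MU3 _root_.MU3

theorem te_CPD : Se_CPD := by
  intro k A D N fdN hkA hA hD hDN hgal hcop
  have fdD : FiniteDimensional ℚ D :=
    Submodule.finiteDimensional_of_le (S₁ := D.toSubmodule) (S₂ := N.toSubmodule) hDN
  have fdA : FiniteDimensional ℚ A :=
    Submodule.finiteDimensional_of_le (S₁ := A.toSubmodule) (S₂ := N.toSubmodule) hA
  have hAC : A ≤ D ⊔ A := le_sup_right
  obtain ⟨_, hdvd⟩ := BCH_thm.1 k D A A (D ⊔ A) hD hAC (sup_eq_right.2 hkA).symm rfl hgal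
  have hN : D ⊔ A ≤ N := sup_le hDN hA
  have hmul := CHIEF.finrank_mul hAC hN
  have hdvd2 : Module.finrank A (IntermediateField.extendScalars hAC) ∣
      Module.finrank A (IntermediateField.extendScalars hA) :=
    ⟨_, hmul.symm⟩
  have h1 : Module.finrank A (IntermediateField.extendScalars hAC) = 1 :=
    Nat.eq_one_of_dvd_coprimes hcop hdvd hdvd2
  have h2 : IntermediateField.extendScalars hAC = ⊥ :=
    IntermediateField.finrank_eq_one_iff.1 h1
  intro x hx
  have h3 : x ∈ IntermediateField.extendScalars hAC :=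
    (le_sup_left : D ≤ D ⊔ A) hx
  rw [h2, IntermediateField.mem_bot] at h3
  obtain ⟨y, hy⟩ := h3
  rw [← hy]
  exact y.2

end Pool.Agent.OTE


end

section

/-!
# OT, block E, module IDX: the class numbers of `M` and `K M`
-/

set_option autoImplicit false

open NumberField IsDedekindDomain Finset
open scoped nonZeroDivisors Pointwise

namespace Pool.Agent.OTE

open _root_.Pool.Agent.RI _root_.Pool.Agent.RID _root_.Pool.Agent.MU3 _root_.MU3

namespace IDX

/-- The situation `C0` is a case of `CD` for the list `[F, K]`. -/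
theorem cd {p : ℕ} {F K M : IntermediateField ℚ ℂ} (h : C0 p F K M) : CD p F K M [F, K] where
  hK := h.hK
  hM := h.hM
  gK := h.gK
  copK := h.copK
  gM := h.gM
  degM := h.degM
  ne := by simp
  mem := by
    intro E hE
    simp only [List.mem_cons, List.not_mem_nil, or_false] at hE
    rcases hE with rfl | rfl
    · refine ⟨le_rfl, h.hK, ?_⟩
      rw [IntermediateField.extendScalars_self]
      infer_instance
    · exact ⟨h.hK, le_rfl, h.gK⟩
  inf := by
    intro φ hφ
    exfalso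
    obtain ⟨x, hx⟩ := h.tc (φ.comp (IntermediateField.inclusion h.hM).toRingHom)
    exact hx (hφ (IntermediateField.inclusion h.hM x) x.2)
  ram := by
    intro P _ _
    refine ⟨K, by simp, le_rfl, ?_⟩
    intro Q _ hQ
    exact hQ

open Pool.Agent.RID.GENC in
/-- `t_GENC` for the list `[F]`. -/
theorem genc (p : ℕ) [Fact p.Prime] (F K M : IntermediateField ℚ ℂ) [fF : FiniteDimensional ℚ F]
    [fK : FiniteDimensional ℚ K] [fM : FiniteDimensional ℚ M] (h0 : C0 p F K M)
    (h : F ≤ K ⊔ M) : letI := algC h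
    padicValNat p ((prin : (↥(K ⊔ M))ˣ →* J ↥(K ⊔ M)).range.relIndex
      (XsJ [F] (fun E => NC h (E ⊔ M)))) = eOf p K M {F} := by
  have hCD := cd h0
  let _ := algC h
  have hL : FiniteDimensional ℚ ↥(K ⊔ M) := inferInstance
  have hg : IsGalois F (IntermediateField.extendScalars h) :=
    BCH_thm.2 F K M hCD.hK hCD.hM h hCD.gK hCD.gM
  obtain ⟨-, -, -, -, hN5, hN6⟩ := t_NUS
  have hmem : ∀ E ∈ [F], E ∈ [F, K] := by
    intro E hE
    simp only [List.mem_cons, List.not_mem_nil, or_false] at hE ⊢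
    exact Or.inl hE
  have hsc := fun E (hE : E ∈ [F]) => t_SCN p F K M [F, K] hCD h E (hmem E hE)
  have hnrm : ∀ E ∈ [F], (NC h (E ⊔ M)).Normal := fun E hE => (hsc E hE).1
  obtain ⟨-, hQ, -, -⟩ := hN6 F ↥(K ⊔ M) (IntermediateField ℚ ℂ) [F]
    (fun E => NC h (E ⊔ M)) hnrm
  have hle : ∀ E ∈ [F], E ⊔ M ≤ K ⊔ M := by
    intro E hE
    obtain ⟨_, h2, _⟩ := hCD.mem E (hmem E hE)
    exact sup_le_sup_right h2 M
  have key := t_GENA p (J ↥(K ⊔ M)) (IntermediateField ℚ ℂ) [F]
    (fun E => Nat.card (NC h (E ⊔ M))) (fun E => nuS (NC h (E ⊔ M)))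
    (prin : (↥(K ⊔ M))ˣ →* J ↥(K ⊔ M)).range
    ((prin : (↥(K ⊔ M))ˣ →* J ↥(K ⊔ M)).range ⊔
      Subgroup.closure (gens (K ⊔ M) {D | ∃ E ∈ ({F} : Set (IntermediateField ℚ ℂ)), D = E ⊔ M}))
    (gens (K ⊔ M) {D | ∃ E ∈ ({F} : Set (IntermediateField ℚ ℂ)), D = E ⊔ M})
    (fun E hE => (hsc E hE).2.1) hQ ?_ inferInstance ?_ rfl ?_
  · unfold eOf
    rw [index_fromSub, key]
    rfl
  · rintro E hE _ ⟨x, rfl⟩
    exact ⟨nuS (NC h (E ⊔ M)) x, hN5 F ↥(K ⊔ M) _ x⟩
  · intro E hE x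
    have hFD : F ≤ E ⊔ M := hCD.hM.trans le_sup_right
    obtain ⟨c, hc⟩ := (nuS_NC (K ⊔ M) h hFD (hle E hE) hg).1 x
    rw [hc]
    have _ := fd_of_le (hle E hE)
    exact ext_mem (K ⊔ M) {D | ∃ E ∈ ({F} : Set (IntermediateField ℚ ℂ)), D = E ⊔ M}
      (show E ⊔ M ∈ {D | ∃ E ∈ ({F} : Set (IntermediateField ℚ ℂ)), D = E ⊔ M} from
        ⟨E, by simpa using hE, rfl⟩) (hle E hE) c
  · intro b hb
    obtain ⟨D, ⟨E, hE, rfl⟩, h1, h2⟩ := gens_eq _ _ _ hb
    have hE' : E ∈ [F] := by simpa using hE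
    have hFD : F ≤ E ⊔ M := hCD.hM.trans le_sup_right
    obtain ⟨c, hc⟩ := h2 (fd_of_le (hle E hE'))
    exact ⟨E, hE', by rw [hc]; exact (nuS_NC (K ⊔ M) h hFD (hle E hE') hg).2 c⟩

end IDX

/-- Module IDX. -/
theorem te_IDX : Se_IDX := by
  intro p _ F K M _ _ _ h0 h
  have h1 := IDX.genc p F K M h0 h
  have h2 := t_SGL p F K M h0.hK h0.hM h0.gK h0.copK
  rw [← h1] at h2
  exact h2

end Pool.Agent.OTE


end

section

/-!
# OT (Theorem T+), block E: `PPP`, the parts of an abelian extension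
-/

set_option autoImplicit false

open NumberField IsDedekindDomain Finset
open scoped nonZeroDivisors Pointwise

namespace Pool.Agent.OTE

open _root_.Pool.Agent.RI _root_.Pool.Agent.RID _root_.Pool.Agent.MU3 _root_.MU3

namespace PPP

/-- the fixed field of a normal subgroup, as a subfield of `ℂ` -/
theorem fix (k K : IntermediateField ℚ ℂ) [FiniteDimensional ℚ K] (h : k ≤ K)
    [IsGalois k (IntermediateField.extendScalars h)]
    [FiniteDimensional k (IntermediateField.extendScalars h)]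
    (H : Subgroup (Gal((IntermediateField.extendScalars h)/k))) [H.Normal] :
    ∃ (M : IntermediateField ℚ ℂ) (h₁ : k ≤ M), M ≤ K ∧
      IsGalois k (IntermediateField.extendScalars h₁) ∧
      Module.finrank k (IntermediateField.extendScalars h₁) = H.index ∧
      ∀ y : IntermediateField.extendScalars h, y ∈ IntermediateField.fixedField H →
        (y : ℂ) ∈ M := by
  set L₀ : IntermediateField k (IntermediateField.extendScalars h) :=
    IntermediateField.fixedField H with hL₀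
  have hg₀ : IsGalois k L₀ := IsGalois.of_fixedField_normal_subgroup _
  have hfree : Module.Free k L₀ := Module.Free.of_divisionRing k L₀
  have hfree' : Module.Free L₀ (IntermediateField.extendScalars h) :=
    Module.Free.of_divisionRing L₀ _
  have hf₁ : Module.finrank L₀ (IntermediateField.extendScalars h) = Nat.card H := by
    rw [hL₀, IntermediateField.finrank_fixedField_eq_card]
  have hidx : H.index = Module.finrank k L₀ := by
    have e1 := Module.finrank_mul_finrank k L₀ (IntermediateField.extendScalars h)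
    have e2 := H.card_mul_index
    rw [IsGalois.card_aut_eq_finrank, ← e1, hf₁, mul_comm] at e2
    exact Nat.eq_of_mul_eq_mul_right (Nat.card_pos (α := H)) e2
  set M' : IntermediateField ℚ ℂ :=
    (IntermediateField.lift L₀).restrictScalars ℚ with hM'
  have h₁ : k ≤ M' := by
    intro x hx
    have : ((algebraMap k ℂ) ⟨x, hx⟩) ∈ IntermediateField.lift L₀ :=
      (IntermediateField.lift L₀).algebraMap_mem _
    exact this
  have h₂ : M' ≤ K := by
    intro x hx
    have : x ∈ IntermediateField.lift L₀ := hx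
    exact IntermediateField.lift_le L₀ this
  have he : IntermediateField.extendScalars h₁ = IntermediateField.lift L₀ := by
    ext x; rfl
  have hfM' : Module.finrank k (IntermediateField.extendScalars h₁) = Module.finrank k L₀ := by
    rw [he]
    exact (IntermediateField.liftAlgEquiv L₀).symm.toLinearEquiv.finrank_eq
  refine ⟨M', h₁, h₂, ?_, by rw [hfM', hidx], ?_⟩
  · rw [he]
    exact IsGalois.of_algEquiv (IntermediateField.liftAlgEquiv L₀)
  · intro y hy
    have : (y : ℂ) ∈ IntermediateField.lift L₀ := (IntermediateField.mem_lift y).2 hy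
    exact this

end PPP

theorem te_PPP : Se_PPP := by
  intro p hp k K _ h hgal hab
  have fdk : FiniteDimensional k (IntermediateField.extendScalars h) := by
    have h1 : FiniteDimensional ℚ (IntermediateField.extendScalars h) :=
      inferInstanceAs (FiniteDimensional ℚ K)
    exact Module.Finite.of_restrictScalars_finite ℚ k _
  have hnorm : ∀ H : Subgroup (Gal((IntermediateField.extendScalars h)/k)), H.Normal := by
    intro H
    constructor
    intro n hn g
    rw [hab g n, mul_inv_cancel_right]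
    exact hn
  obtain ⟨P⟩ : Nonempty (Sylow p (Gal((IntermediateField.extendScalars h)/k))) := inferInstance
  obtain ⟨a, ha⟩ := IsPGroup.iff_card.mp P.isPGroup'
  have hnd : ¬ p ∣ (P : Subgroup (Gal((IntermediateField.extendScalars h)/k))).index :=
    P.not_dvd_index
  have hN := hnorm (P : Subgroup (Gal((IntermediateField.extendScalars h)/k)))
  have hcop : Nat.Coprime (Nat.card (P : Subgroup (Gal((IntermediateField.extendScalars h)/k))))
      (P : Subgroup (Gal((IntermediateField.extendScalars h)/k))).index := by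
    have : Nat.card (P : Subgroup (Gal((IntermediateField.extendScalars h)/k))) = p ^ a := ha
    rw [this]
    exact Nat.Coprime.pow_left a ((Nat.Prime.coprime_iff_not_dvd hp.out).2 hnd)
  obtain ⟨H, hH⟩ := Subgroup.exists_right_complement'_of_coprime hcop
  have hN' := hnorm H
  obtain ⟨L₁, h₁, hL₁, hg₁, hf₁, hm₁⟩ := PPP.fix k K h
    (P : Subgroup (Gal((IntermediateField.extendScalars h)/k)))
  obtain ⟨Lp, h₂, hL₂, hg₂, hf₂, hm₂⟩ := PPP.fix k K h H
  refine ⟨L₁, Lp, h₁, h₂, le_antisymm (sup_le hL₁ hL₂) ?_, hg₁, by rw [hf₁]; exact hnd, hg₂,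
    a, ?_⟩
  · -- the composite is everything
    have hkM : k ≤ L₁ ⊔ Lp := h₁.trans le_sup_left
    have key : IntermediateField.fixedField
        (P : Subgroup (Gal((IntermediateField.extendScalars h)/k))) ⊔
        IntermediateField.fixedField H = ⊤ := by
      have e1 := IntermediateField.fixingSubgroup_sup
        (K := IntermediateField.fixedField
          (P : Subgroup (Gal((IntermediateField.extendScalars h)/k))))
        (L := IntermediateField.fixedField H)
      rw [IntermediateField.fixingSubgroup_fixedField,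
        IntermediateField.fixingSubgroup_fixedField, hH.disjoint.eq_bot] at e1
      rw [← IsGalois.fixedField_fixingSubgroup (IntermediateField.fixedField
        (P : Subgroup (Gal((IntermediateField.extendScalars h)/k))) ⊔
        IntermediateField.fixedField H), e1]
      exact IntermediateField.fixedField_bot
    have hle : IntermediateField.fixedField
        (P : Subgroup (Gal((IntermediateField.extendScalars h)/k))) ⊔
        IntermediateField.fixedField H ≤
        (IntermediateField.extendScalars hkM).comap (IntermediateField.extendScalars h).val := by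
      rw [sup_le_iff]
      constructor
      · intro y hy
        exact (le_sup_left : L₁ ≤ L₁ ⊔ Lp) (hm₁ y hy)
      · intro y hy
        exact (le_sup_right : Lp ≤ L₁ ⊔ Lp) (hm₂ y hy)
    rw [key] at hle
    intro x hx
    exact hle (IntermediateField.mem_top : (⟨x, hx⟩ : IntermediateField.extendScalars h) ∈ _)
  · rw [hf₂, hH.index_eq_card, ← ha]

end Pool.Agent.OTE


end

section

/-!
# OT (Theorem T+), block E: module RNK

The rank of `X / P` and the ambiguous classes, for an automorphism `g` with `g ^ p = 1`.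
-/

set_option autoImplicit false

open NumberField IsDedekindDomain Finset
open scoped nonZeroDivisors Pointwise

namespace Pool.Agent.OTE

open _root_.Pool.Agent.RI _root_.Pool.Agent.RID _root_.Pool.Agent.MU3 _root_.MU3

namespace RNK

/-- `(γ - 1) ^ p` is `p` times an endomorphism if `γ ^ p = 1`. -/
lemma sub_one_pow {A : Type} [AddCommGroup A] (p : ℕ) (hp : p.Prime) (γ : AddMonoid.End A)
    (h1 : γ ^ p = 1) : ∃ r : AddMonoid.End A, (γ - 1) ^ p = (p : AddMonoid.End A) * r := by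
  obtain ⟨r, hr⟩ := exists_add_pow_prime_eq hp (Polynomial.X : Polynomial ℤ) (-1)
  obtain ⟨s, hs⟩ : ∃ s : Polynomial ℤ, (Polynomial.X - 1) ^ p =
      Polynomial.X ^ p - 1 + (p : Polynomial ℤ) * s := by
    rcases hp.eq_two_or_odd' with h | h
    · subst h
      refine ⟨1 - Polynomial.X, ?_⟩
      push_cast
      ring
    · refine ⟨Polynomial.X * -1 * r, ?_⟩
      rw [sub_eq_add_neg, hr, h.neg_pow, one_pow]
      ring
  have h2 := congrArg (Polynomial.aeval (γ : AddMonoid.End A)) hs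
  simp only [map_pow, map_add, map_mul, map_one, map_sub, Polynomial.aeval_X, map_natCast] at h2
  refine ⟨Polynomial.aeval (γ : AddMonoid.End A) s, ?_⟩
  rw [h2, h1, sub_self, zero_add]

lemma sub_one_mem {A : Type} [AddCommGroup A] (p : ℕ) (hp : p.Prime) (γ : AddMonoid.End A)
    (h1 : γ ^ p = 1) (x : A) : ∃ y : A, ((γ - 1) ^ p) x = p • y := by
  obtain ⟨r, hr⟩ := sub_one_pow p hp γ h1
  refine ⟨r x, ?_⟩
  rw [hr, AddMonoid.End.coe_mul, Function.comp_apply, AddMonoid.End.natCast_apply]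

variable {I : Type} [CommGroup I]

/-- The classes of `X` in `I / P`: the two descriptions of the `p`-torsion. -/
lemma card_tors (p : ℕ) (P X : Subgroup I) :
    Nat.card {x : Additive (X ⧸ P.subgroupOf X) // p • x = 0} =
      Nat.card {c : I ⧸ P // (∃ b ∈ X, (b : I ⧸ P) = c) ∧ c ^ p = 1} := by
  let φ : X ⧸ P.subgroupOf X →* I ⧸ P := QuotientGroup.map (P.subgroupOf X) P X.subtype
    (by intro x hx; exact hx)
  have hφ : ∀ x : X, φ (x : X ⧸ P.subgroupOf X) = ((x : I) : I ⧸ P) := fun x => rfl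
  have hinj : Function.Injective φ := by
    rw [injective_iff_map_eq_one]
    intro a ha
    obtain ⟨x, rfl⟩ := QuotientGroup.mk_surjective a
    rw [hφ, QuotientGroup.eq_one_iff] at ha
    rw [QuotientGroup.eq_one_iff]
    exact ha
  have hmem : ∀ x : {x : Additive (X ⧸ P.subgroupOf X) // p • x = 0},
      (∃ b ∈ X, (b : I ⧸ P) = φ (Additive.toMul x.1)) ∧ (φ (Additive.toMul x.1)) ^ p = 1 := by
    rintro ⟨x, hx⟩
    constructor
    · obtain ⟨y, hy⟩ := QuotientGroup.mk_surjective (Additive.toMul x)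
      refine ⟨(y : I), y.2, ?_⟩
      rw [← hφ, hy]
    · rw [← map_pow]
      have h1 : (Additive.toMul x) ^ p = 1 := hx
      rw [h1, map_one]
  refine Nat.card_congr (Equiv.ofBijective (fun x => ⟨φ (Additive.toMul x.1), hmem x⟩) ⟨?_, ?_⟩)
  · intro x y hxy
    have h1 : φ (Additive.toMul x.1) = φ (Additive.toMul y.1) := congrArg Subtype.val hxy
    exact Subtype.ext (Additive.toMul.injective (hinj h1))
  · rintro ⟨c, ⟨b, hb, rfl⟩, hc⟩
    refine ⟨⟨Additive.ofMul ((⟨b, hb⟩ : X) : X ⧸ P.subgroupOf X), ?_⟩, ?_⟩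
    · have h2 : (((⟨b, hb⟩ : X) : X ⧸ P.subgroupOf X)) ^ p = 1 := by
        apply hinj
        rw [map_pow, map_one, hφ]
        exact hc
      exact h2
    · rfl

open ALGR in
/-- The general form: a group `I` with an automorphism `g`, `g ^ p = 1`. -/
theorem rk_gen {G : Type} [Group G] [MulDistribMulAction G I] (p : ℕ) [hp : Fact p.Prime] (g : G)
    (P X : Subgroup I) (hg : g ^ p = 1) (hPX : P ≤ X) (hfin : P.relIndex X ≠ 0)
    (hP : ∀ x ∈ P, g • x ∈ P) (hX : ∀ x ∈ X, g • x ∈ X) :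
    padicValNat p (Nat.card {c : I ⧸ P // (∃ b ∈ X, (b : I ⧸ P) = c) ∧ c ^ p = 1}) ≤
      p * padicValNat p (P.relIndex (X ⊓ P.comap (dg g))) := by
  set γ : AddMonoid.End (Additive (X ⧸ P.subgroupOf X)) := ga g P X hP hX with hγ
  have hind : (P.subgroupOf X).FiniteIndex := ⟨hfin⟩
  have hfinC : Finite (X ⧸ P.subgroupOf X) := Subgroup.finite_quotient_of_finiteIndex
  have hfinA : Finite (Additive (X ⧸ P.subgroupOf X)) := hfinC
  have hγ1 : γ ^ p = 1 := by
    ext a
    obtain ⟨x, hx⟩ := QuotientGroup.mk_surjective (Additive.toMul a)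
    have ha : a = Additive.ofMul (x : X ⧸ P.subgroupOf X) := by rw [hx]; rfl
    subst ha
    rw [hγ, ga_pow]
    have : (⟨g ^ p • (x : I), pow_smul_mem hX _ x x.2⟩ : X) = x := by
      ext
      simp [hg]
    rw [this]
    rfl
  have h1 := n_NIL p p (Additive (X ⧸ P.subgroupOf X)) γ (sub_one_mem p hp.out γ hγ1)
  rw [card_tors] at h1
  have hU1 : P ≤ X ⊓ P.comap (dg g) := by
    intro x hx
    refine Subgroup.mem_inf.2 ⟨hPX hx, ?_⟩
    rw [Subgroup.mem_comap, dg_apply]
    exact div_mem hx (hP x hx)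
  have hker : Nat.card (AddMonoidHom.ker (γ - 1 : AddMonoid.End _)) =
      P.relIndex (X ⊓ P.comap (dg g)) := by
    apply card_add hU1 inf_le_left
    intro x
    have h0 : Additive.ofMul (x : X ⧸ P.subgroupOf X) ∈
        AddMonoidHom.ker (γ - 1 : AddMonoid.End _) ↔ (γ - 1 : AddMonoid.End _)
        (Additive.ofMul (x : X ⧸ P.subgroupOf X)) = 0 := Iff.rfl
    rw [h0]
    have h2 : (γ - 1 : AddMonoid.End _)
        (Additive.ofMul (x : X ⧸ P.subgroupOf X)) =
        (γ ^ 1) (Additive.ofMul (x : X ⧸ P.subgroupOf X)) -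
          Additive.ofMul (x : X ⧸ P.subgroupOf X) := by
      rw [pow_one]
      rfl
    rw [h2, sub_eq_zero, hγ, ga_pow, Additive.ofMul.injective.eq_iff, QuotientGroup.eq,
      Subgroup.mem_subgroupOf, Subgroup.mem_inf, Subgroup.mem_comap, dg_apply]
    have h3 : (((⟨g ^ 1 • (x : I), pow_smul_mem hX _ x x.2⟩ : X)⁻¹ * x : X) : I) =
        (x : I) / g • (x : I) := by
      simp [div_eq_mul_inv, mul_comm]
    rw [h3]
    simp
  rw [hker] at h1
  exact h1

end RNK

theorem te_RNK : Se_RNK := by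
  intro p hp F L _ _ _ _ g X hg hPX hX
  have hP : ∀ x ∈ _root_.MU3.PI L, g • x ∈ _root_.MU3.PI L := by
    rintro _ ⟨x, rfl⟩
    exact ⟨g • x, (smul_prin g x).symm⟩
  have hfin0 : Finite (J L ⧸ _root_.MU3.PI L) := CL.finite_quot L
  have hfi : (_root_.MU3.PI L).FiniteIndex := Subgroup.finiteIndex_of_finite_quotient
  have hfin : (_root_.MU3.PI L).relIndex X ≠ 0 := by
    intro h0
    exact hfi.index_ne_zero (Nat.eq_zero_of_zero_dvd (h0 ▸ Subgroup.relIndex_dvd_index_of_normal _ _))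
  exact RNK.rk_gen p g (_root_.MU3.PI L) X hg hPX hfin hP hX

end Pool.Agent.OTE


end

section

/-!
# OT, block E, module STP: one step of a tower for `X / P`
-/

set_option autoImplicit false

open NumberField IsDedekindDomain Finset
open scoped nonZeroDivisors Pointwise

namespace Pool.Agent.OTE

open _root_.Pool.Agent.RI _root_.Pool.Agent.RID _root_.Pool.Agent.MU3 _root_.MU3

namespace STP

section

variable {I : Type} [CommGroup I]

/-- the map `X / (P ⊓ X) → I / P` -/
def emb (P X : Subgroup I) : X ⧸ P.subgroupOf X →* I ⧸ P :=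
  QuotientGroup.map (P.subgroupOf X) P X.subtype le_rfl

lemma emb_mk (P X : Subgroup I) (x : X) :
    emb P X (x : X ⧸ P.subgroupOf X) = ((x : I) : I ⧸ P) := rfl

lemma emb_inj (P X : Subgroup I) : Function.Injective (emb P X) := by
  rw [injective_iff_map_eq_one]
  intro a ha
  obtain ⟨x, rfl⟩ := QuotientGroup.mk_surjective a
  rw [emb_mk, QuotientGroup.eq_one_iff] at ha
  rw [QuotientGroup.eq_one_iff]
  exact ha

lemma card_rk (P X : Subgroup I) (p : ℕ) :
    Nat.card {x : Additive (X ⧸ P.subgroupOf X) // p • x = 0} =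
      Nat.card {c : I ⧸ P // (∃ b ∈ X, (b : I ⧸ P) = c) ∧ c ^ p = 1} := by
  have h0 : ∀ a : X ⧸ P.subgroupOf X, ∃ b ∈ X, (b : I ⧸ P) = emb P X a := by
    intro a
    obtain ⟨x, rfl⟩ := QuotientGroup.mk_surjective a
    exact ⟨x, x.2, (emb_mk P X x).symm⟩
  have h1 : ∀ x : {x : Additive (X ⧸ P.subgroupOf X) // p • x = 0},
      emb P X (Additive.toMul x.1) ^ p = 1 := by
    intro x
    have h2 : (Additive.toMul x.1 : X ⧸ P.subgroupOf X) ^ p = 1 := x.2
    rw [← map_pow, h2, map_one]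
  refine Nat.card_eq_of_bijective
    (fun x : {x : Additive (X ⧸ P.subgroupOf X) // p • x = 0} =>
      (⟨emb P X (Additive.toMul x.1), h0 _, h1 x⟩ :
        {c : I ⧸ P // (∃ b ∈ X, (b : I ⧸ P) = c) ∧ c ^ p = 1})) ⟨?_, ?_⟩
  · intro x y hxy
    have h3 : emb P X (Additive.toMul x.1) = emb P X (Additive.toMul y.1) :=
      congrArg Subtype.val hxy
    exact Subtype.ext (emb_inj P X h3)
  · rintro ⟨c, ⟨b, hb, rfl⟩, hc⟩
    refine ⟨⟨Additive.ofMul (((⟨b, hb⟩ : X)) : X ⧸ P.subgroupOf X), ?_⟩, ?_⟩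
    · have h4 : ((((⟨b, hb⟩ : X)) : X ⧸ P.subgroupOf X)) ^ p = 1 := by
        apply emb_inj P X
        rw [map_pow, map_one]
        exact hc
      exact h4
    · rfl

end

section

variable {I G : Type} [CommGroup I] [Group G] [MulDistribMulAction G I]

open ALGR in
/-- `RID.t_ALGR` without ALG1 -/
lemma step (hALG2 : S_ALG2) (p m : ℕ) [Fact p.Prime] (g : G) (P X : Subgroup I)
    (hg : g ^ (p ^ (m + 1)) = 1) (hPX : P ≤ X) (hfin : P.relIndex X ≠ 0)
    (hP : ∀ x ∈ P, g • x ∈ P) (hX : ∀ x ∈ X, g • x ∈ X)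
    (hlt : padicValNat p (Nat.card {c : I ⧸ P // (∃ b ∈ X, (b : I ⧸ P) = c) ∧ c ^ p = 1}) <
      p ^ m * (p - 1)) :
    padicValNat p (P.relIndex X) ≤
      padicValNat p (P.relIndex (X.map (ng (g ^ (p ^ m)) p) ⊔ P)) +
      padicValNat p (Nat.card {c : I ⧸ P // (∃ b ∈ X, (b : I ⧸ P) = c) ∧ c ^ p = 1}) := by
  set γ : AddMonoid.End (Additive (X ⧸ P.subgroupOf X)) := ga g P X hP hX with hγ
  have hind : (P.subgroupOf X).FiniteIndex := ⟨hfin⟩
  have hfinC : Finite (X ⧸ P.subgroupOf X) := Subgroup.finite_quotient_of_finiteIndex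
  have hfinA : Finite (Additive (X ⧸ P.subgroupOf X)) := hfinC
  have hcard : Nat.card (Additive (X ⧸ P.subgroupOf X)) = P.relIndex X := rfl
  have hγ1 : γ ^ (p ^ (m + 1)) = 1 := by
    ext a
    obtain ⟨x, hx⟩ := QuotientGroup.mk_surjective (Additive.toMul a)
    have ha : a = Additive.ofMul (x : X ⧸ P.subgroupOf X) := by rw [hx]; rfl
    subst ha
    rw [hγ, ga_pow]
    have : (⟨g ^ (p ^ (m + 1)) • (x : I), pow_smul_mem hX _ x x.2⟩ : X) = x := by
      ext
      simp [hg]
    rw [this]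
    rfl
  have hran : Nat.card
      (AddMonoidHom.range (∑ j ∈ range p, γ ^ (p ^ m * j) : AddMonoid.End _)) =
      P.relIndex (X.map (ng (g ^ (p ^ m)) p) ⊔ P) := by
    have hng : ∀ x ∈ X, ng (g ^ (p ^ m)) p x ∈ X := by
      intro x hx
      rw [ng_apply]
      refine Subgroup.prod_mem _ fun i _ => ?_
      rw [← pow_mul]
      exact pow_smul_mem hX _ x hx
    have hval : ∀ x : X, (∑ j ∈ range p, γ ^ (p ^ m * j) : AddMonoid.End _)
        (Additive.ofMul (x : X ⧸ P.subgroupOf X)) =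
        Additive.ofMul ((⟨ng (g ^ (p ^ m)) p (x : I), hng x x.2⟩ : X) :
          X ⧸ P.subgroupOf X) := by
      intro x
      have h1 : (∑ j ∈ range p, γ ^ (p ^ m * j) : AddMonoid.End _)
          (Additive.ofMul (x : X ⧸ P.subgroupOf X)) =
          ∑ j ∈ range p, (γ ^ (p ^ m * j)) (Additive.ofMul (x : X ⧸ P.subgroupOf X)) := by
        exact AddMonoidHom.finsetSum_apply _ _ _
      rw [h1]
      have h2 : (⟨ng (g ^ (p ^ m)) p (x : I), hng x x.2⟩ : X) =
          ∏ j ∈ range p, (⟨g ^ (p ^ m * j) • (x : I), pow_smul_mem hX _ x x.2⟩ : X) := by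
        ext
        rw [Subgroup.val_finsetProd]
        simp [ng_apply, pow_mul]
      rw [h2]
      have h3 : (((∏ j ∈ range p,
          (⟨g ^ (p ^ m * j) • (x : I), pow_smul_mem hX _ x x.2⟩ : X)) : X) :
          X ⧸ P.subgroupOf X) = ∏ j ∈ range p,
          (((⟨g ^ (p ^ m * j) • (x : I), pow_smul_mem hX _ x x.2⟩ : X)) :
            X ⧸ P.subgroupOf X) := map_prod (QuotientGroup.mk' (P.subgroupOf X)) _ _
      rw [h3, ofMul_prod]
      refine Finset.sum_congr rfl fun j _ => ?_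
      rw [hγ, ga_pow]
    refine card_add le_sup_right (sup_le ?_ hPX) _ ?_
    · rintro _ ⟨x, hx, rfl⟩
      exact hng x hx
    intro x
    have h0 : Additive.ofMul (x : X ⧸ P.subgroupOf X) ∈
        AddMonoidHom.range (∑ j ∈ range p, γ ^ (p ^ m * j) : AddMonoid.End _) ↔
        ∃ b, (∑ j ∈ range p, γ ^ (p ^ m * j) : AddMonoid.End _) b =
          Additive.ofMul (x : X ⧸ P.subgroupOf X) := Iff.rfl
    rw [h0]
    constructor
    · rintro ⟨b, hb⟩
      obtain ⟨y, hy⟩ := QuotientGroup.mk_surjective (Additive.toMul b)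
      have ha : b = Additive.ofMul (y : X ⧸ P.subgroupOf X) := by rw [hy]; rfl
      subst ha
      rw [hval, Additive.ofMul.injective.eq_iff, QuotientGroup.eq,
        Subgroup.mem_subgroupOf] at hb
      have h4 : (x : I) = ng (g ^ (p ^ m)) p (y : I) *
          (((⟨ng (g ^ (p ^ m)) p (y : I), hng y y.2⟩ : X)⁻¹ * x : X) : I) := by
        simp
      rw [h4]
      exact Subgroup.mul_mem_sup (Subgroup.mem_map_of_mem _ y.2) hb
    · intro hx
      obtain ⟨a, ha, b, hb, hab⟩ := Subgroup.mem_sup.1 hx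
      obtain ⟨y, hy, rfl⟩ := ha
      refine ⟨Additive.ofMul ((⟨y, hy⟩ : X) : X ⧸ P.subgroupOf X), ?_⟩
      rw [hval, Additive.ofMul.injective.eq_iff, QuotientGroup.eq,
        Subgroup.mem_subgroupOf]
      have h4 : (((⟨ng (g ^ (p ^ m)) p y, hng y hy⟩ : X)⁻¹ * x : X) : I) = b := by
        rw [Subgroup.coe_mul, Subgroup.coe_inv, ← hab]
        simp
      rw [h4]
      exact hb
  have h5 := hALG2 p m (Additive (X ⧸ P.subgroupOf X)) γ hγ1 (by rw [card_rk]; exact hlt)
  rw [hran, hcard, card_rk] at h5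
  exact h5

end

end STP

theorem te_STP : Se_STP := by
  intro p m _ F L _ _ _ _ g X hg hPX hX hlt
  have hfinQ : Finite (J L ⧸ (prin (K := L)).range) := CL.finite_quot L
  have hidx : (_root_.MU3.PI L).index ≠ 0 := by
    have : (_root_.MU3.PI L).FiniteIndex := Subgroup.finiteIndex_of_finite_quotient
    exact this.index_ne_zero
  have hfin : (_root_.MU3.PI L).relIndex X ≠ 0 := by
    intro h
    exact hidx (Nat.eq_zero_of_zero_dvd (h ▸ Subgroup.relIndex_dvd_index_of_normal _ _))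
  have hP : ∀ x ∈ _root_.MU3.PI L, g • x ∈ _root_.MU3.PI L := by
    rintro _ ⟨x, rfl⟩
    exact ⟨g • x, (smul_prin g x).symm⟩
  exact STP.step t_ALG2 p m g (_root_.MU3.PI L) X hg hPX hfin hP hX hlt

end Pool.Agent.OTE


end

section

/-!
# OT, block E, module SY0: the situation of one step (helper19)
-/

set_option autoImplicit false

open NumberField IsDedekindDomain Finset
open scoped nonZeroDivisors Pointwise

namespace Pool.Agent.OTE

open _root_.Pool.Agent.RI _root_.Pool.Agent.RID _root_.Pool.Agent.MU3 _root_.MU3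

namespace SY0

theorem isGalois_self (F : IntermediateField ℚ ℂ) :
    IsGalois F (IntermediateField.extendScalars (le_refl F)) := by
  rw [IntermediateField.extendScalars_self]
  infer_instance

theorem onlyAbove_self (K : IntermediateField ℚ ℂ) (P : Ideal (𝓞 K)) :
    OnlyAbove (le_refl K) P := by
  intro Q _ h
  ext x
  have e : RingOfIntegers.mapRingHom (IntermediateField.inclusion (le_refl K) : K →+* K) x = x :=
    RingOfIntegers.ext rfl
  have h1 : x ∈ Q.comap
      (RingOfIntegers.mapRingHom (IntermediateField.inclusion (le_refl K) : K →+* K)) ↔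
      x ∈ P.comap
      (RingOfIntegers.mapRingHom (IntermediateField.inclusion (le_refl K) : K →+* K)) := by
    rw [h]
  rw [Ideal.mem_comap, Ideal.mem_comap, e] at h1
  exact h1

theorem unramInf_of_totCx {F M : IntermediateField ℚ ℂ} (h : F ≤ M) (hF : TotCx F) :
    UnramInf h := by
  intro φ hφ x
  obtain ⟨y, hy⟩ := hF (φ.comp (IntermediateField.inclusion h : F →+* M))
  exact absurd (hφ (IntermediateField.inclusion h y) y.2) hy

/-- the hypotheses of the theorems on decomposition fields, for `l = [F, K]` -/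
theorem cd_of_c0 {p : ℕ} {F K M : IntermediateField ℚ ℂ} (hC : C0 p F K M) :
    CD p F K M [F, K] where
  hK := hC.hK
  hM := hC.hM
  gK := hC.gK
  copK := hC.copK
  gM := hC.gM
  degM := hC.degM
  ne := by simp
  mem := by
    intro E hE
    rcases List.mem_cons.1 hE with rfl | hE
    · exact ⟨le_rfl, hC.hK, isGalois_self E⟩
    · rcases List.mem_singleton.1 hE with rfl
      exact ⟨hC.hK, le_rfl, hC.gK⟩
  inf := unramInf_of_totCx hC.hM hC.tc
  ram := by
    intro P _ _
    exact ⟨K, by simp, le_rfl, onlyAbove_self K P⟩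

end SY0

theorem te_SY0 : Se_SY0 := by
  intro p a _ F K M' M _ _ _ _ hC h₁ h₂ hG₁ h h'
  let aK := algC h
  letI aKL := algC h'
  letI aL := algC (h.trans h')
  letI tow := towerC h h'
  intro g hg
  have hCD : CD p F K M [F, K] := SY0.cd_of_c0 hC
  have hCD' : CD p F K M' [F, K] := t_CDR p F K M' M [F, K] hCD h₁ h₂ hG₁
  have hBCH := BCH_thm
  have gK : IsGalois F ↥(K ⊔ M') :=
    (isGalois_algC h).2 (hBCH.2 F K M' hCD.hK h₁ h hCD.gK hG₁)
  have gL : IsGalois F ↥(K ⊔ M) :=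
    (isGalois_algC (h.trans h')).2 (hBCH.2 F K M hCD.hK hCD.hM (h.trans h') hCD.gK hCD.gM)
  have hfix : ∀ x : ↥(K ⊔ M), (x : ℂ) ∈ K → g x = x := by
    intro x hx
    rw [hg.fix]
    exact ⟨⟨x, (le_sup_left : K ≤ K ⊔ M') hx⟩, rfl⟩
  have hcyc := t_CYC F ↥(K ⊔ M') ↥(K ⊔ M) g (p ^ a) hg
  have hN := t_SCN p F K M [F, K] hCD (h.trans h')
  have hN' := t_SCN p F K M' [F, K] hCD' h
  have hl : ∀ E ∈ [F], E ∈ [F, K] := by
    intro E hE
    rcases List.mem_singleton.1 hE with rfl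
    simp
  exact
    { galK := gK
      galL := gL
      ne := by simp
      cyc := hg
      nrm := fun E hE => (hN E (hl E hE)).1
      nrm' := fun E hE => (hN' E (hl E hE)).1
      cop := fun E hE => (hN E (hl E hE)).2.1
      com := fun E hE σ hσ => (hN E (hl E hE)).2.2 g hfix σ hσ
      mat := fun E hE => t_SCM t_SCN p F K M' M [F, K] hCD h₁ h₂ hG₁ h h' E (hl E hE)
      inf := by
        rw [← hcyc.2.1]
        exact t_SCI p F K M' M [F, K] hCD h₁ h₂ hG₁ h' }

end Pool.Agent.OTE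


end

section

/-!
# OT, block E, module TWR: one step of the tower over `K M` (helper51)
-/

set_option autoImplicit false

open NumberField IsDedekindDomain Finset
open scoped nonZeroDivisors Pointwise

namespace Pool.Agent.OTE

open _root_.Pool.Agent.RI _root_.Pool.Agent.RID _root_.Pool.Agent.MU3 _root_.MU3

namespace TWR

/-! ### Degrees -/

/-- The situation for `M ⊔ B m`. -/
theorem c0_layer {p m : ℕ} [Fact p.Prime] {F K M B : IntermediateField ℚ ℂ}
    [FiniteDimensional ℚ F] [FiniteDimensional ℚ K] [FiniteDimensional ℚ M]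
    (hC : C0 p F K M) (hB : IsLayer p m B) : C0 p F K (M ⊔ B) := by
  have hpr : p.Prime := Fact.out
  obtain ⟨hfB, -, -⟩ := LAY_thm p m B hB
  have hFM : F ≤ M := hC.hM
  have hM' : F ≤ M ⊔ B := hFM.trans le_sup_left
  have hG : IsGalois F (IntermediateField.extendScalars hM') := by
    have hb := (Gal.base F B hB).1
    have e : M ⊔ (F ⊔ B) = M ⊔ B := by
      rw [← sup_assoc, sup_eq_left.2 hFM]
    have fd : FiniteDimensional ℚ ↥(F ⊔ B) := IntermediateField.finiteDimensional_sup F B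
    have h1 : ∀ (D : IntermediateField ℚ ℂ) (_ : M ⊔ (F ⊔ B) = D) (hD : F ≤ D),
        IsGalois F (IntermediateField.extendScalars hD) := by
      intro D hD hD'
      subst hD
      exact BCH_thm.2 F M (F ⊔ B) hFM le_sup_left hD' hC.gM hb
    exact h1 _ e hM'
  have hdeg : ∃ a : ℕ, Module.finrank F (IntermediateField.extendScalars hM') = p ^ a := by
    obtain ⟨a, ha⟩ := hC.degM
    have h2 := GCC.degM hM' hFM (le_sup_left : M ≤ M ⊔ B)
    have h3 : Module.finrank F (IntermediateField.extendScalars hM') ∣ p ^ (a + m) := by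
      rw [← h2, ha, pow_add]
      exact mul_dvd_mul_left _ (Gal.base M B hB).2
    obtain ⟨j, -, hj⟩ := (Nat.dvd_prime_pow hpr).1 h3
    exact ⟨j, hj⟩
  exact
    { hK := hC.hK
      hM := hM'
      gK := hC.gK
      copK := hC.copK
      gM := hG
      degM := hdeg
      tc := hC.tc }

/-- Equal fields. -/
theorem eq_of_eq {p : ℕ} [Fact p.Prime] {F K N' N : IntermediateField ℚ ℂ}
    [FiniteDimensional ℚ K] [FiniteDimensional ℚ N'] [FiniteDimensional ℚ N]
    (hC : C0 p F K N) (h₁ : F ≤ N') (h₂ : N' ≤ N) (he : K ⊔ N = K ⊔ N') : N = N' := by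
  have hpr : p.Prime := Fact.out
  obtain ⟨a, ha⟩ := hC.degM
  have hN : N ≤ K ⊔ N' := by
    rw [← he]
    exact le_sup_right
  have e0 : N' = F ⊔ N' := (sup_eq_right.2 h₁).symm
  have d1 := (BCH_thm.1 F K N' N' (K ⊔ N') hC.hK le_sup_right e0 rfl hC.gK).2
  have d2 := GCC.degM (le_sup_right : N' ≤ K ⊔ N') h₂ hN
  have d3 := GCC.degM hC.hM h₁ h₂
  rw [ha] at d3
  have d4 : Module.finrank N' (IntermediateField.extendScalars h₂) ∣
      Module.finrank F (IntermediateField.extendScalars hC.hK) :=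
    (Dvd.intro _ d2).trans d1
  have d5 : Module.finrank N' (IntermediateField.extendScalars h₂) ∣ p ^ a :=
    Dvd.intro_left _ d3
  obtain ⟨j, -, hj⟩ := (Nat.dvd_prime_pow hpr).1 d5
  apply PTow.eq_of_one h₂
  rcases Nat.eq_zero_or_pos j with h0 | h0
  · rw [hj, h0, pow_zero]
  · exfalso
    apply hC.copK
    refine (dvd_pow_self p h0.ne').trans ?_
    rw [← hj]
    exact d4

/-! ### The tower -/

/-- An automorphism over a larger field. -/
theorem transport {p m : ℕ} {F L A A' D D' : IntermediateField ℚ ℂ} (hF : F ≤ L) (e : A = D)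
    (e' : A' = D') (h : L ≤ A') (h' : A ≤ A') (k : F ≤ D') (k' : D ≤ D') :
    (letI := algC h
    letI := algC h'
    ∃ g : A' ≃ₐ[L] A', g ^ (p ^ (m + 1)) = 1 ∧ (A' = A ∨ CycExt L A A' (g ^ (p ^ m)) p)) →
    letI := algC k
    letI := algC k'
    D' = D ∨ ∃ g : D' ≃ₐ[F] D', g ^ (p ^ (m + 1)) = 1 ∧ CycExt F D D' (g ^ (p ^ m)) p := by
  subst e
  subst e'
  rintro ⟨g, hg, hor⟩
  rcases hor with h1 | h1
  · exact Or.inl h1
  · right
    let a1 : Algebra F L := algC hF
    let a2 : Algebra L A' := algC h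
    let a3 : Algebra A A' := algC h'
    let a4 : Algebra F A' := algC k
    have t : IsScalarTower F L A' := towerC hF h
    let R : (A' ≃ₐ[L] A') →* (A' ≃ₐ[F] A') := AlgEquiv.restrictScalarsHom F
    have hR : Function.Injective R := AlgEquiv.restrictScalarsHom_injective F
    refine ⟨R g, ?_, ?_, ?_⟩
    · rw [← map_pow, hg, map_one]
    · rw [← map_pow, orderOf_injective R hR]
      exact h1.ord
    · intro x
      rw [← map_pow]
      exact h1.fix x

/-! ### The norm -/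

/-- The norm of `X` to the previous layer. -/
theorem norm_le {p q : ℕ} [Fact p.Prime] {F A L : Type} [Field F] [Field A] [NumberField A]
    [Field L] [NumberField L] [Algebra F L] [Algebra A L] (g : L ≃ₐ[F] L) (X : Subgroup (J L))
    (XA : Subgroup (J A)) (h : ∀ b ∈ X, ∃ c ∈ XA, ext A L c = ng g q b) :
    padicValNat p ((_root_.MU3.PI L).relIndex (X.map (ng g q) ⊔ _root_.MU3.PI L)) ≤
      padicValNat p ((_root_.MU3.PI A).relIndex XA) := by
  classical
  let π : J L →* J L ⧸ _root_.MU3.PI L := QuotientGroup.mk' (_root_.MU3.PI L)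
  let φ : J A →* J L ⧸ _root_.MU3.PI L := π.comp (ext A L)
  have hπ : π.ker = _root_.MU3.PI L := QuotientGroup.ker_mk' _
  have h1 : (_root_.MU3.PI L).relIndex (X.map (ng g q) ⊔ _root_.MU3.PI L) =
      Nat.card ↥((X.map (ng g q)).map π) := by
    rw [← Subgroup.relIndex_bot_left ((X.map (ng g q)).map π), ← Subgroup.map_bot π,
      Subgroup.relIndex_map_map, hπ, bot_sup_eq]
  have h2 : (X.map (ng g q)).map π ≤ XA.map φ := by
    rintro _ ⟨_, ⟨b, hb, rfl⟩, rfl⟩
    obtain ⟨c, hc, he⟩ := h b hb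
    exact ⟨c, hc, congrArg π he⟩
  have h3 : Nat.card ↥(XA.map φ) = φ.ker.relIndex XA := by
    rw [← Subgroup.relIndex_bot_left (XA.map φ), ← Subgroup.map_bot φ,
      Subgroup.relIndex_map_map, bot_sup_eq, Subgroup.relIndex_sup_right]
  have h4 : _root_.MU3.PI A ≤ φ.ker := by
    rintro _ ⟨x, rfl⟩
    rw [MonoidHom.mem_ker]
    show π (ext A L (prin x)) = 1
    rw [ext_prin, ← MonoidHom.mem_ker, hπ]
    exact ⟨_, rfl⟩
  have h5 : φ.ker.relIndex XA ∣ (_root_.MU3.PI A).relIndex XA :=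
    Subgroup.relIndex_dvd_of_le_left XA h4
  have hfin : (_root_.MU3.PI A).relIndex XA ≠ 0 := by
    intro h0
    have h6 : (_root_.MU3.PI A).index = 0 := by
      have h7 := Subgroup.relIndex_dvd_index_of_normal (_root_.MU3.PI A) XA
      rw [h0] at h7
      exact Nat.eq_zero_of_zero_dvd h7
    have h8 : Finite (J A ⧸ _root_.MU3.PI A) := CL.finite_quot A
    have h9 : (_root_.MU3.PI A).FiniteIndex := Subgroup.finiteIndex_of_finite_quotient
    exact h9.index_ne_zero h6
  have h9 : (_root_.MU3.PI L).relIndex (X.map (ng g q) ⊔ _root_.MU3.PI L) ∣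
      (_root_.MU3.PI A).relIndex XA := by
    rw [h1]
    refine (Subgroup.card_dvd_of_le h2).trans ?_
    rw [h3]
    exact h5
  exact (padicValNat_dvd_iff_le hfin).1 (pow_padicValNat_dvd.trans h9)

/-- The step, the layers are different. -/
theorem step (hSTP : Se_STP) (p m : ℕ) [Fact p.Prime] (F K N' N : IntermediateField ℚ ℂ)
    [FiniteDimensional ℚ F] [FiniteDimensional ℚ K] [FiniteDimensional ℚ N']
    [FiniteDimensional ℚ N] (hC : C0 p F K N) (h₁ : F ≤ N') (h₂ : N' ≤ N)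
    (hG : IsGalois F (IntermediateField.extendScalars h₁)) (h : F ≤ K ⊔ N')
    (h' : K ⊔ N' ≤ K ⊔ N) (hL : F ≤ K ⊔ N) :
    letI := algC h
    letI := algC h'
    letI := algC hL
    (∃ g : ↥(K ⊔ N) ≃ₐ[F] ↥(K ⊔ N), g ^ (p ^ (m + 1)) = 1 ∧
      CycExt F ↥(K ⊔ N') ↥(K ⊔ N) (g ^ (p ^ m)) p) →
    rX p ↥(K ⊔ N) (XF F K N hL) < p ^ m * (p - 1) →
    vX p ↥(K ⊔ N) (XF F K N hL) ≤ vX p ↥(K ⊔ N') (XF F K N' h) +
      rX p ↥(K ⊔ N) (XF F K N hL) := by
  let aK := algC h
  let aKL := algC h'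
  let aL := algC hL
  let tow := towerC h h'
  rintro ⟨g, hg, hcyc⟩ hlt
  have hcyc1 : CycExt F ↥(K ⊔ N') ↥(K ⊔ N) (g ^ (p ^ m)) (p ^ 1) := by
    rw [pow_one]
    exact hcyc
  have hS := te_SY0 p 1 F K N' N hC h₁ h₂ hG h h' (g ^ (p ^ m)) hcyc1
  obtain ⟨-, -, -, -, -, hN⟩ := t_NUS
  obtain ⟨-, -, hP, hst⟩ := hN F ↥(K ⊔ N) (IntermediateField ℚ ℂ) [F]
    (fun E => NC hL (E ⊔ N)) hS.nrm
  have h3 := hSTP p m F ↥(K ⊔ N) g (XF F K N hL) hg hP (hst g) hlt
  refine h3.trans (Nat.add_le_add_right ?_ _)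
  apply norm_le
  exact t_NRM t_CYC t_RES t_NUS F ↥(K ⊔ N') ↥(K ⊔ N) (IntermediateField ℚ ℂ) [F]
    (fun E => NC h (E ⊔ N')) (fun E => NC hL (E ⊔ N)) (g ^ (p ^ m)) p hcyc hS.mat hS.com

end TWR

theorem te_TWR (hSTP : Se_STP) (hIDX : Se_IDX) : Se_TWR := by
  intro p _ F K M _ _ _ B _ hC hB hm n h hlt
  have hBB : B n ≤ B (n + 1) := hm (Nat.le_succ n)
  have h₂ : M ⊔ B n ≤ M ⊔ B (n + 1) := sup_le_sup_left hBB M
  have h' : K ⊔ (M ⊔ B n) ≤ K ⊔ (M ⊔ B (n + 1)) := sup_le_sup_left h₂ K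
  have h₁ : F ≤ M ⊔ B n := hC.hM.trans le_sup_left
  have hA : F ≤ K ⊔ (M ⊔ B n) := hC.hK.trans le_sup_left
  have fdN : FiniteDimensional ℚ ↥(M ⊔ B n) := IntermediateField.finiteDimensional_sup M (B n)
  have fdN' : FiniteDimensional ℚ ↥(M ⊔ B (n + 1)) :=
    IntermediateField.finiteDimensional_sup M (B (n + 1))
  have hC0 : C0 p F K (M ⊔ B n) := TWR.c0_layer hC (hB n)
  have hC1 : C0 p F K (M ⊔ B (n + 1)) := TWR.c0_layer hC (hB (n + 1))
  obtain ⟨m, hpm, hg⟩ := p_TOW p (K ⊔ M) B hB hm n le_sup_left (sup_le_sup_left hBB (K ⊔ M))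
  have htr := TWR.transport (hC.hK.trans (le_sup_left : K ≤ K ⊔ M)) (sup_assoc K M (B n))
    (sup_assoc K M (B (n + 1))) le_sup_left (sup_le_sup_left hBB (K ⊔ M)) h h' hg
  rcases htr with he | hcyc
  · have heN : M ⊔ B (n + 1) = M ⊔ B n := TWR.eq_of_eq hC1 h₁ h₂ he
    have e1 : padicValNat p (classNo (K ⊔ (M ⊔ B (n + 1)))) =
        padicValNat p (classNo (K ⊔ (M ⊔ B n))) := by
      simp only [heN]
    have e2 : padicValNat p (classNo (M ⊔ B (n + 1))) = padicValNat p (classNo (M ⊔ B n)) := by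
      simp only [heN]
    rw [e1, e2]
    exact Nat.le_add_right _ _
  · have hr : rX p ↥(K ⊔ (M ⊔ B (n + 1))) (XF F K (M ⊔ B (n + 1)) h) < p ^ m * (p - 1) := by
      by_contra hcon
      rw [not_lt] at hcon
      have hd : Module.finrank ℚ ↥(K ⊔ M) ≤ Module.finrank ℚ K * Module.finrank ℚ M :=
        IntermediateField.finrank_sup_le K M
      have h5 : p ^ n * (p - 1) ≤ rX p ↥(K ⊔ (M ⊔ B (n + 1))) (XF F K (M ⊔ B (n + 1)) h) *
          (Module.finrank ℚ K * Module.finrank ℚ M) := by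
        calc p ^ n * (p - 1) ≤ p ^ m * Module.finrank ℚ ↥(K ⊔ M) * (p - 1) :=
              Nat.mul_le_mul_right _ hpm
          _ = p ^ m * (p - 1) * Module.finrank ℚ ↥(K ⊔ M) := by ring
          _ ≤ _ := Nat.mul_le_mul hcon hd
      exact absurd hlt (not_lt.2 h5)
    have h6 := TWR.step hSTP p m F K (M ⊔ B n) (M ⊔ B (n + 1)) hC1 h₁ h₂ hC0.gM hA h' h hcyc hr
    have i0 := hIDX p F K (M ⊔ B n) hC0 hA
    have i1 := hIDX p F K (M ⊔ B (n + 1)) hC1 h
    omega

end Pool.Agent.OTE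


end
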