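import Pool.Agent.OUM.C04
import Pool.Agent.OUM.Stmt
import Pool.Agent.OBM.Br

/-!
# The theorem of the hand-in TwistsEveryPrime, with the definitions of the statement
-/

set_option autoImplicit false

open NumberField IntermediateField

namespace Pool.Agent.MuBr

theorem twists_all (p : ℕ) [Fact p.Prime] (hp : 5 ≤ p) (k K : IntermediateField ℚ ℂ)
    (h : k ≤ K) (hk : ImQuad k) (hK : FinAb h) (l : ℕ) (hl : l = 2 ∨ l = 3) :
    ∃ (r₀ : ℕ) (B₀ : IntermediateField ℚ ℂ), MuCyc.IsLayer l r₀ B₀ ∧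
      ∀ (r : ℕ) (B : IntermediateField ℚ ℂ), MuCyc.IsLayer l r B →
        (∀ (L : IntermediateField ℚ ℂ) (hL : k ≤ L), L ≤ K ⊔ B →
          ¬ p ∣ Module.finrank k (extendScalars hL) →
          ∀ χ : ((extendScalars hL) ≃ₐ[k] (extendScalars hL)) →* (AlgebraicClosure (ZMod p))ˣ,
          (∃ s, (∀ x : extendScalars hL, (x : ℂ) ∈ K ⊔ B₀ → s x = x) ∧ χ s ≠ 1) →
            MuZeroC p hL χ) ∧
        ∀ L : IntermediateField ℚ ℂ, k ≤ L → L ≤ K ⊔ B →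
          ∀ (E : IntermediateField ℚ ℂ) (hE : k ≤ E), PGal p hE →
            MuLEC p (L ⊔ E) ((L ⊓ (K ⊔ B₀)) ⊔ E) := by
  obtain ⟨r₀, B₀, h0, H⟩ :=
    Pool.Agent.OTF.twists_every_prime_all p hp k K h hk.old hK.fin hK.gal hK.comm l hl
  refine ⟨r₀, B₀, h0, fun r B hB => ?_⟩
  obtain ⟨h1, h2⟩ := H r B hB
  exact ⟨fun L hL hLB hd χ hχ => br_mu.2 (h1 L hL hLB hd χ hχ),
    fun L hL hLB E hE hG => ⟨h2 L hL hLB E hE hG.fin hG.gal hG.deg⟩⟩

end Pool.Agent.MuBr
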